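import Pool.Agent.KS6_47.CR.Stm

set_option autoImplicit false
open MeasureTheory Set Filter Topology
open scoped ENNReal NNReal Real

namespace Pool.Agent.KS6_47.CR.A2

theorem a2 (h : StmArea) : StmUsc := by
  intro f L L' β A e hf hA hAQ he
  -- the measure of `A` is finite
  have hfin : volume A ≠ ⊤ := by
    refine ne_top_of_le_ne_top ?_ (measure_mono hAQ)
    have hb : IsCompact (Icc (0:ℝ) 1 ×ˢ (Icc (-1:ℝ) 1 ×ˢ Icc (-β) β)) :=
      isCompact_Icc.prod (isCompact_Icc.prod isCompact_Icc)
    exact hb.measure_lt_top.ne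
  set nu : ℝ≥0∞ := ENNReal.ofReal (e / (2 * ((L' : ℝ) + 1))) with hnu
  have hnu0 : nu ≠ 0 := by
    rw [hnu]
    simp only [ne_eq, ENNReal.ofReal_eq_zero, not_le]
    positivity
  obtain ⟨A', hA', hA'c, hA'v⟩ := hA.exists_isCompact_sdiff_lt hfin hnu0
  have hPhi : Continuous (Phi f) := by
    unfold Phi q
    have := hf.continuous
    fun_prop
  have hC : IsCompact (Phi f '' A') := hA'c.image hPhi
  have hlim := tendsto_measure_cthickening_of_isCompact (μ := (volume : Measure P3)) hC
  have hCfin : volume (Phi f '' A') ≠ ⊤ := hC.measure_lt_top.ne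
  have hlt : volume (Phi f '' A') < volume (Phi f '' A') + ENNReal.ofReal (e / 2) := by
    apply ENNReal.lt_add_right hCfin
    simp only [ne_eq, ENNReal.ofReal_eq_zero, not_le]
    positivity
  have hev := (tendsto_order.1 hlim).2 _ hlt
  rw [Metric.eventually_nhds_iff] at hev
  obtain ⟨δ, hδ, hδs⟩ := hev
  refine ⟨δ / 2, by positivity, ?_⟩
  intro f' hf' hclose
  have h1 : Phi f' '' A' ⊆ Metric.cthickening (δ / 2) (Phi f '' A') := by
    rintro _ ⟨p, hp, rfl⟩
    apply Metric.mem_cthickening_of_dist_le (Phi f' p) (Phi f p) (δ / 2) _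
      (mem_image_of_mem _ hp)
    simp only [Phi, Prod.dist_eq, dist_self, Real.dist_eq]
    have := hclose p.2
    have h0 : (0:ℝ) ≤ δ / 2 := by positivity
    refine max_le this ?_
    exact h0
  have h2 : volume (Metric.cthickening (δ / 2) (Phi f '' A')) <
      volume (Phi f '' A') + ENNReal.ofReal (e / 2) := by
    apply hδs
    rw [Real.dist_eq, sub_zero, abs_of_pos (by positivity)]
    linarith
  have h3 : volume (Phi f' '' (A \ A')) ≤ ENNReal.ofReal (e / 2) := by
    have h4 := h f' L' β (A \ A') hf' (hA.diff hA'c.measurableSet) (sdiff_subset.trans hAQ)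
    refine h4.trans ?_
    have h5 : ∫⁻ p in A \ A', ENNReal.ofReal |fderiv ℝ f' p.2 (1, -p.1)| ≤
        ∫⁻ p in A \ A', (L' : ℝ≥0∞) := by
      apply setLIntegral_mono' (hA.diff hA'c.measurableSet)
      intro p hp
      have hx := (hAQ hp.1).1
      have h6 : ‖fderiv ℝ f' p.2 (1, -p.1)‖ ≤ (L' : ℝ) := by
        refine (ContinuousLinearMap.le_opNorm _ _).trans ?_
        have h7 : ‖fderiv ℝ f' p.2‖ ≤ (L' : ℝ) := norm_fderiv_le_of_lipschitz ℝ hf'
        have h8 : ‖((1:ℝ), -p.1)‖ = 1 := by
          rw [Prod.norm_def]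
          simp only [norm_one, norm_neg, Real.norm_eq_abs]
          rw [abs_of_nonneg hx.1]
          exact max_eq_left hx.2
        rw [h8, mul_one]
        exact h7
      rw [Real.norm_eq_abs] at h6
      calc ENNReal.ofReal |fderiv ℝ f' p.2 (1, -p.1)| ≤ ENNReal.ofReal (L' : ℝ) :=
            ENNReal.ofReal_le_ofReal h6
        _ = (L' : ℝ≥0∞) := ENNReal.ofReal_coe_nnreal
    refine h5.trans ?_
    rw [setLIntegral_const]
    calc (L' : ℝ≥0∞) * volume (A \ A') ≤ (L' : ℝ≥0∞) * nu := by gcongr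
      _ = ENNReal.ofReal (L' : ℝ) * ENNReal.ofReal (e / (2 * ((L' : ℝ) + 1))) := by
          rw [ENNReal.ofReal_coe_nnreal]
      _ = ENNReal.ofReal ((L' : ℝ) * (e / (2 * ((L' : ℝ) + 1)))) := by
          rw [ENNReal.ofReal_mul (by positivity)]
      _ ≤ ENNReal.ofReal (e / 2) := by
          apply ENNReal.ofReal_le_ofReal
          rw [mul_div_assoc', div_le_div_iff₀ (by positivity) (by norm_num)]
          have : (0:ℝ) ≤ L' := L'.2
          nlinarith
  calc volume (Phi f' '' A) ≤ volume (Phi f' '' A' ∪ Phi f' '' (A \ A')) := by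
        rw [← image_union, union_sdiff_cancel hA']
    _ ≤ volume (Phi f' '' A') + volume (Phi f' '' (A \ A')) := measure_union_le _ _
    _ ≤ (volume (Phi f '' A') + ENNReal.ofReal (e / 2)) + ENNReal.ofReal (e / 2) :=
        add_le_add ((measure_mono h1).trans h2.le) h3
    _ = volume (Phi f '' A') + ENNReal.ofReal e := by
        rw [add_assoc, ← ENNReal.ofReal_add (by positivity) (by positivity), add_halves]
    _ ≤ volume (Phi f '' A) + ENNReal.ofReal e := by
        gcongr

end Pool.Agent.KS6_47.CR.A2
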