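import Pool.Agent.KS6_47.CR.Stm

set_option autoImplicit false
open MeasureTheory Set Filter Topology
open scoped ENNReal NNReal Real

namespace Pool.Agent.KS6_47.CR.P

open Pool.Agent.KS6_47.CR

theorem union {E F : Set P2} (hE : Poly E) (hF : Poly F) : Poly (E ∪ F) := by
  have h : E ∪ F = (Eᶜ ∩ Fᶜ)ᶜ := by rw [compl_inter, compl_compl, compl_compl]
  rw [h]
  exact (hE.compl.inter hF.compl).compl

theorem univ' : Poly (univ : Set P2) := by
  have h : (univ : Set P2) = {p : P2 | 0 * p.1 + 0 * p.2 ≤ 0} := by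
    ext p; simp
  rw [h]
  exact Poly.half 0 0 0

theorem empty : Poly (∅ : Set P2) := by
  rw [← compl_univ]; exact univ'.compl

theorem meas {E : Set P2} (h : Poly E) : MeasurableSet E := by
  induction h with
  | half a b c =>
    exact measurableSet_le ((measurable_fst.const_mul a).add (measurable_snd.const_mul b))
      measurable_const
  | compl _ ih => exact ih.compl
  | inter _ _ ih1 ih2 => exact ih1.inter ih2

theorem preim_cm (j : ℕ) {E : Set P2} (h : Poly E) : Poly (cm j ⁻¹' E) := by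
  induction h with
  | half a b c =>
    by_cases hp : par j = true
    · have : cm j ⁻¹' {p : P2 | a * p.1 + b * p.2 ≤ c} = {p : P2 | b * p.1 + a * p.2 ≤ c - b * TT j} := by
        ext p
        simp only [mem_preimage, cm, hp, if_true]
        show a * p.2 + b * (p.1 + TT j) ≤ c ↔ b * p.1 + a * p.2 ≤ c - b * TT j
        constructor <;> intro h <;> linarith
      rw [this]
      exact Poly.half _ _ _
    · have : cm j ⁻¹' {p : P2 | a * p.1 + b * p.2 ≤ c} = {p : P2 | a * p.1 + b * p.2 ≤ c - a * TT j} := by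
        ext p
        simp only [mem_preimage, cm, hp]
        show a * (p.1 + TT j) + b * p.2 ≤ c ↔ a * p.1 + b * p.2 ≤ c - a * TT j
        constructor <;> intro h <;> linarith
      rw [this]
      exact Poly.half _ _ _
  | compl _ ih => exact ih.compl
  | inter _ _ ih1 ih2 => exact ih1.inter ih2

theorem preim_ci (j : ℕ) {E : Set P2} (h : Poly E) : Poly (ci j ⁻¹' E) := by
  induction h with
  | half a b c =>
    by_cases hp : par j = true
    · have : ci j ⁻¹' {p : P2 | a * p.1 + b * p.2 ≤ c} = {p : P2 | b * p.1 + a * p.2 ≤ c + a * TT j} := by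
        ext p
        simp only [mem_preimage, ci, hp, if_true]
        show a * (p.2 - TT j) + b * p.1 ≤ c ↔ b * p.1 + a * p.2 ≤ c + a * TT j
        constructor <;> intro h <;> linarith
      rw [this]
      exact Poly.half _ _ _
    · have : ci j ⁻¹' {p : P2 | a * p.1 + b * p.2 ≤ c} = {p : P2 | a * p.1 + b * p.2 ≤ c + a * TT j} := by
        ext p
        simp only [mem_preimage, ci, hp]
        show a * (p.1 - TT j) + b * p.2 ≤ c ↔ a * p.1 + b * p.2 ≤ c + a * TT j
        constructor <;> intro h <;> linarith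
      rw [this]
      exact Poly.half _ _ _
  | compl _ ih => exact ih.compl
  | inter _ _ ih1 ih2 => exact ih1.inter ih2

theorem square : Poly E0 := by
  have h : E0 = ({p : P2 | (-1) * p.1 + 0 * p.2 ≤ 0} ∩ {p : P2 | 1 * p.1 + 0 * p.2 ≤ 1}) ∩
      ({p : P2 | 0 * p.1 + (-1) * p.2 ≤ 0} ∩ {p : P2 | 0 * p.1 + 1 * p.2 ≤ 1}) := by
    ext p
    constructor
    · rintro ⟨⟨h1, h2⟩, ⟨h3, h4⟩⟩
      refine ⟨⟨?_, ?_⟩, ⟨?_, ?_⟩⟩
      · show (-1) * p.1 + 0 * p.2 ≤ 0
        linarith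
      · show 1 * p.1 + 0 * p.2 ≤ 1
        linarith
      · show 0 * p.1 + (-1) * p.2 ≤ 0
        linarith
      · show 0 * p.1 + 1 * p.2 ≤ 1
        linarith
    · rintro ⟨⟨h1, h2⟩, ⟨h3, h4⟩⟩
      have h1' : (-1) * p.1 + 0 * p.2 ≤ 0 := h1
      have h2' : 1 * p.1 + 0 * p.2 ≤ 1 := h2
      have h3' : 0 * p.1 + (-1) * p.2 ≤ 0 := h3
      have h4' : 0 * p.1 + 1 * p.2 ≤ 1 := h4
      exact ⟨⟨by linarith, by linarith⟩, ⟨by linarith, by linarith⟩⟩
  rw [h]
  exact ((Poly.half _ _ _).inter (Poly.half _ _ _)).inter ((Poly.half _ _ _).inter (Poly.half _ _ _))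

theorem p2 : StmPolyOps :=
  ⟨fun _ h => meas h, fun _ _ h1 h2 => union h1 h2, empty, square, fun j _ h => preim_cm j h,
    fun j _ h => preim_ci j h⟩

theorem biUnion {ι : Type} (s : Finset ι) (E : ι → Set P2) (h : ∀ i ∈ s, Poly (E i)) :
    Poly (⋃ i ∈ s, E i) := by
  classical
  induction s using Finset.induction_on with
  | empty => simpa using empty
  | insert a s ha ih =>
    rw [Finset.set_biUnion_insert]
    exact union (h a (Finset.mem_insert_self _ _))
      (ih (fun i hi => h i (Finset.mem_insert_of_mem hi)))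

theorem p1 : StmStPoly := by
  intro u G l Y hG hl hY
  obtain ⟨M, hM⟩ := exists_nat_ge (Y / l + 1)
  have hM' : Y + l ≤ M * l := by
    have : (Y / l + 1) * l ≤ M * l := by gcongr
    rwa [add_mul, div_mul_cancel₀ _ hl.ne', one_mul] at this
  have key : St u G l Y = ⋃ k ∈ Finset.Ico (-(M:ℤ)) M,
      ((({p : P2 | (-1) * p.1 + 0 * p.2 ≤ -u} ∩ {p : P2 | 0 * p.1 + (-1) * p.2 ≤ -((k:ℤ) * l)}) ∩
      ({p : P2 | 0 * p.1 + 1 * p.2 ≤ ((k:ℤ) + 1) * l} ∩
        {p : P2 | 1 * p.1 + (-G) * p.2 ≤ u - G * ((k:ℤ) * l)})) ∩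
      (({p : P2 | 1 * p.1 + G * p.2 ≤ u + G * (((k:ℤ) + 1) * l)} ∩
        {p : P2 | 0 * p.1 + 1 * p.2 ≤ Y}) ∩ {p : P2 | 0 * p.1 + (-1) * p.2 ≤ Y})) := by
    ext p
    simp only [mem_iUnion]
    constructor
    · rintro ⟨⟨h1, h2⟩, h3⟩
      rw [abs_le] at h3
      obtain ⟨k, hk⟩ : ∃ k : ℤ, k = ⌊p.2 / l⌋ := ⟨_, rfl⟩
      have hk1 : (k : ℝ) * l ≤ p.2 := by
        have := Int.floor_le (p.2 / l)
        rw [← hk] at this
        calc (k : ℝ) * l ≤ p.2 / l * l := by gcongr
          _ = p.2 := div_mul_cancel₀ _ hl.ne'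
      have hk2 : p.2 < ((k : ℝ) + 1) * l := by
        have := Int.lt_floor_add_one (p.2 / l)
        rw [← hk] at this
        calc p.2 = p.2 / l * l := (div_mul_cancel₀ _ hl.ne').symm
          _ < ((k : ℝ) + 1) * l := by gcongr
      refine ⟨k, ?_, ?_⟩
      · rw [Finset.mem_Ico]
        constructor
        · have h5 : (-(M:ℝ)) * l < ((k : ℝ) + 1) * l := by nlinarith
          have h6 : (-(M:ℝ)) < (k : ℝ) + 1 := lt_of_mul_lt_mul_right h5 hl.le
          have h7 : (-(M:ℤ)) < k + 1 := by exact_mod_cast h6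
          omega
        · have h5 : (k : ℝ) * l < (M : ℝ) * l := by nlinarith
          have h6 : (k : ℝ) < M := lt_of_mul_lt_mul_right h5 hl.le
          exact_mod_cast h6
      · have a1 := h2 k
        have a2 := h2 (k + 1)
        rw [abs_of_nonneg (by linarith)] at a1
        have a3 : ((k + 1 : ℤ) : ℝ) = (k : ℝ) + 1 := by push_cast; ring
        rw [a3, abs_of_neg (by linarith)] at a2
        refine ⟨⟨⟨?_, ?_⟩, ⟨?_, ?_⟩⟩, ⟨⟨?_, ?_⟩, ?_⟩⟩
        · show (-1) * p.1 + 0 * p.2 ≤ -u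
          linarith
        · show 0 * p.1 + (-1) * p.2 ≤ -((k:ℝ) * l)
          linarith
        · show 0 * p.1 + 1 * p.2 ≤ ((k:ℝ) + 1) * l
          linarith
        · show 1 * p.1 + (-G) * p.2 ≤ u - G * ((k:ℝ) * l)
          nlinarith
        · show 1 * p.1 + G * p.2 ≤ u + G * (((k:ℝ) + 1) * l)
          nlinarith
        · show 0 * p.1 + 1 * p.2 ≤ Y
          linarith [h3.2]
        · show 0 * p.1 + (-1) * p.2 ≤ Y
          linarith [h3.1]
    · rintro ⟨k, hk, ⟨⟨b1, b2⟩, ⟨b3, b4⟩⟩, ⟨⟨b5, b6⟩, b7⟩⟩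
      have b1' : (-1) * p.1 + 0 * p.2 ≤ -u := b1
      have b2' : 0 * p.1 + (-1) * p.2 ≤ -((k:ℝ) * l) := b2
      have b3' : 0 * p.1 + 1 * p.2 ≤ ((k:ℝ) + 1) * l := b3
      have b4' : 1 * p.1 + (-G) * p.2 ≤ u - G * ((k:ℝ) * l) := b4
      have b5' : 1 * p.1 + G * p.2 ≤ u + G * (((k:ℝ) + 1) * l) := b5
      have b6' : 0 * p.1 + 1 * p.2 ≤ Y := b6
      have b7' : 0 * p.1 + (-1) * p.2 ≤ Y := b7
      refine ⟨⟨by linarith, ?_⟩, ?_⟩
      · intro k'
        rcases le_or_gt k' k with h | h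
        · have h1 : (k' : ℝ) ≤ k := by exact_mod_cast h
          have h2 : (k' : ℝ) * l ≤ k * l := by gcongr
          rw [abs_of_nonneg (by linarith)]
          nlinarith
        · have h1 : (k : ℝ) + 1 ≤ k' := by exact_mod_cast h
          have h2 : ((k : ℝ) + 1) * l ≤ k' * l := by gcongr
          rw [abs_of_nonpos (by linarith)]
          nlinarith
      · rw [abs_le]
        constructor <;> linarith
  rw [key]
  refine biUnion _ _ (fun k _ => ?_)
  exact (((Poly.half _ _ _).inter (Poly.half _ _ _)).inter ((Poly.half _ _ _).inter (Poly.half _ _ _))).inter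
    (((Poly.half _ _ _).inter (Poly.half _ _ _)).inter (Poly.half _ _ _))

end Pool.Agent.KS6_47.CR.P
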