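import Pool.Agent.KS6_47.CR.D2
import Pool.Agent.KS6_47.CR.P

set_option autoImplicit false
open MeasureTheory Set Filter Topology
open scoped ENNReal NNReal Real

namespace Pool.Agent.KS6_47.CR.AP2

theorem rect (a b c d : ℝ) : Poly (Icc a b ×ˢ Icc c d) := by
  have h : (Icc a b ×ˢ Icc c d : Set P2) =
      ({p : P2 | (-1) * p.1 + 0 * p.2 ≤ -a} ∩ {p : P2 | 1 * p.1 + 0 * p.2 ≤ b}) ∩
      ({p : P2 | 0 * p.1 + (-1) * p.2 ≤ -c} ∩ {p : P2 | 0 * p.1 + 1 * p.2 ≤ d}) := by
    ext p
    constructor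
    · rintro ⟨⟨h1, h2⟩, ⟨h3, h4⟩⟩
      refine ⟨⟨?_, ?_⟩, ⟨?_, ?_⟩⟩
      · show (-1) * p.1 + 0 * p.2 ≤ -a
        linarith
      · show 1 * p.1 + 0 * p.2 ≤ b
        linarith
      · show 0 * p.1 + (-1) * p.2 ≤ -c
        linarith
      · show 0 * p.1 + 1 * p.2 ≤ d
        linarith
    · rintro ⟨⟨h1, h2⟩, ⟨h3, h4⟩⟩
      have h1' : (-1) * p.1 + 0 * p.2 ≤ -a := h1
      have h2' : 1 * p.1 + 0 * p.2 ≤ b := h2
      have h3' : 0 * p.1 + (-1) * p.2 ≤ -c := h3
      have h4' : 0 * p.1 + 1 * p.2 ≤ d := h4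
      exact ⟨⟨by linarith, by linarith⟩, ⟨by linarith, by linarith⟩⟩
  rw [h]
  exact ((Poly.half _ _ _).inter (Poly.half _ _ _)).inter ((Poly.half _ _ _).inter (Poly.half _ _ _))

theorem gen : (inferInstance : MeasurableSpace P2) =
    MeasurableSpace.generateFrom {s : Set P2 | Poly s} := by
  apply le_antisymm
  · show (MeasurableSpace.comap Prod.fst inferInstance) ⊔
      (MeasurableSpace.comap Prod.snd inferInstance) ≤ _
    have hb : (inferInstance : MeasurableSpace ℝ) =
        MeasurableSpace.generateFrom (range (Iic : ℝ → Set ℝ)) := by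
      rw [← borel_eq_generateFrom_Iic]
      exact BorelSpace.measurable_eq
    refine sup_le ?_ ?_
    · rw [hb, MeasurableSpace.comap_generateFrom]
      apply MeasurableSpace.generateFrom_mono
      rintro s ⟨-, ⟨c, rfl⟩, rfl⟩
      have h : (Prod.fst ⁻¹' Iic c : Set P2) = {p : P2 | 1 * p.1 + 0 * p.2 ≤ c} := by
        ext p
        simp
      show Poly _
      rw [h]
      exact Poly.half _ _ _
    · rw [hb, MeasurableSpace.comap_generateFrom]
      apply MeasurableSpace.generateFrom_mono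
      rintro s ⟨-, ⟨c, rfl⟩, rfl⟩
      have h : (Prod.snd ⁻¹' Iic c : Set P2) = {p : P2 | 0 * p.1 + 1 * p.2 ≤ c} := by
        ext p
        simp
      show Poly _
      rw [h]
      exact Poly.half _ _ _
  · exact MeasurableSpace.generateFrom_le fun s hs => P.meas hs

theorem alg : IsSetAlgebra {s : Set P2 | Poly s} where
  empty_mem := P.empty
  compl_mem := fun _ h => Poly.compl h
  union_mem := fun _ _ h1 h2 => P.union h1 h2

/-- polygonal sets are dense in the measure algebra -/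
theorem approx (F : Set P2) (hF : MeasurableSet F) (hfin : volume F ≠ ⊤) (ε : ℝ) (hε : 0 < ε) :
    ∃ A : Set P2, Poly A ∧ Bornology.IsBounded A ∧ volume (symmDiff F A) < ENNReal.ofReal ε := by
  set box : ℕ → Set P2 := fun n => Icc (-(n:ℝ)) n ×ˢ Icc (-(n:ℝ)) n with hbox
  have hboxm : ∀ n, MeasurableSet (box n) := fun n => measurableSet_Icc.prod measurableSet_Icc
  have hboxb : ∀ n, Bornology.IsBounded (box n) := fun n =>
    (isCompact_Icc.prod isCompact_Icc).isBounded
  have hanti : Antitone fun n => F \ box n := by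
    intro a b hab p hp
    refine ⟨hp.1, fun h => hp.2 ?_⟩
    have hab' : (a:ℝ) ≤ b := by exact_mod_cast hab
    obtain ⟨⟨h1, h2⟩, ⟨h3, h4⟩⟩ := h
    exact ⟨⟨by linarith, by linarith⟩, ⟨by linarith, by linarith⟩⟩
  have hempty : ⋂ n, F \ box n = ∅ := by
    apply Set.eq_empty_of_forall_notMem
    intro p hp
    rw [mem_iInter] at hp
    obtain ⟨n, hn⟩ := exists_nat_ge (max |p.1| |p.2|)
    apply (hp n).2
    exact ⟨abs_le.1 ((le_max_left _ _).trans hn), abs_le.1 ((le_max_right _ _).trans hn)⟩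
  have htend := tendsto_measure_iInter_atTop (μ := volume)
    (fun n => (hF.diff (hboxm n)).nullMeasurableSet) hanti
    ⟨0, ne_top_of_le_ne_top hfin (measure_mono sdiff_subset)⟩
  rw [hempty, measure_empty] at htend
  have hev : ∀ᶠ n in atTop, volume (F \ box n) < ENNReal.ofReal (ε / 2) :=
    htend.eventually_lt_const (ENNReal.ofReal_pos.2 (by positivity))
  obtain ⟨n, hn⟩ := hev.exists
  have hfm : IsFiniteMeasure (volume.restrict (box n)) :=
    ⟨by rw [Measure.restrict_apply_univ]; exact (hboxb n).measure_lt_top⟩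
  obtain ⟨t, ht, htv⟩ := (Measure.MeasureDense.of_generateFrom_isSetAlgebra_finite
    (μ := volume.restrict (box n)) alg gen).approx F hF (measure_ne_top _ _) (ε / 2) (by positivity)
  have htm : MeasurableSet t := P.meas ht
  rw [Measure.restrict_apply (hF.symmDiff htm)] at htv
  refine ⟨t ∩ box n, Poly.inter ht (rect _ _ _ _), (hboxb n).subset inter_subset_right, ?_⟩
  have hsub : symmDiff F (t ∩ box n) ⊆ (F \ box n) ∪ (symmDiff F t ∩ box n) := by
    rintro p (⟨h1, h2⟩ | ⟨h1, h2⟩)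
    · by_cases hb : p ∈ box n
      · exact Or.inr ⟨Or.inl ⟨h1, fun h => h2 ⟨h, hb⟩⟩, hb⟩
      · exact Or.inl ⟨h1, hb⟩
    · exact Or.inr ⟨Or.inr ⟨h1.1, h2⟩, h1.2⟩
  calc volume (symmDiff F (t ∩ box n)) ≤ volume (F \ box n) + volume (symmDiff F t ∩ box n) :=
        (measure_mono hsub).trans (measure_union_le _ _)
    _ < ENNReal.ofReal (ε / 2) + ENNReal.ofReal (ε / 2) := ENNReal.add_lt_add hn htv
    _ = ENNReal.ofReal ε := by
        rw [← ENNReal.ofReal_add (by positivity) (by positivity), add_halves]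

end Pool.Agent.KS6_47.CR.AP2
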