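import Pool.Agent.KS6_47.CR.Stm

set_option autoImplicit false
open MeasureTheory Set Filter Topology
open scoped ENNReal NNReal Real

namespace Pool.Agent.KS6_47.CR.AS

open Pool.Agent.KS6_47.CR

theorem Yn_succ (f : P2 → ℝ) (u : ℕ → ℝ) (G : ℝ) (s : ℕ → ℕ) (n : ℕ) (x : ℝ) (z : P2) :
    Yn f u G s (n + 1) x z = Yn f u G s n x z + xi (u n) G (1 / ((s n : ℝ) + 1)) z * (u n - x) := by
  unfold Yn
  rw [Finset.sum_range_succ]
  ring

theorem Yn_meas (hxi : StmXi) (f : P2 → ℝ) (u : ℕ → ℝ) (G : ℝ) (s : ℕ → ℕ) (hG : 0 < G)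
    (hG' : G ≤ 1 / 16) (n : ℕ) (x : ℝ) : Measurable (Yn f u G s n x) := by
  unfold Yn
  refine (measurable_fderiv_apply_const ℝ f (1, -x)).add ?_
  refine Finset.measurable_sum _ (fun i _ => ?_)
  exact (hxi (u i) G (1 / ((s i : ℝ) + 1)) hG hG' (by positivity)).1.mul_const _

theorem Y0_bound (f : P2 → ℝ) (L : ℝ≥0) (hf : LipschitzWith L f) (u : ℕ → ℝ) (G : ℝ) (s : ℕ → ℕ)
    (x : ℝ) (hx : x ∈ Icc (0:ℝ) 1) (z : P2) : |Yn f u G s 0 x z| ≤ L := by
  unfold Yn
  simp only [Finset.range_zero, Finset.sum_empty, add_zero]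
  have h1 : ‖fderiv ℝ f z‖ ≤ L := norm_fderiv_le_of_lipschitz ℝ hf
  have h2 : ‖((1:ℝ), -x)‖ ≤ 1 := by
    rw [Prod.norm_def]
    simp only [norm_one, norm_neg, Real.norm_eq_abs, sup_le_iff, le_refl, true_and]
    rw [abs_of_nonneg hx.1]
    exact hx.2
  calc |fderiv ℝ f z (1, -x)| = ‖fderiv ℝ f z (1, -x)‖ := (Real.norm_eq_abs _).symm
    _ ≤ ‖fderiv ℝ f z‖ * ‖((1:ℝ), -x)‖ := ContinuousLinearMap.le_opNorm _ _
    _ ≤ L * 1 := by gcongr
    _ = L := mul_one _

/-- the bound for one interval and one sign -/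
theorem one (hxi : StmXi) (hkill : StmKill) (f : P2 → ℝ) (L : ℝ≥0) (β G e : ℝ) (K : Set P2)
    (u : ℕ → ℝ) (s : ℕ → ℕ) (m p r : ℕ) (hf : LipschitzWith L f) (hK : IsCompact K)
    (hKs : K ⊆ Icc (-1:ℝ) 1 ×ˢ Icc (-β) β) (hβ : 0 ≤ β) (hG : 0 < G) (hG' : G ≤ 1 / 16)
    (he : 0 < e) (hu : ∀ n, u n ∈ Icc (0:ℝ) 1)
    (hs : ∀ n < m, StepOK f u G K e s n) (k : ℕ) (hk : k < 10) (sg : ℝ) (hsg : sg = 1 ∨ sg = -1)
    (hpr : p + r ≤ m) (hr : 0 < r) (σ : ℝ) (hσ : 0 ≤ σ)
    (hblock : ∀ n, p ≤ n → n < p + r → (u n - (k : ℝ) / 10) * (u n - ((k : ℝ) + 1) / 10) ≤ -(3 / 1600) ∧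
      |(u n - (k : ℝ) / 10) + (u n - ((k : ℝ) + 1) / 10)| ≤ σ)
    (hσr : 2 * G * σ * r ≤ 1) (hre : r * e ≤ 1) :
    sg * ∫ z in Alv f u G s K k sg m,
      (Yn f u G s m ((k : ℝ) / 10) z + Yn f u G s m (((k : ℝ) + 1) / 10) z) ≤
      (2 * ((L : ℝ) + 2 * G * p) + 1) *
        (4 * (((L : ℝ) + 2 * G * p) ^ 2 * (4 * β) + 1) / ((3 / 1600) * G ^ 2 * r)) + 2 * m * e := by
  have hsg2 : sg * sg = 1 := by rcases hsg with h | h <;> rw [h] <;> norm_num
  have hsga : |sg| = 1 := by rcases hsg with h | h <;> rw [h] <;> norm_num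
  have hk9 : (k : ℝ) ≤ 9 := by exact_mod_cast Nat.lt_succ_iff.1 hk
  have hk0 : (0 : ℝ) ≤ k := Nat.cast_nonneg k
  have hx1 : (k : ℝ) / 10 ∈ Icc (0:ℝ) 1 := ⟨by positivity, by linarith⟩
  have hx2 : ((k : ℝ) + 1) / 10 ∈ Icc (0:ℝ) 1 := ⟨by positivity, by linarith⟩
  have hKm : MeasurableSet K := hK.measurableSet
  haveI : IsFiniteMeasure (volume.restrict K) := ⟨by
    rw [Measure.restrict_apply_univ]; exact hK.measure_lt_top⟩
  have hl : ∀ n, (0:ℝ) < 1 / ((s n : ℝ) + 1) := fun n => by positivity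
  have hmY : ∀ n x, Measurable (Yn f u G s n x) := fun n x => Yn_meas hxi f u G s hG hG' n x
  have hAL : ∀ n, AL G (fun n z => sg * Yn f u G s n ((k : ℝ) / 10) z)
      (fun n z => sg * Yn f u G s n (((k : ℝ) + 1) / 10) z) n ∩ K = Alv f u G s K k sg n := by
    intro n
    ext z
    constructor
    · rintro ⟨h1, h2⟩
      exact ⟨h2, h1⟩
    · rintro ⟨h1, h2⟩
      exact ⟨h2, h1⟩
  have hALm : ∀ n, MeasurableSet (AL G (fun n z => sg * Yn f u G s n ((k : ℝ) / 10) z)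
      (fun n z => sg * Yn f u G s n (((k : ℝ) + 1) / 10) z) n) := by
    intro n
    have : AL G (fun n z => sg * Yn f u G s n ((k : ℝ) / 10) z)
      (fun n z => sg * Yn f u G s n (((k : ℝ) + 1) / 10) z) n =
      ⋂ j ∈ Finset.range (n + 1), ({z | 3 * G < sg * Yn f u G s j ((k : ℝ) / 10) z} ∩
        {z | 3 * G < sg * Yn f u G s j (((k : ℝ) + 1) / 10) z}) := by
      ext z
      simp only [AL, mem_iInter, Finset.mem_range, Nat.lt_succ_iff]
      rfl
    rw [this]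
    refine Finset.measurableSet_biInter _ (fun j _ => ?_)
    exact (measurableSet_lt measurable_const ((hmY j _).const_mul sg)).inter
      (measurableSet_lt measurable_const ((hmY j _).const_mul sg))
  have hrestr : ∀ n, (volume.restrict K).restrict (AL G (fun n z => sg * Yn f u G s n ((k : ℝ) / 10) z)
      (fun n z => sg * Yn f u G s n (((k : ℝ) + 1) / 10) z) n) =
      volume.restrict (Alv f u G s K k sg n) := by
    intro n
    rw [Measure.restrict_restrict (hALm n), hAL n]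
  have key := hkill P2 (volume.restrict K) G L ((L : ℝ) + 2 * G * p) e (3 / 1600) σ m p r
    (fun n z => sg * Yn f u G s n ((k : ℝ) / 10) z)
    (fun n z => sg * Yn f u G s n (((k : ℝ) + 1) / 10) z)
    (fun n z => sg * xi (u n) G (1 / ((s n : ℝ) + 1)) z)
    (fun n => u n - (k : ℝ) / 10) (fun n => u n - ((k : ℝ) + 1) / 10)
    hG L.2 he.le (by norm_num) hσ rfl
    (fun n => (hmY n _).const_mul sg) (fun n => (hmY n _).const_mul sg)
    (fun n => (hxi (u n) G _ hG hG' (hl n)).1.const_mul sg)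
    (fun n z => by
      show G / 2 ≤ |sg * xi (u n) G (1 / ((s n : ℝ) + 1)) z|
      rw [abs_mul, hsga, one_mul]; exact ((hxi (u n) G _ hG hG' (hl n)).2 z).1)
    (fun n z => by
      show |sg * xi (u n) G (1 / ((s n : ℝ) + 1)) z| ≤ 2 * G
      rw [abs_mul, hsga, one_mul]; exact ((hxi (u n) G _ hG hG' (hl n)).2 z).2)
    (fun n => by
      have := hu n
      rw [abs_le]; constructor <;> linarith [this.1, this.2, hx1.1, hx1.2])
    (fun n => by
      have := hu n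
      rw [abs_le]; constructor <;> linarith [this.1, this.2, hx2.1, hx2.2])
    (fun n z => by
      show sg * Yn f u G s (n + 1) ((k : ℝ) / 10) z = _
      rw [Yn_succ]; ring)
    (fun n z => by
      show sg * Yn f u G s (n + 1) (((k : ℝ) + 1) / 10) z = _
      rw [Yn_succ]; ring)
    (fun z => by
      show |sg * Yn f u G s 0 ((k : ℝ) / 10) z| ≤ L
      rw [abs_mul, hsga, one_mul]; exact Y0_bound f L hf u G s _ hx1 z)
    (fun z => by
      show |sg * Yn f u G s 0 (((k : ℝ) + 1) / 10) z| ≤ L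
      rw [abs_mul, hsga, one_mul]; exact Y0_bound f L hf u G s _ hx2 z)
    (fun n hn => by
      rw [hrestr n, integral_const_mul, abs_mul, hsga, one_mul]
      exact (hs n hn).weak1 k hk sg hsg)
    (fun n hn => by
      rw [hrestr n]
      have : (fun z => sg * xi (u n) G (1 / ((s n : ℝ) + 1)) z *
          ((u n - ((k : ℝ) + 1) / 10) * (sg * Yn f u G s n ((k : ℝ) / 10) z) +
            (u n - (k : ℝ) / 10) * (sg * Yn f u G s n (((k : ℝ) + 1) / 10) z))) =
          fun z => xi (u n) G (1 / ((s n : ℝ) + 1)) z *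
      ((u n - ((k : ℝ) + 1) / 10) * Yn f u G s n ((k : ℝ) / 10) z +
        (u n - (k : ℝ) / 10) * Yn f u G s n (((k : ℝ) + 1) / 10) z) := by
        funext z
        linear_combination (xi (u n) G (1 / ((s n : ℝ) + 1)) z *
      ((u n - ((k : ℝ) + 1) / 10) * Yn f u G s n ((k : ℝ) / 10) z +
        (u n - (k : ℝ) / 10) * Yn f u G s n (((k : ℝ) + 1) / 10) z)) * hsg2
      show |∫ z, (fun z => sg * xi (u n) G (1 / ((s n : ℝ) + 1)) z *
          ((u n - ((k : ℝ) + 1) / 10) * (sg * Yn f u G s n ((k : ℝ) / 10) z) +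
            (u n - (k : ℝ) / 10) * (sg * Yn f u G s n (((k : ℝ) + 1) / 10) z))) z
            ∂(volume.restrict (Alv f u G s K k sg n))| ≤ e
      rw [this]
      exact (hs n hn).weak2 k hk sg hsg)
    hpr hr hblock hσr
  rw [hrestr m] at key
  have hmu : (volume.restrict K).real univ ≤ 4 * β := by
    rw [Measure.real, Measure.restrict_apply_univ]
    have h1 : volume K ≤ volume (Icc (-1:ℝ) 1 ×ˢ Icc (-β) β) := measure_mono hKs
    have h2 : volume (Icc (-1:ℝ) 1 ×ˢ Icc (-β) β) = ENNReal.ofReal (4 * β) := by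
      rw [Measure.volume_eq_prod, Measure.prod_prod, Real.volume_Icc, Real.volume_Icc,
        ← ENNReal.ofReal_mul (by norm_num)]
      congr 1
      ring
    rw [h2] at h1
    exact ENNReal.toReal_le_of_le_ofReal (by positivity) h1
  have hLM : (0:ℝ) ≤ (L : ℝ) + 2 * G * p := by positivity
  have hrpos : (0:ℝ) < r := by exact_mod_cast hr
  calc sg * ∫ z in Alv f u G s K k sg m,
      (Yn f u G s m ((k : ℝ) / 10) z + Yn f u G s m (((k : ℝ) + 1) / 10) z)
      = ∫ z in Alv f u G s K k sg m, (sg * Yn f u G s m ((k : ℝ) / 10) z +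
        sg * Yn f u G s m (((k : ℝ) + 1) / 10) z) := by
        rw [← integral_const_mul]
        congr 1
        funext z
        ring
    _ ≤ _ := key
    _ ≤ _ := by
        gcongr

theorem as1 (hxi : StmXi) (hrec : StmRec) (hcost : StmCost) (hkill : StmKill) : StmAS := by
  intro f L β ε ζ K hf hK hβ hKs hε hζ
  obtain ⟨G, hG⟩ : ∃ G, G = min (1 / 16 : ℝ) (ε / (60 * (β + 1))) := ⟨_, rfl⟩
  have hG0 : 0 < G := by rw [hG]; positivity
  have hG16 : G ≤ 1 / 16 := by rw [hG]; exact min_le_left _ _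
  have hGβ : 12 * G * β ≤ ε / 4 := by
    have h1 : G ≤ ε / (60 * (β + 1)) := by rw [hG]; exact min_le_right _ _
    calc 12 * G * β ≤ 12 * (ε / (60 * (β + 1))) * β := by gcongr
      _ = (ε / 5) * (β / (β + 1)) := by field_simp; ring
      _ ≤ (ε / 5) * 1 := by
        gcongr
        rw [div_le_one (by positivity)]
        linarith
      _ ≤ ε / 4 := by linarith
  -- block lengths
  have hR : ∀ P : ℕ, ∃ r : ℕ, 0 < r ∧ (2 * ((L : ℝ) + 2 * G * P) + 1) *
        (4 * (((L : ℝ) + 2 * G * P) ^ 2 * (4 * β) + 1) / ((3 / 1600) * G ^ 2 * r)) ≤ ε / 1760 := by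
    intro P
    obtain ⟨r, hr⟩ := exists_nat_ge ((2 * ((L : ℝ) + 2 * G * P) + 1) *
        (4 * (((L : ℝ) + 2 * G * P) ^ 2 * (4 * β) + 1)) / ((3 / 1600) * G ^ 2) * (1760 / ε) + 1)
    have hr1 : (1:ℝ) ≤ r := by
      refine le_trans ?_ hr
      have : (0:ℝ) ≤ (2 * ((L : ℝ) + 2 * G * P) + 1) *
        (4 * (((L : ℝ) + 2 * G * P) ^ 2 * (4 * β) + 1)) / ((3 / 1600) * G ^ 2) * (1760 / ε) := by
        positivity
      linarith
    have hr0 : 0 < r := by
      rcases Nat.eq_zero_or_pos r with h | h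
      · rw [h] at hr1; norm_num at hr1
      · exact h
    refine ⟨r, hr0, ?_⟩
    have hrpos : (0:ℝ) < r := by linarith
    have h2 : (2 * ((L : ℝ) + 2 * G * P) + 1) *
        (4 * (((L : ℝ) + 2 * G * P) ^ 2 * (4 * β) + 1)) / ((3 / 1600) * G ^ 2) * (1760 / ε) ≤ r := by
      linarith
    calc (2 * ((L : ℝ) + 2 * G * P) + 1) *
        (4 * (((L : ℝ) + 2 * G * P) ^ 2 * (4 * β) + 1) / ((3 / 1600) * G ^ 2 * r))
        = ((2 * ((L : ℝ) + 2 * G * P) + 1) *
        (4 * (((L : ℝ) + 2 * G * P) ^ 2 * (4 * β) + 1)) / ((3 / 1600) * G ^ 2) * (1760 / ε)) *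
          (ε / 1760 / r) := by
          field_simp
      _ ≤ r * (ε / 1760 / r) := by gcongr
      _ = ε / 1760 := by field_simp
  choose R hR0 hR1 using hR
  obtain ⟨p, hp0, hps⟩ : ∃ p : ℕ → ℕ, p 0 = 0 ∧ ∀ k, p (k + 1) = p k + R (p k) :=
    ⟨fun k => Nat.rec 0 (fun _ q => q + R q) k, rfl, fun k => rfl⟩
  have hpmono : StrictMono p := strictMono_nat_of_lt_succ (fun k => by
    rw [hps]; have := hR0 (p k); omega)
  obtain ⟨m, hm⟩ : ∃ m, m = p 10 := ⟨_, rfl⟩
  obtain ⟨s0, hs0⟩ : ∃ s0 : ℝ, s0 = min ζ (min (1 / 80) (1 / (4 * G * (m + 1)))) / 2 := ⟨_, rfl⟩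
  have hs0pos : 0 < s0 := by rw [hs0]; positivity
  have hs0ζ : s0 < ζ := by
    have : s0 ≤ ζ / 2 := by rw [hs0]; gcongr; exact min_le_left _ _
    linarith
  have hs080 : s0 ≤ 1 / 80 := by
    have : s0 ≤ (1 / 80) / 2 := by
      rw [hs0]; gcongr; exact (min_le_right _ _).trans (min_le_left _ _)
    linarith
  have hs0G : 4 * G * s0 * (m + 1) ≤ 1 := by
    have h1 : s0 ≤ (1 / (4 * G * (m + 1))) / 2 := by
      rw [hs0]; gcongr; exact (min_le_right _ _).trans (min_le_right _ _)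
    have h2 : (1 / (4 * G * (m + 1))) / 2 ≤ 1 / (4 * G * (m + 1)) := by
      have : (0:ℝ) ≤ 1 / (4 * G * (m + 1)) := by positivity
      linarith
    calc 4 * G * s0 * (m + 1) ≤ 4 * G * (1 / (4 * G * (m + 1))) * (m + 1) := by
          gcongr; linarith
      _ = 1 := by field_simp
  -- block index
  obtain ⟨kk, hkk⟩ : ∃ kk : ℕ → ℕ, kk = fun n => Nat.findGreatest (fun k => p k ≤ n) 9 := ⟨_, rfl⟩
  have hkk9 : ∀ n, kk n ≤ 9 := fun n => by rw [hkk]; exact Nat.findGreatest_le 9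
  have hkkb : ∀ k ≤ 9, ∀ n, p k ≤ n → n < p (k + 1) → kk n = k := by
    intro k hk n h1 h2
    rw [hkk]
    apply le_antisymm
    · by_contra hcon
      push Not at hcon
      have h3 : p (Nat.findGreatest (fun k => p k ≤ n) 9) ≤ n :=
        Nat.findGreatest_spec (P := fun k => p k ≤ n) hk h1
      have h4 : p (k + 1) ≤ p (Nat.findGreatest (fun k => p k ≤ n) 9) := hpmono.monotone hcon
      omega
    · exact Nat.le_findGreatest hk h1
  obtain ⟨u, hu⟩ : ∃ u : ℕ → ℝ, u = fun n => (2 * (kk n : ℝ) + 1) / 20 + s0 / ((n : ℝ) + 1) := ⟨_, rfl⟩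
  have hfrac : ∀ n : ℕ, 0 < s0 / ((n : ℝ) + 1) ∧ s0 / ((n : ℝ) + 1) ≤ s0 := by
    intro n
    refine ⟨by positivity, ?_⟩
    rw [div_le_iff₀ (by positivity)]
    have : (0:ℝ) ≤ n := Nat.cast_nonneg n
    nlinarith
  have hucol : ∀ n, u n ∈ col ζ := by
    intro n
    rw [hu]
    refine ⟨kk n, ?_, ?_, ?_⟩
    · have := hkk9 n; omega
    · show (2 * (kk n : ℝ) + 1) / 20 < (2 * (kk n : ℝ) + 1) / 20 + s0 / ((n : ℝ) + 1)
      linarith [(hfrac n).1]
    · show (2 * (kk n : ℝ) + 1) / 20 + s0 / ((n : ℝ) + 1) < (2 * (kk n : ℝ) + 1) / 20 + ζ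
      linarith [(hfrac n).2]
  have huI : ∀ n, u n ∈ Icc (0:ℝ) 1 := by
    intro n
    rw [hu]
    have h1 : (kk n : ℝ) ≤ 9 := by exact_mod_cast hkk9 n
    have h2 : (0:ℝ) ≤ kk n := Nat.cast_nonneg _
    have := hfrac n
    constructor
    · show 0 ≤ (2 * (kk n : ℝ) + 1) / 20 + s0 / ((n : ℝ) + 1)
      linarith
    · show (2 * (kk n : ℝ) + 1) / 20 + s0 / ((n : ℝ) + 1) ≤ 1
      linarith
  have hudist : ∀ n n', n ≠ n' → u n ≠ u n' := by
    intro n n' hne heq
    rw [hu] at heq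
    have heq' : (2 * (kk n : ℝ) + 1) / 20 + s0 / ((n : ℝ) + 1) =
      (2 * (kk n' : ℝ) + 1) / 20 + s0 / ((n' : ℝ) + 1) := heq
    have h1 := hfrac n
    have h2 := hfrac n'
    by_cases hk : kk n = kk n'
    · rw [hk] at heq'
      have h3 : s0 / ((n : ℝ) + 1) = s0 / ((n' : ℝ) + 1) := by linarith
      rw [div_eq_div_iff (by positivity) (by positivity)] at h3
      have h4 : (n' : ℝ) + 1 = (n : ℝ) + 1 := mul_left_cancel₀ hs0pos.ne' h3
      apply hne
      have h5 : (n' : ℝ) = n := by linarith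
      exact_mod_cast h5.symm
    · rcases Nat.lt_or_gt_of_ne hk with h | h
      · have h3 : (kk n : ℝ) + 1 ≤ kk n' := by exact_mod_cast h
        linarith
      · have h3 : (kk n' : ℝ) + 1 ≤ kk n := by exact_mod_cast h
        linarith
  refine ⟨G, m, u, hG0, hG16, huI, fun n _ => hucol n, fun n _ n' _ h => hudist n n' h, ?_⟩
  intro ρ hρ
  -- the error
  obtain ⟨D, hD⟩ : ∃ D : ℝ, D = ((m : ℝ) + 1) ^ 2 + 8 * (m + 1) * β + 1 + 880 * m := ⟨_, rfl⟩
  have hDpos : 0 < D := by rw [hD]; positivity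
  obtain ⟨e, he⟩ : ∃ e : ℝ, e = min (min 1 ρ) (min (ε / (4 * D)) (1 / ((m : ℝ) + 1))) := ⟨_, rfl⟩
  have he0 : 0 < e := by rw [he]; positivity
  have he1 : e ≤ 1 := by rw [he]; exact (min_le_left _ _).trans (min_le_left _ _)
  have heρ : e ≤ ρ := by rw [he]; exact (min_le_left _ _).trans (min_le_right _ _)
  have heD : D * e ≤ ε / 4 := by
    have : e ≤ ε / (4 * D) := by rw [he]; exact (min_le_right _ _).trans (min_le_left _ _)
    calc D * e ≤ D * (ε / (4 * D)) := by gcongr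
      _ = ε / 4 := by field_simp
  have hem : (m + 1 : ℝ) * e ≤ 1 := by
    have : e ≤ 1 / ((m : ℝ) + 1) := by
      rw [he]; exact (min_le_right _ _).trans (min_le_right _ _)
    calc (m + 1 : ℝ) * e ≤ (m + 1) * (1 / ((m : ℝ) + 1)) := by gcongr
      _ = 1 := by field_simp
  obtain ⟨s, hs⟩ := hrec f L β G e K u hf hK hKs hG0 hG16 he0 huI
  refine ⟨s, fun n _ => lt_of_lt_of_le (hs n).small heρ, ?_⟩
  obtain ⟨U, hUo, hUv, hUc⟩ := hcost f L β G e K u s m hf hK hKs hβ.le hG0 hG16 he0 he1 huI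
    (fun n _ => hs n)
  refine ⟨U, hUo, hUv.trans (ENNReal.ofReal_le_ofReal ?_), hUc⟩
  -- bound for each interval and sign
  have hone : ∀ k < 10, ∀ sg : ℝ, (sg = 1 ∨ sg = -1) →
      sg * ∫ z in Alv f u G s K k sg m,
      (Yn f u G s m ((k : ℝ) / 10) z + Yn f u G s m (((k : ℝ) + 1) / 10) z) ≤
      ε / 1760 + 2 * m * e := by
    intro k hk sg hsg
    have hk9 : k ≤ 9 := by omega
    have hpr : p k + R (p k) ≤ m := by
      rw [← hps, hm]; exact hpmono.monotone (by omega)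
    have hrm : (R (p k) : ℝ) ≤ m + 1 := by
      have : R (p k) ≤ m + 1 := by omega
      exact_mod_cast this
    refine (one hxi hkill f L β G e K u s m (p k) (R (p k)) hf hK hKs hβ.le hG0 hG16 he0 huI
      (fun n _ => hs n) k hk sg hsg hpr (hR0 (p k)) (2 * s0) (by positivity) ?_ ?_ ?_).trans ?_
    · intro n h1 h2
      have hkn : kk n = k := hkkb k hk9 n h1 (by rw [hps]; exact h2)
      have hun : u n = (2 * (k : ℝ) + 1) / 20 + s0 / ((n : ℝ) + 1) := by
        rw [hu]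
        show (2 * (kk n : ℝ) + 1) / 20 + s0 / ((n : ℝ) + 1) = _
        rw [hkn]
      obtain ⟨t, ht⟩ : ∃ t, t = s0 / ((n : ℝ) + 1) := ⟨_, rfl⟩
      have ht1 := (hfrac n).1
      have ht2 := (hfrac n).2
      rw [← ht] at ht1 ht2 hun
      rw [hun]
      constructor
      · have h3 : ((2 * (k : ℝ) + 1) / 20 + t - (k : ℝ) / 10) *
            ((2 * (k : ℝ) + 1) / 20 + t - ((k : ℝ) + 1) / 10) = -(1 / 400 - t ^ 2) := by ring
        rw [h3]
        nlinarith
      · have h3 : ((2 * (k : ℝ) + 1) / 20 + t - (k : ℝ) / 10) +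
            ((2 * (k : ℝ) + 1) / 20 + t - ((k : ℝ) + 1) / 10) = 2 * t := by ring
        rw [h3, abs_of_pos (by linarith)]
        linarith
    · calc 2 * G * (2 * s0) * (R (p k) : ℝ) ≤ 2 * G * (2 * s0) * (m + 1) := by gcongr
        _ = 4 * G * s0 * (m + 1) := by ring
        _ ≤ 1 := hs0G
    · calc (R (p k) : ℝ) * e ≤ (m + 1) * e := by gcongr
        _ ≤ 1 := hem
    · gcongr
      exact hR1 (p k)
  have hsum1 : ∑ k ∈ Finset.range 10,
          (22 * ∫ z in Alv f u G s K k 1 m,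
            (Yn f u G s m ((k : ℝ) / 10) z + Yn f u G s m (((k : ℝ) + 1) / 10) z)) ≤
      ∑ k ∈ Finset.range 10, (22 * (ε / 1760 + 2 * m * e)) := by
    refine Finset.sum_le_sum (fun k hk => ?_)
    have := hone k (Finset.mem_range.1 hk) 1 (Or.inl rfl)
    rw [one_mul] at this
    gcongr
  have hsum2 : ∑ k ∈ Finset.range 10,
          (22 * (-(∫ z in Alv f u G s K k (-1) m,
            (Yn f u G s m ((k : ℝ) / 10) z + Yn f u G s m (((k : ℝ) + 1) / 10) z)))) ≤
      ∑ k ∈ Finset.range 10, (22 * (ε / 1760 + 2 * m * e)) := by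
    refine Finset.sum_le_sum (fun k hk => ?_)
    have := hone k (Finset.mem_range.1 hk) (-1) (Or.inr rfl)
    have h2 : -(∫ z in Alv f u G s K k (-1) m,
            (Yn f u G s m ((k : ℝ) / 10) z + Yn f u G s m (((k : ℝ) + 1) / 10) z)) ≤
            ε / 1760 + 2 * m * e := by linarith
    gcongr
  have hneg : ∑ k ∈ Finset.range 10,
          (22 * (-(∫ z in Alv f u G s K k (-1) m,
            (Yn f u G s m ((k : ℝ) / 10) z + Yn f u G s m (((k : ℝ) + 1) / 10) z)))) =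
      - ∑ k ∈ Finset.range 10,
          (22 * ∫ z in Alv f u G s K k (-1) m,
            (Yn f u G s m ((k : ℝ) / 10) z + Yn f u G s m (((k : ℝ) + 1) / 10) z)) := by
    rw [← Finset.sum_neg_distrib]
    refine Finset.sum_congr rfl (fun k _ => ?_)
    ring
  rw [hneg] at hsum2
  simp only [Finset.sum_const, Finset.card_range, nsmul_eq_mul] at hsum1 hsum2
  rw [hD] at heD
  push_cast at hsum1 hsum2
  nlinarith [hsum1, hsum2, heD, hGβ]

end Pool.Agent.KS6_47.CR.AS
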