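import Pool.Agent.KS6_47.CR.D2

set_option autoImplicit false
open MeasureTheory Set Filter Topology
open scoped ENNReal NNReal Real

namespace Pool.Agent.KS6_47.CR.CO2

lemma qmp (j : ℕ) : Measure.QuasiMeasurePreserving (ci j) volume volume := by
  by_cases h : par j = true
  · have e : ci j = (fun p : P2 => (p.2 - TT j, p.1)) := by
      funext p; simp [ci, h]
    have h1 : MeasurePreserving (fun p : ℝ × ℝ => (p.2, p.1)) (volume : Measure (ℝ × ℝ))
        (volume : Measure (ℝ × ℝ)) := by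
      rw [Measure.volume_eq_prod]
      exact Measure.measurePreserving_swap
    have h2 : MeasurePreserving (fun p : ℝ × ℝ => (p.1 - TT j, p.2)) (volume : Measure (ℝ × ℝ))
        (volume : Measure (ℝ × ℝ)) := by
      rw [Measure.volume_eq_prod]
      exact (measurePreserving_sub_right volume (TT j)).prod (MeasurePreserving.id volume)
    have h3 := h2.comp h1
    rw [e]
    exact h3.quasiMeasurePreserving
  · have e : ci j = (fun p : P2 => (p.1 - TT j, p.2)) := by
      funext p; simp [ci, h]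
    have h2 : MeasurePreserving (fun p : ℝ × ℝ => (p.1 - TT j, p.2)) (volume : Measure (ℝ × ℝ))
        (volume : Measure (ℝ × ℝ)) := by
      rw [Measure.volume_eq_prod]
      exact (measurePreserving_sub_right volume (TT j)).prod (MeasurePreserving.id volume)
    rw [e]
    exact h2.quasiMeasurePreserving

lemma bt_pos (j : ℕ) : 0 < bt j := by unfold bt TT; positivity

/-- Fatou for the limsup of sets, on a line -/
theorem limsup_line (V : ℕ → Set P2) (hV : ∀ n, MeasurableSet (V n)) (z : P2)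
    (hz : ∃ᶠ n in atTop, 1 / 2 ≤ volume {x : ℝ | x ∈ Icc (0:ℝ) 1 ∧ (x, q x z) ∈ V n}) :
    1 / 2 ≤ volume {x : ℝ | x ∈ Icc (0:ℝ) 1 ∧ (x, q x z) ∈ limsup V atTop} := by
  set S : ℕ → Set ℝ := fun n => {x : ℝ | x ∈ Icc (0:ℝ) 1 ∧ (x, q x z) ∈ V n} with hS
  have hSm : ∀ n, MeasurableSet (S n) := by
    intro n
    have hm : Measurable fun x : ℝ => ((x, q x z) : P2) := by
      unfold q; fun_prop
    exact (measurableSet_Icc : MeasurableSet (Icc (0:ℝ) 1)).inter (hm (hV n))
  set T : ℕ → Set ℝ := fun m => ⋃ n ≥ m, S n with hT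
  have hTm : ∀ m, MeasurableSet (T m) := fun m =>
    MeasurableSet.iUnion fun n => MeasurableSet.iUnion fun _ => hSm n
  have hanti : Antitone T := by
    intro a b hab x hx
    simp only [hT, mem_iUnion] at hx ⊢
    obtain ⟨n, hn, hx⟩ := hx
    exact ⟨n, le_trans hab hn, hx⟩
  have hfin : ∃ m, volume (T m) ≠ ⊤ := by
    refine ⟨0, ?_⟩
    have : T 0 ⊆ Icc (0:ℝ) 1 := by
      intro x hx
      simp only [hT, mem_iUnion] at hx
      obtain ⟨n, hn, hx⟩ := hx
      exact hx.1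
    exact ((measure_mono this).trans_lt (by simp)).ne
  have htend := tendsto_measure_iInter_atTop (μ := volume) (fun m => (hTm m).nullMeasurableSet)
    hanti hfin
  have hhalf : ∀ m, 1 / 2 ≤ volume (T m) := by
    intro m
    obtain ⟨n, hn, hx⟩ := Filter.frequently_atTop.1 hz m
    refine hx.trans (measure_mono ?_)
    intro x hx
    simp only [hT, mem_iUnion]
    exact ⟨n, hn, hx⟩
  have hge : 1 / 2 ≤ volume (⋂ m, T m) := ge_of_tendsto' htend hhalf
  refine hge.trans (measure_mono ?_)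
  intro x hx
  rw [mem_iInter] at hx
  have hfreq : ∀ m, ∃ n ≥ m, x ∈ S n := by
    intro m
    have := hx m
    simp only [hT, mem_iUnion] at this
    obtain ⟨n, hn, h⟩ := this
    exact ⟨n, hn, h⟩
  refine ⟨?_, ?_⟩
  · obtain ⟨n, -, h⟩ := hfreq 0
    exact h.1
  · rw [Filter.mem_limsup_iff_frequently_mem]
    rw [Filter.frequently_atTop]
    intro m
    obtain ⟨n, hn, h⟩ := hfreq m
    exact ⟨n, hn, h.2⟩

/-- almost every section of a summable sequence of sets is summable -/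
theorem ae_sum (U : ℕ → Set P3) (hU : ∀ n, MeasurableSet (U n)) (hsum : (∑' n, volume (U n)) ≠ ⊤) :
    ∀ᵐ t : ℝ, ∑' n, volume (Prod.mk t ⁻¹' U n) < ⊤ := by
  have h1 : ∀ n, volume (U n) = ∫⁻ t : ℝ, volume (Prod.mk t ⁻¹' U n) := by
    intro n
    rw [Measure.volume_eq_prod, Measure.prod_apply (hU n)]
  have hmeas : ∀ n, Measurable fun t : ℝ => volume (Prod.mk t ⁻¹' U n) := fun n =>
    measurable_measure_prodMk_left (hU n)
  have h2 : ∑' n, volume (U n) = ∫⁻ t : ℝ, ∑' n, volume (Prod.mk t ⁻¹' U n) := by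
    rw [lintegral_tsum (fun n => (hmeas n).aemeasurable)]
    exact tsum_congr h1
  rw [h2] at hsum
  exact ae_lt_top (Measurable.tsum hmeas) hsum

/-- a sequence in a conull set, dense in the positive half line -/
theorem dense_seq {G : ℝ → Prop} (hG : ∀ᵐ t : ℝ, G t) :
    ∃ u : ℕ → ℝ, (∀ l, G (u l) ∧ 0 < u l) ∧ ∀ a b : ℝ, 0 ≤ a → a < b → ∃ l, a < u l ∧ u l < b := by
  have key : ∀ a b : ℝ, 0 ≤ a → a < b → ∃ t, G t ∧ a < t ∧ t < b := by
    intro a b _ hab
    have h1 : volume (Ioo a b) ≠ 0 := by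
      rw [Real.volume_Ioo]
      simpa using hab
    have h2 : ∃ᵐ t : ℝ, t ∈ Ioo a b := by
      intro h
      apply h1
      have : {t : ℝ | ¬ ¬ t ∈ Ioo a b} = Ioo a b := by
        ext t
        simp only [not_not, mem_ofPred_eq]
      rw [← this]
      exact h
    obtain ⟨t, htm, htG⟩ := (h2.and_eventually hG).exists
    exact ⟨t, htG, htm.1, htm.2⟩
  have hg : ∀ p : ℚ × ℚ, ∃ t, (G t ∧ 0 < t) ∧ (0 ≤ p.1 → p.1 < p.2 → (p.1:ℝ) < t ∧ t < p.2) := by
    intro p
    by_cases h : 0 ≤ p.1 ∧ p.1 < p.2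
    · obtain ⟨t, h1, h2, h3⟩ := key p.1 p.2 (by exact_mod_cast h.1) (by exact_mod_cast h.2)
      have h4 : (0:ℝ) ≤ p.1 := by exact_mod_cast h.1
      exact ⟨t, ⟨h1, by linarith⟩, fun _ _ => ⟨h2, h3⟩⟩
    · obtain ⟨t, h1, h2, h3⟩ := key 0 1 le_rfl one_pos
      exact ⟨t, ⟨h1, h2⟩, fun h4 h5 => absurd ⟨h4, h5⟩ h⟩
  choose g hg1 hg2 using hg
  obtain ⟨e, he⟩ := exists_surjective_nat (ℚ × ℚ)
  refine ⟨fun l => g (e l), fun l => hg1 _, fun a b ha hab => ?_⟩
  obtain ⟨c, hc1, hc2⟩ := exists_rat_btwn hab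
  obtain ⟨d, hd1, hd2⟩ := exists_rat_btwn hc2
  obtain ⟨l, hl⟩ := he (c, d)
  have hc0 : (0:ℝ) ≤ c := by linarith
  obtain ⟨h1, h2⟩ := hg2 (c, d) (by exact_mod_cast hc0) (by exact_mod_cast hd1)
  refine ⟨l, ?_, ?_⟩
  · show a < g (e l)
    rw [hl]
    simp only at h1
    linarith
  · show g (e l) < b
    rw [hl]
    simp only at h2
    linarith

/-- the limsup of small intervals around a dense sequence is comeagre in the half line -/
theorem meagre_limsup (u : ℕ → ℝ) (hu : ∀ a b : ℝ, 0 ≤ a → a < b → ∃ l, a < u l ∧ u l < b)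
    (r : ℕ → ℝ) (hr : ∀ k, 0 < r k) :
    IsMeagre (Ioi (0:ℝ) \ {t : ℝ | ∃ᶠ k in atTop, |u (Nat.unpair k).1 - t| < r k}) := by
  set O : ℕ → Set ℝ := fun m => ⋃ k ≥ m, Metric.ball (u (Nat.unpair k).1) (r k) with hO
  have hOo : ∀ m, IsOpen (O m) := fun m =>
    isOpen_iUnion fun k => isOpen_iUnion fun _ => Metric.isOpen_ball
  have hmem : ∀ m l, u l ∈ O m := by
    intro m l
    simp only [hO, mem_iUnion]
    refine ⟨Nat.pair l m, Nat.right_le_pair l m, ?_⟩
    rw [Nat.unpair_pair]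
    exact Metric.mem_ball_self (hr _)
  have hsub : Ioi (0:ℝ) \ {t : ℝ | ∃ᶠ k in atTop, |u (Nat.unpair k).1 - t| < r k} ⊆
      ⋃ m, (Ici (0:ℝ) ∩ (O m)ᶜ) := by
    rintro t ⟨ht0, ht⟩
    have ht' : ¬ ∃ᶠ k in atTop, |u (Nat.unpair k).1 - t| < r k := ht
    rw [Filter.not_frequently, Filter.eventually_atTop] at ht'
    obtain ⟨m, hm⟩ := ht'
    refine mem_iUnion.2 ⟨m, Ioi_subset_Ici_self ht0, ?_⟩
    intro h
    simp only [hO, mem_iUnion] at h
    obtain ⟨k, hk, h⟩ := h
    apply hm k hk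
    rw [Metric.mem_ball, Real.dist_eq, abs_sub_comm] at h
    exact h
  refine IsMeagre.mono hsub ?_
  refine isMeagre_iUnion fun m => ?_
  have hcl : IsClosed (Ici (0:ℝ) ∩ (O m)ᶜ) := isClosed_Ici.inter (hOo m).isClosed_compl
  refine IsNowhereDense.isMeagre ?_
  rw [hcl.isNowhereDense_iff, ← Set.not_nonempty_iff_eq_empty]
  rintro ⟨x, hx⟩
  rw [mem_interior_iff_mem_nhds, Metric.mem_nhds_iff] at hx
  obtain ⟨d, hd, hd'⟩ := hx
  have hx0 : 0 ≤ x := (hd' (Metric.mem_ball_self hd)).1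
  obtain ⟨l, h1, h2⟩ := hu x (x + d) hx0 (by linarith)
  have h3 : u l ∈ Metric.ball x d := by
    rw [Metric.mem_ball, Real.dist_eq, abs_lt]
    constructor <;> linarith
  exact (hd' h3).2 (hmem m l)

lemma kk_pair (j₀ j n : ℕ) : kk j₀ (Nat.pair j n) = j + j₀ := by simp [kk]

theorem TT_key {a b : ℕ} (hab : a < b) : TT a + 2 ≤ TT b := by
  unfold TT
  have h5 : (4:ℝ) ^ (a + 1) ≤ 4 ^ b := pow_le_pow_right₀ (by norm_num) hab
  have h6 : (1:ℝ) ≤ 4 ^ a := one_le_pow₀ (by norm_num)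
  rw [pow_succ] at h5
  linarith

/-- infinitely many disjoint windows -/
theorem windows (S : Set ℝ) (hS : MeasurableSet S) (J : ℕ → ℕ) (hJ : StrictMono J)
    (h : ∀ k, 1 / 2 ≤ volume {x : ℝ | x ∈ Icc (0:ℝ) 1 ∧ x + TT (J k) ∈ S}) : volume S = ⊤ := by
  have h1 : ∀ k, 1 / 2 ≤ volume (Icc (TT (J k)) (TT (J k) + 1) ∩ S) := by
    intro k
    refine (h k).trans ?_
    have h2 : {x : ℝ | x ∈ Icc (0:ℝ) 1 ∧ x + TT (J k) ∈ S} ⊆
        (fun x : ℝ => x + TT (J k)) ⁻¹' (Icc (TT (J k)) (TT (J k) + 1) ∩ S) := by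
      rintro x ⟨⟨hx0, hx1⟩, hx⟩
      exact ⟨⟨by linarith, by linarith⟩, hx⟩
    refine (measure_mono h2).trans ?_
    rw [measure_preimage_add_right]
  have hdis : Pairwise (Function.onFun Disjoint fun k => Icc (TT (J k)) (TT (J k) + 1) ∩ S) := by
    have key : ∀ k k', k < k' → Disjoint (Icc (TT (J k)) (TT (J k) + 1) ∩ S)
        (Icc (TT (J k')) (TT (J k') + 1) ∩ S) := by
      intro k k' hkk
      rw [Set.disjoint_left]
      rintro x ⟨hx, -⟩ ⟨hx', -⟩
      have := TT_key (hJ hkk)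
      linarith [hx.1, hx.2, hx'.1, hx'.2]
    intro k k' hne
    rcases lt_or_gt_of_ne hne with h' | h'
    · exact key k k' h'
    · exact (key k' k h').symm
  rw [eq_top_iff]
  calc (⊤ : ℝ≥0∞) = ∑' _k : ℕ, (1 / 2 : ℝ≥0∞) := by
        rw [ENNReal.tsum_const_eq_top_of_ne_zero (by simp)]
    _ ≤ ∑' k, volume (Icc (TT (J k)) (TT (J k) + 1) ∩ S) := ENNReal.tsum_le_tsum h1
    _ = volume (⋃ k, Icc (TT (J k)) (TT (J k) + 1) ∩ S) :=
        (measure_iUnion hdis fun k => measurableSet_Icc.inter hS).symm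
    _ ≤ volume S := measure_mono (iUnion_subset fun k => inter_subset_right)

theorem co (hi : StmIter2) (hg : StmGlob2) (hops : StmPolyOps) : StmCore2 := by
  intro A j₀ δ hA hAb hAT hδ hδ1
  obtain ⟨W, J, ε, η, U, hS⟩ := hi A j₀ δ hA hAb hAT hδ hδ1
  have hAm : MeasurableSet A := hops.1 A hA
  have hAfin : volume A < ⊤ := hAb.measure_lt_top
  obtain ⟨hE, hvol, hmain⟩ := hg A j₀ δ W J ε η U hS hAm hAfin hδ hδ1
  refine ⟨Finf A W, hE, subset_union_left, ?_, ?_⟩
  · refine (measure_mono ?_).trans hvol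
    rintro p ⟨hp | hp, hpA⟩
    · exact absurd hp hpA
    · exact hp
  have hsum : ∀ j : ℕ, (∑' n, volume (U (Nat.pair j n))) ≠ ⊤ := by
    intro j
    have hb : ∀ n, volume (U (Nat.pair j n)) ≤ ENNReal.ofReal ((1 / 2 : ℝ) ^ n) := by
      intro n
      refine (hS.volU _).trans (ENNReal.ofReal_le_ofReal ?_)
      have h1 := hS.εsmall (Nat.pair j n)
      have h2 := hS.εpos (Nat.pair j n)
      have h3 := bt_pos (kk j₀ (Nat.pair j n))
      have h5 : (0:ℝ) < (1 / 2 : ℝ) ^ (Nat.pair j n) := by positivity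
      have h4 : ε (Nat.pair j n) ≤ (1 / 2 : ℝ) ^ (Nat.pair j n) := by
        nlinarith
      refine h4.trans ?_
      exact pow_le_pow_of_le_one (by norm_num) (by norm_num) (Nat.right_le_pair j n)
    refine ne_top_of_le_ne_top ?_ (ENNReal.tsum_le_tsum hb)
    rw [← ENNReal.ofReal_tsum_of_nonneg (fun n => by positivity)
      (summable_geometric_of_lt_one (by norm_num) (by norm_num))]
    exact ENNReal.ofReal_ne_top
  have hae : ∀ᵐ t : ℝ, ∀ j : ℕ, ∑' n, volume (Prod.mk t ⁻¹' U (Nat.pair j n)) < ⊤ := by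
    rw [ae_all_iff]
    intro j
    exact ae_sum (fun n => U (Nat.pair j n)) (fun n => (hS.openU _).measurableSet) (hsum j)
  obtain ⟨u, hu1, hu2⟩ := dense_seq hae
  -- the values and the stages
  have hn : ∀ k : ℕ, ∃ n : ℕ, k ≤ n ∧ u (Nat.unpair k).1 < (n : ℝ) + 1 ∧ ∀ j ∈ Finset.range (k + 1),
      volume (Prod.mk (u (Nat.unpair k).1) ⁻¹' U (Nat.pair j n)) ≤ ENNReal.ofReal ((1 / 2) ^ k) := by
    intro k
    have h1 : ∀ᶠ n in atTop, ∀ j ∈ Finset.range (k + 1),
        volume (Prod.mk (u (Nat.unpair k).1) ⁻¹' U (Nat.pair j n)) ≤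
          ENNReal.ofReal ((1 / 2) ^ k) := by
      rw [Filter.eventually_all_finset]
      intro j _
      have h2 := ENNReal.tendsto_atTop_zero_of_tsum_ne_top ((hu1 (Nat.unpair k).1).1 j).ne
      exact h2.eventually_le_const (ENNReal.ofReal_pos.2 (by positivity))
    obtain ⟨m, hm⟩ := exists_nat_gt (u (Nat.unpair k).1)
    obtain ⟨n, h3, h4, h5⟩ := (h1.and ((eventually_ge_atTop k).and (eventually_ge_atTop m))).exists
    refine ⟨n, h4, ?_, h3⟩
    have : (m:ℝ) ≤ n := by exact_mod_cast h5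
    linarith
  choose n hnk hnt hnv using hn
  have hr : ∀ k : ℕ, ∃ r : ℝ, 0 < r ∧ ∀ j ∈ Finset.range (k + 1), r < η (Nat.pair j (n k)) / 2 := by
    intro k
    have h1 : ∀ᶠ d in 𝓝[>] (0:ℝ), ∀ j ∈ Finset.range (k + 1), d < η (Nat.pair j (n k)) / 2 := by
      rw [Filter.eventually_all_finset]
      intro j _
      exact eventually_nhdsWithin_of_eventually_nhds
        (eventually_lt_nhds (half_pos (hS.ηpos _)))
    have h3 : ∀ᶠ d in 𝓝[>] (0:ℝ), (0:ℝ) < d := eventually_mem_nhdsWithin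
    obtain ⟨d, h4, h5⟩ := (h3.and h1).exists
    exact ⟨d, h4, h5⟩
  choose r hr0 hr1 using hr
  refine ⟨{t : ℝ | ∃ᶠ k in atTop, |u (Nat.unpair k).1 - t| < r k}, meagre_limsup u hu2 r hr0, ?_⟩
  -- the null set
  classical
  set V : ℕ → ℕ → Set P2 := fun j k =>
    if j ≤ k then Prod.mk (u (Nat.unpair k).1) ⁻¹' U (Nat.pair j (n k)) else ∅ with hV
  have hVm : ∀ j k, MeasurableSet (V j k) := by
    intro j k
    simp only [hV]
    split_ifs
    · exact measurable_prodMk_left (hS.openU _).measurableSet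
    · exact MeasurableSet.empty
  have hVv : ∀ j k, volume (V j k) ≤ ENNReal.ofReal ((1 / 2) ^ k) := by
    intro j k
    simp only [hV]
    split_ifs with h
    · exact hnv k j (Finset.mem_range.2 (Nat.lt_succ_of_le h))
    · rw [measure_empty]
      exact zero_le
  have hVsum : ∀ j, (∑' k, volume (V j k)) ≠ ⊤ := by
    intro j
    refine ne_top_of_le_ne_top ?_ (ENNReal.tsum_le_tsum (hVv j))
    rw [← ENNReal.ofReal_tsum_of_nonneg (fun n => by positivity)
      (summable_geometric_of_lt_one (by norm_num) (by norm_num))]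
    exact ENNReal.ofReal_ne_top
  set N : ℕ → Set P2 := fun j => limsup (V j) atTop with hN
  have hNm : ∀ j, MeasurableSet (N j) := fun j => MeasurableSet.measurableSet_limsup (hVm j)
  have hN0 : ∀ j, volume (N j) = 0 := fun j => measure_limsup_atTop_eq_zero (hVsum j)
  refine ⟨⋃ j, ci (j + j₀) ⁻¹' N j, ?_, ?_, ?_⟩
  · exact MeasurableSet.iUnion fun j => (qmp (j + j₀)).measurable (hNm j)
  · rw [measure_iUnion_null_iff]
    intro j
    exact (qmp (j + j₀)).preimage_null (hN0 j)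
  · intro s z hz t htT ht0 hlen
    obtain ⟨m, hm⟩ := hmain s z hz
    have hhalf : ∀ j, m ≤ j → par (j + j₀) = s → 1 / 2 ≤ volume {x : ℝ | x ∈ Icc (0:ℝ) 1 ∧
        (x, q x (z.1, z.2 + z.1 * TT (j + j₀))) ∈ N j} := by
      intro j hj hpj
      have h1 := hm j hj hpj t ht0 hlen
      have h2 : Tendsto n atTop atTop := tendsto_atTop_mono hnk tendsto_id
      have h3 := h2.eventually h1
      apply limsup_line (V j) (hVm j)
      have htT' : ∃ᶠ k in atTop, |u (Nat.unpair k).1 - t| < r k := htT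
      refine (htT'.and_eventually (h3.and (eventually_ge_atTop j))).mono ?_
      rintro k ⟨h4, h5, h6⟩
      have h7 : V j k = Prod.mk (u (Nat.unpair k).1) ⁻¹' U (Nat.pair j (n k)) := by
        simp only [hV]
        rw [if_pos h6]
      rw [h7]
      exact h5 _ ⟨(hu1 _).2, hnt k⟩
        ((h4.trans (hr1 k j (Finset.mem_range.2 (Nat.lt_succ_of_le h6)))).le)
    obtain ⟨c, hc⟩ : ∃ c : ℕ, ∀ k, par (2 * k + c) = s := by
      cases s
      · exact ⟨0, fun k => by simp [par]⟩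
      · refine ⟨1, fun k => ?_⟩
        have : (2 * k + 1) % 2 = 1 := by omega
        simp [par, this]
    have hptm : MeasurableSet {x : ℝ | pt s z x ∈ ⋃ j, ci (j + j₀) ⁻¹' N j} := by
      have hm' : Measurable (pt s z) := by
        cases s
        · have : pt false z = fun x => (x, q x z) := by funext x; simp [pt]
          rw [this]; unfold q; fun_prop
        · have : pt true z = fun x => (q x z, x) := by funext x; simp [pt]
          rw [this]; unfold q; fun_prop
      exact hm' (MeasurableSet.iUnion fun j => (qmp (j + j₀)).measurable (hNm j))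
    apply windows _ hptm (fun k => 2 * (k + m + j₀) + c)
    · intro a b hab
      show 2 * (a + m + j₀) + c < 2 * (b + m + j₀) + c
      omega
    · intro k
      obtain ⟨j, hj⟩ : ∃ j, 2 * (k + m + j₀) + c = j + j₀ := ⟨2 * (k + m) + j₀ + c, by omega⟩
      have hpj : par (j + j₀) = s := by rw [← hj]; exact hc _
      have hmj : m ≤ j := by omega
      refine (hhalf j hmj hpj).trans (measure_mono ?_)
      rintro x ⟨hx, hx'⟩
      refine ⟨hx, ?_⟩
      simp only [mem_ofPred_eq, mem_iUnion]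
      refine ⟨j, ?_⟩
      have : ci (j + j₀) (pt s z (x + TT (2 * (k + m + j₀) + c))) =
          (x, q x (z.1, z.2 + z.1 * TT (j + j₀))) := by
        rw [hj]
        unfold ci pt
        cases s
        · rw [hpj]; simp [q]; ring
        · rw [hpj]; simp [q]; ring
      rw [mem_preimage, this]
      exact hx'

end Pool.Agent.KS6_47.CR.CO2
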