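import Pool.Agent.KS6_47.CR.Stm

set_option autoImplicit false
open MeasureTheory Set Filter Topology
open scoped ENNReal NNReal Real

namespace Pool.Agent.KS6_47.CR

/-- the chart used at stage `i`; the first `j₀` charts are not used -/
def kk (j₀ i : ℕ) : ℕ := (Nat.unpair i).1 + j₀

/-- The union of the initial set and of the first `i` pieces. -/
def Fi (A : Set P2) (W : ℕ → Set P2) (i : ℕ) : Set P2 := A ∪ ⋃ i' ∈ Finset.range i, W i'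

/-- the whole union -/
def Finf (A : Set P2) (W : ℕ → Set P2) : Set P2 := A ∪ ⋃ i, W i

/-- the output of the iteration of the stage proposition -/
structure Sqs (A : Set P2) (j₀ : ℕ) (δ : ℝ) (W : ℕ → Set P2) (J : ℕ → Set ℝ) (ε η : ℕ → ℝ)
    (U : ℕ → Set P3) : Prop where
  measW : ∀ i, MeasurableSet (W i)
  measJ : ∀ i, MeasurableSet (J i)
  inJ : ∀ i, ∀ p ∈ W i, (ci (kk j₀ i) p).1 ∈ J i ∧ |(ci (kk j₀ i) p).2| ≤ bt (kk j₀ i) + 2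
  Jsub : ∀ i, J i ⊆ Icc 0 1
  volJ : ∀ i, volume (J i) ≤ ENNReal.ofReal (ε i)
  Jdisj : ∀ i i', i ≠ i' → kk j₀ i = kk j₀ i' → Disjoint (J i) (J i')
  εpos : ∀ i, 0 < ε i
  ηpos : ∀ i, 0 < η i
  εsmall : ∀ i, ε i * (2 * bt (kk j₀ i) + 4) ≤ δ * (1 / 2) ^ i
  εη : ∀ i i', i < i' → ε i' ≤ (1 / 2) ^ i' * η i
  openU : ∀ i, IsOpen (U i)
  volU : ∀ i, volume (U i) ≤ ENNReal.ofReal (ε i)
  disj : ∀ i, Disjoint (Fi A W i) (W i)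
  cover : ∀ i, ∀ z ∈ Icc (-1:ℝ) 1 ×ˢ Icc (-(bt (kk j₀ i))) (bt (kk j₀ i)),
    ∀ t ∈ Ioo (0:ℝ) ((i : ℝ) + 1),
    |Fr (cm (kk j₀ i) ⁻¹' Fi A W (i + 1)) z - t| ≤ η i →
      1 / 2 ≤ volume {x : ℝ | x ∈ Icc (0:ℝ) 1 ∧ (t, x, q x z) ∈ U i}

/-- SP. the stage proposition, for the lengths below `M` -/
def StmStage2 : Prop :=
  ∀ (E : Set P2) (β ζ ε M : ℝ), Poly E → Bornology.IsBounded E → 0 < β → 0 < ζ → ζ ≤ 1 / 40 →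
    0 < ε → 0 < M → (∀ p ∈ E, p.1 ∈ col ζ → β + 2 < |p.2|) →
    ∃ (W : Set P2) (J : Set ℝ) (U : Set P3) (ζ' η : ℝ), Poly W ∧
      (∀ p ∈ W, p.1 ∈ J ∧ |p.2| ≤ β + 2) ∧ MeasurableSet J ∧ J ⊆ col ζ ∧
      0 < ζ' ∧ ζ' < ζ ∧ Disjoint J (col ζ') ∧ volume J ≤ ENNReal.ofReal ε ∧ 0 < η ∧
      IsOpen U ∧ volume U ≤ ENNReal.ofReal ε ∧
      ∀ z ∈ Icc (-1:ℝ) 1 ×ˢ Icc (-β) β, ∀ t ∈ Ioo (0:ℝ) M, |Fr (E ∪ W) z - t| ≤ η →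
        1 / 2 ≤ volume {x : ℝ | x ∈ Icc (0:ℝ) 1 ∧ (t, x, q x z) ∈ U}

/-- GA. the iteration of the stage proposition, starting from any bounded polygonal set -/
def StmIter2 : Prop :=
  ∀ (A : Set P2) (j₀ : ℕ) (δ : ℝ), Poly A → Bornology.IsBounded A →
    (∀ p ∈ A, |p.1| ≤ TT j₀ ∧ |p.2| ≤ TT j₀) → 0 < δ → δ ≤ 1 →
    ∃ W J ε η U, Sqs A j₀ δ W J ε η U

/-- GB. what the limit set satisfies -/
def StmGlob2 : Prop :=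
  ∀ A j₀ δ W J ε η U, Sqs A j₀ δ W J ε η U → MeasurableSet A → volume A < ⊤ → 0 < δ → δ ≤ 1 →
    MeasurableSet (Finf A W) ∧ volume (⋃ i, W i) ≤ ENNReal.ofReal (2 * δ) ∧
    ∀ (s : Bool) (z : P2), z.1 ∈ Icc (-1:ℝ) 1 → ∃ m : ℕ, ∀ j : ℕ, m ≤ j → par (j + j₀) = s →
      ∀ t : ℝ, 0 < t → len s z (Finf A W) = ENNReal.ofReal t →
        ∀ᶠ n : ℕ in atTop, ∀ t' ∈ Ioo (0:ℝ) ((n : ℝ) + 1), |t' - t| ≤ η (Nat.pair j n) / 2 →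
          1 / 2 ≤ volume {x : ℝ | x ∈ Icc (0:ℝ) 1 ∧
            (t', x, q x (z.1, z.2 + z.1 * TT (j + j₀))) ∈ U (Nat.pair j n)}

/-- CO. the geometric core: most lengths are carried by one null set -/
def StmCore2 : Prop :=
  ∀ (A : Set P2) (j₀ : ℕ) (δ : ℝ), Poly A → Bornology.IsBounded A →
    (∀ p ∈ A, |p.1| ≤ TT j₀ ∧ |p.2| ≤ TT j₀) → 0 < δ → δ ≤ 1 →
    ∃ E : Set P2, MeasurableSet E ∧ A ⊆ E ∧ volume (E \ A) ≤ ENNReal.ofReal (2 * δ) ∧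
    ∃ T : Set ℝ, IsMeagre (Ioi (0:ℝ) \ T) ∧
      ∃ N : Set P2, MeasurableSet N ∧ volume N = 0 ∧
      ∀ (s : Bool) (z : P2), z.1 ∈ Icc (-1:ℝ) 1 → ∀ t ∈ T, 0 < t →
        len s z E = ENNReal.ofReal t → volume {x : ℝ | pt s z x ∈ N} = ⊤

/-- SE. selection of a subset of a null set -/
def StmSel2 : Prop :=
  ∀ (N : Set P2) (B : Set (Set P2)), MeasurableSet N →
    (∀ (s : Bool) (z : P2), z.1 ∈ Icc (-1:ℝ) 1 → ln s z ∈ B →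
      volume {x : ℝ | pt s z x ∈ N} = ⊤) →
    ∃ N' : Set P2, N' ⊆ N ∧
      (∀ (s : Bool) (z : P2), z.1 ∈ Icc (-1:ℝ) 1 → ln s z ∈ B →
        volume {x : ℝ | pt s z x ∈ N'} = ⊤) ∧
      (∀ (s : Bool) (z : P2), z.1 ∈ Icc (-1:ℝ) 1 → ln s z ∉ B →
        volume {x : ℝ | pt s z x ∈ N'} = 0)

/-- the final statement in coordinates: attained lengths are meagre, the set contains a given
bounded polygonal set and is hardly larger -/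
def StmFinal2 : Prop :=
  ∀ (A : Set P2) (δ : ℝ), Poly A → Bornology.IsBounded A → 0 < δ →
    ∃ E : Set P2, NullMeasurableSet E ∧ A ⊆ E ∧ volume (E \ A) ≤ ENNReal.ofReal δ ∧
      IsMeagre {t : ℝ | 0 < t ∧ ∃ (s : Bool) (z : P2), z.1 ∈ Icc (-1:ℝ) 1 ∧
        len s z E = ENNReal.ofReal t}

end Pool.Agent.KS6_47.CR
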