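import Mathlib

set_option autoImplicit false
open MeasureTheory Set Filter Topology
open scoped ENNReal NNReal Real

namespace Pool.Agent.KS6_47.CR

/-- points `(x,y)` of the plane, or line parameters `z = (a,b)` -/
abbrev P2 := ℝ × ℝ

/-- triples `(x, a, b)` or `(t, x, y)` -/
abbrev P3 := ℝ × ℝ × ℝ

/-- height over `x` of the line `y = a x + b` with parameters `z = (a, b)` -/
def q (x : ℝ) (z : P2) : ℝ := z.1 * x + z.2

/-- clamp of the slope to `[-1, 1]` -/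
noncomputable def cl (a : ℝ) : ℝ := max (-1) (min 1 a)

/-- remainder of `u * cl a + b` modulo `l` -/
noncomputable def rm (u l : ℝ) (z : P2) : ℝ :=
  (u * cl z.1 + z.2) - l * ⌊(u * cl z.1 + z.2) / l⌋

/-- the length (in `x`) of the line `z` inside the strip `FS u G l` -/
noncomputable def lam (u G l : ℝ) (z : P2) : ℝ :=
  min (G * rm u l z / (1 - cl z.1 * G)) (G * (l - rm u l z) / (1 + cl z.1 * G))

/-- the true length of the line `z` inside the strip -/
noncomputable def hh (u G l : ℝ) (z : P2) : ℝ := √(1 + (cl z.1) ^ 2) * lam u G l z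

open Classical in
/-- the gradient of `hh` is `xi * (u, 1)` up to `G * l` -/
noncomputable def xi (u G l : ℝ) (z : P2) : ℝ :=
  if 2 * rm u l z < (1 - cl z.1 * G) * l then G * √(1 + (cl z.1) ^ 2) / (1 - cl z.1 * G)
  else -(G * √(1 + (cl z.1) ^ 2) / (1 + cl z.1 * G))

/-- the full (infinitely high) vertical strip at `x = u`: a column of thin triangles with bases
`[k l, (k+1) l]` on the vertical line `x = u` -/
def FS (u G l : ℝ) : Set P2 := {p | u ≤ p.1 ∧ ∀ k : ℤ, p.1 - u ≤ G * |p.2 - k * l|}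

/-- the strip cut to `|y| ≤ Y` -/
def St (u G l Y : ℝ) : Set P2 := {p | p ∈ FS u G l ∧ |p.2| ≤ Y}

/-- the map `(x, z) ↦ (f z, x, q x z)` -/
def Phi (f : P2 → ℝ) (p : P3) : P3 := (f p.2, p.1, q p.1 p.2)

/-- base function plus `n` strips, of scales `1/(s i + 1)` -/
noncomputable def fn (f : P2 → ℝ) (u : ℕ → ℝ) (G : ℝ) (s : ℕ → ℕ) (n : ℕ) (z : P2) : ℝ :=
  f z + ∑ i ∈ Finset.range n, hh (u i) G (1 / ((s i : ℝ) + 1)) z

/-- the model for the derivative of `fn` in direction `(1, -x)` -/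
noncomputable def Yn (f : P2 → ℝ) (u : ℕ → ℝ) (G : ℝ) (s : ℕ → ℕ) (n : ℕ) (x : ℝ) (z : P2) : ℝ :=
  fderiv ℝ f z (1, -x) +
    ∑ i ∈ Finset.range n, xi (u i) G (1 / ((s i : ℝ) + 1)) z * (u i - x)

/-- the pairs `(x, z)` that are hit for the first time at level `n` -/
def Hit (f : P2 → ℝ) (u : ℕ → ℝ) (G : ℝ) (s : ℕ → ℕ) (K : Set P2) (n : ℕ) : Set P3 :=
  {p | p.1 ∈ Icc (0:ℝ) 1 ∧ p.2 ∈ K ∧ |Yn f u G s n p.1 p.2| ≤ 3 * G ∧
    ∀ j < n, 3 * G < |Yn f u G s j p.1 p.2|}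

/-- the set of `z` that are alive at level `n` over the grid interval `[k/10, (k+1)/10]`, with
sign `sg` -/
def Alv (f : P2 → ℝ) (u : ℕ → ℝ) (G : ℝ) (s : ℕ → ℕ) (K : Set P2) (k : ℕ) (sg : ℝ) (n : ℕ) :
    Set P2 :=
  {z | z ∈ K ∧ ∀ j ≤ n, 3 * G < sg * Yn f u G s j ((k : ℝ) / 10) z ∧
    3 * G < sg * Yn f u G s j (((k : ℝ) + 1) / 10) z}

/-- the conditions on the choice of the scale `s n` of the strip number `n` -/
structure StepOK (f : P2 → ℝ) (u : ℕ → ℝ) (G : ℝ) (K : Set P2) (e : ℝ) (s : ℕ → ℕ) (n : ℕ) :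
    Prop where
  small : 1 / ((s n : ℝ) + 1) < e
  usc : ∀ j ≤ n, volume (Phi (fn f u G s (n + 1)) '' Hit f u G s K j) ≤
    volume (Phi (fn f u G s n) '' Hit f u G s K j) + ENNReal.ofReal e
  weak1 : ∀ k < 10, ∀ sg : ℝ, (sg = 1 ∨ sg = -1) →
    |∫ z in Alv f u G s K k sg n, xi (u n) G (1 / ((s n : ℝ) + 1)) z| ≤ e
  weak2 : ∀ k < 10, ∀ sg : ℝ, (sg = 1 ∨ sg = -1) →
    |∫ z in Alv f u G s K k sg n, xi (u n) G (1 / ((s n : ℝ) + 1)) z *
      ((u n - ((k : ℝ) + 1) / 10) * Yn f u G s n ((k : ℝ) / 10) z +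
        (u n - (k : ℝ) / 10) * Yn f u G s n (((k : ℝ) + 1) / 10) z)| ≤ e

/-- sets obtained from closed half-planes by complements and intersections -/
inductive Poly : Set P2 → Prop
  | half (a b c : ℝ) : Poly {p : P2 | a * p.1 + b * p.2 ≤ c}
  | compl {E : Set P2} : Poly E → Poly Eᶜ
  | inter {E F : Set P2} : Poly E → Poly F → Poly (E ∩ F)

/-- the ten short columns `((2k+1)/20, (2k+1)/20 + ζ)` -/
def col (ζ : ℝ) : Set ℝ :=
  {x | ∃ k : ℕ, k < 10 ∧ (2 * (k : ℝ) + 1) / 20 < x ∧ x < (2 * (k : ℝ) + 1) / 20 + ζ}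

/-- true length of the line `y = a x + b` inside `E` -/
noncomputable def Fr (E : Set P2) (z : P2) : ℝ :=
  √(1 + z.1 ^ 2) * (volume {x : ℝ | (x, q x z) ∈ E}).toReal

/-! ### charts -/

/-- the parity of the chart number: `true` means the coordinates are swapped -/
def par (j : ℕ) : Bool := decide (j % 2 = 1)

/-- position of the window of chart `j` -/
noncomputable def TT (j : ℕ) : ℝ := 10 * 4 ^ j

/-- bound for the intercepts of the lines of chart `j` -/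
noncomputable def bt (j : ℕ) : ℝ := 2 * TT j

/-- chart `j`: from chart coordinates to the plane -/
noncomputable def cm (j : ℕ) (p : P2) : P2 :=
  if par j then (p.2, p.1 + TT j) else (p.1 + TT j, p.2)

/-- inverse of chart `j` -/
noncomputable def ci (j : ℕ) (p : P2) : P2 :=
  if par j then (p.2 - TT j, p.1) else (p.1 - TT j, p.2)

/-- the point with parameter `x` of the line of type `s` with parameters `z` -/
def pt (s : Bool) (z : P2) (x : ℝ) : P2 := if s then (q x z, x) else (x, q x z)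

/-- the line as a set -/
def ln (s : Bool) (z : P2) : Set P2 := Set.range (pt s z)

/-- length of the line inside `E`; this is an outer measure if the section is not measurable -/
noncomputable def len (s : Bool) (z : P2) (E : Set P2) : ℝ≥0∞ :=
  ENNReal.ofReal (√(1 + z.1 ^ 2)) * volume {x : ℝ | pt s z x ∈ E}

/-- the initial set -/
def E0 : Set P2 := Icc (0:ℝ) 1 ×ˢ Icc (0:ℝ) 1

/-- the chart used at stage `i` -/
def jj (i : ℕ) : ℕ := (Nat.unpair i).1

/-- the union of the initial set and of the first `i` pieces -/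
def Ei (W : ℕ → Set P2) (i : ℕ) : Set P2 := E0 ∪ ⋃ i' ∈ Finset.range i, W i'

/-- the whole union -/
def Einf (W : ℕ → Set P2) : Set P2 := E0 ∪ ⋃ i, W i

/-- the output of the iteration of the stage proposition -/
structure Seqs (W : ℕ → Set P2) (J : ℕ → Set ℝ) (ε η : ℕ → ℝ) (U : ℕ → Set P3) : Prop where
  measW : ∀ i, MeasurableSet (W i)
  measJ : ∀ i, MeasurableSet (J i)
  inJ : ∀ i, ∀ p ∈ W i, (ci (jj i) p).1 ∈ J i ∧ |(ci (jj i) p).2| ≤ bt (jj i) + 2
  Jsub : ∀ i, J i ⊆ Icc 0 1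
  volJ : ∀ i, volume (J i) ≤ ENNReal.ofReal (ε i)
  Jdisj : ∀ i i', i ≠ i' → jj i = jj i' → Disjoint (J i) (J i')
  εpos : ∀ i, 0 < ε i
  ηpos : ∀ i, 0 < η i
  εsmall : ∀ i, ε i * (2 * bt (jj i) + 4) ≤ (1 / 2) ^ i
  εη : ∀ i i', i < i' → ε i' ≤ (1 / 2) ^ i' * η i
  openU : ∀ i, IsOpen (U i)
  volU : ∀ i, volume (U i) ≤ ENNReal.ofReal (ε i)
  disj : ∀ i, Disjoint (Ei W i) (W i)
  cover : ∀ i, ∀ z ∈ Icc (-1:ℝ) 1 ×ˢ Icc (-(bt (jj i))) (bt (jj i)), ∀ t ∈ Ioo (0:ℝ) 1,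
    |Fr (cm (jj i) ⁻¹' Ei W (i + 1)) z - t| ≤ η i →
      1 / 2 ≤ volume {x : ℝ | x ∈ Icc (0:ℝ) 1 ∧ (t, x, q x z) ∈ U i}

/-! ### the Euclidean plane -/

/-- The Euclidean plane. -/
abbrev Plane := EuclideanSpace ℝ (Fin 2)

/-- from pairs to the Euclidean plane -/
noncomputable def toPl (p : P2) : Plane := !₂[p.1, p.2]

end Pool.Agent.KS6_47.CR
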