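import Pool.Agent.KS6_47.CR.D2

set_option autoImplicit false
open MeasureTheory Set Filter Topology
open scoped ENNReal NNReal Real

namespace Pool.Agent.KS6_47.CR.FI2

theorem fi (hcore : StmCore2) (hsel : StmSel2) (hh : StmHaus) : StmFinal2 := by
  intro A δ hA hAb hδ
  obtain ⟨R, hR⟩ := isBounded_iff_forall_norm_le.1 hAb
  obtain ⟨j₀, hj₀⟩ := exists_nat_ge R
  have hT : (j₀ : ℝ) ≤ TT j₀ := by
    have h1 : j₀ < 4 ^ j₀ := Nat.lt_pow_self (by norm_num)
    have h2 : (j₀:ℝ) < 4 ^ j₀ := by exact_mod_cast h1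
    unfold TT
    have h4 : (0:ℝ) ≤ 4 ^ j₀ := by positivity
    linarith
  have hAT : ∀ p ∈ A, |p.1| ≤ TT j₀ ∧ |p.2| ≤ TT j₀ := by
    intro p hp
    have h1 := hR p hp
    exact ⟨(norm_fst_le p).trans (by linarith), (norm_snd_le p).trans (by linarith)⟩
  obtain ⟨E₁, hE₁m, hAE, hEA, T, hTm, N, hNm, hN0, hN⟩ := hcore A j₀ (min (δ / 2) 1) hA hAb hAT
    (lt_min (by positivity) one_pos) (min_le_right _ _)
  set B : Set (Set P2) := {S : Set P2 | ∃ t ∈ T, 0 < t ∧ ∃ (s : Bool) (z : P2),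
    z.1 ∈ Icc (-1:ℝ) 1 ∧ S = ln s z ∧ len s z E₁ = ENNReal.ofReal t} with hB
  obtain ⟨N', hN'sub, hN'1, hN'2⟩ := hsel N B hNm (by
    rintro s z hz ⟨t, htT, ht0, s', z', hz', hS, hlen⟩
    have h1 : len s z E₁ = ENNReal.ofReal t := by
      rw [← hh s z E₁, hS, hh s' z' E₁, hlen]
    exact hN s z hz t htT ht0 h1)
  have hN'0 : volume N' = 0 := measure_mono_null hN'sub hN0
  refine ⟨E₁ ∪ N', hE₁m.nullMeasurableSet.union (NullMeasurableSet.of_null hN'0),
    hAE.trans subset_union_left, ?_, ?_⟩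
  · calc volume ((E₁ ∪ N') \ A) ≤ volume (E₁ \ A ∪ N') := by
          apply measure_mono
          rintro p ⟨hp | hp, hpA⟩
          · exact Or.inl ⟨hp, hpA⟩
          · exact Or.inr hp
      _ ≤ volume (E₁ \ A) + volume N' := measure_union_le _ _
      _ = volume (E₁ \ A) := by rw [hN'0, add_zero]
      _ ≤ ENNReal.ofReal (2 * min (δ / 2) 1) := hEA
      _ ≤ ENNReal.ofReal δ := by
          apply ENNReal.ofReal_le_ofReal
          have := min_le_left (δ / 2) 1
          linarith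
  · refine IsMeagre.mono ?_ hTm
    rintro t ⟨ht0, s, z, hz, hlen⟩
    refine ⟨ht0, fun htT => ?_⟩
    by_cases hBm : ln s z ∈ B
    · have h1 := hN'1 s z hz hBm
      have h2 : len s z (E₁ ∪ N') = ⊤ := by
        unfold len
        have h3 : volume {x : ℝ | pt s z x ∈ E₁ ∪ N'} = ⊤ := by
          rw [eq_top_iff, ← h1]
          exact measure_mono (fun x hx => Or.inr hx)
        rw [h3, ENNReal.mul_top]
        have : 0 < √(1 + z.1 ^ 2) := Real.sqrt_pos.2 (by positivity)
        simpa using this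
      rw [hlen] at h2
      exact ENNReal.ofReal_ne_top h2
    · have h1 := hN'2 s z hz hBm
      apply hBm
      refine ⟨t, htT, ht0, s, z, hz, rfl, ?_⟩
      rw [← hlen]
      unfold len
      congr 1
      apply le_antisymm
      · exact measure_mono (fun x hx => Or.inl hx)
      · calc volume {x : ℝ | pt s z x ∈ E₁ ∪ N'} ≤
            volume ({x : ℝ | pt s z x ∈ E₁} ∪ {x : ℝ | pt s z x ∈ N'}) :=
              measure_mono (fun x hx => hx)
          _ ≤ _ := measure_union_le _ _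
          _ = _ := by rw [h1, add_zero]

end Pool.Agent.KS6_47.CR.FI2
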