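import Pool.Agent.KS6_47.CR.D2

set_option autoImplicit false
open MeasureTheory Set Filter Topology
open scoped ENNReal NNReal Real

namespace Pool.Agent.KS6_47.CR.GB2

theorem TT_pos (j : ℕ) : 0 < TT j := by unfold TT; positivity

theorem ci_pt_same {j : ℕ} {s : Bool} (h : par j = s) (z : P2) (x : ℝ) :
    ci j (pt s z x) = (x - TT j, q x z) := by
  subst h
  unfold ci pt
  cases par j <;> simp

theorem ci_pt_diff {j : ℕ} {s : Bool} (h : par j ≠ s) (z : P2) (x : ℝ) :
    ci j (pt s z x) = (q x z - TT j, x) := by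
  unfold ci pt
  cases hp : par j <;> cases s <;> simp_all

theorem cm_eq {j : ℕ} {s : Bool} (h : par j = s) (z : P2) (x : ℝ) :
    cm j (x, q x (z.1, z.2 + z.1 * TT j)) = pt s z (x + TT j) := by
  have hq : q x (z.1, z.2 + z.1 * TT j) = q (x + TT j) z := by unfold q; ring
  rw [hq]
  subst h
  unfold cm pt
  cases par j <;> simp

theorem Fr_eq {j : ℕ} {s : Bool} (h : par j = s) (z : P2) (E : Set P2) :
    Fr (cm j ⁻¹' E) (z.1, z.2 + z.1 * TT j) =
      √(1 + z.1 ^ 2) * (volume {x : ℝ | pt s z x ∈ E}).toReal := by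
  have h1 : {x : ℝ | (x, q x (z.1, z.2 + z.1 * TT j)) ∈ cm j ⁻¹' E} =
      (fun x => x + TT j) ⁻¹' {x : ℝ | pt s z x ∈ E} := by
    ext x
    simp only [Set.mem_ofPred_eq, mem_preimage, cm_eq h]
  unfold Fr
  rw [h1, measure_preimage_add_right]

/-- the measure of the piece `W i` -/
theorem vol_box (j : ℕ) (J : Set ℝ) (B : ℝ) :
    volume {p : P2 | (ci j p).1 ∈ J ∧ |(ci j p).2| ≤ B} ≤ volume J * ENNReal.ofReal (2 * B) := by
  have hJ : volume ((fun x : ℝ => x + (-(TT j))) ⁻¹' J) = volume J :=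
    measure_preimage_add_right _ _ _
  have hB : volume (Icc (-B) B) = ENNReal.ofReal (2 * B) := by
    rw [Real.volume_Icc]; congr 1; ring
  cases hp : par j
  · have h1 : {p : P2 | (ci j p).1 ∈ J ∧ |(ci j p).2| ≤ B} =
        ((fun x : ℝ => x + (-(TT j))) ⁻¹' J) ×ˢ Icc (-B) B := by
      ext p
      simp [ci, hp, abs_le, sub_eq_add_neg]
    rw [h1, Measure.volume_eq_prod, Measure.prod_prod, hJ, hB]
  · have h1 : {p : P2 | (ci j p).1 ∈ J ∧ |(ci j p).2| ≤ B} =
        Icc (-B) B ×ˢ ((fun x : ℝ => x + (-(TT j))) ⁻¹' J) := by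
      ext p
      simp [ci, hp, abs_le, sub_eq_add_neg]
      tauto
    rw [h1, Measure.volume_eq_prod, Measure.prod_prod, hJ, hB, mul_comm]

theorem bt_pos (j : ℕ) : 0 < bt j := by
  have := TT_pos j
  unfold bt; linarith

theorem volW {A : Set P2} {j₀ : ℕ} {δ : ℝ} {W : ℕ → Set P2} {J : ℕ → Set ℝ} {ε η : ℕ → ℝ}
    {U : ℕ → Set P3} (h : Sqs A j₀ δ W J ε η U) (i : ℕ) :
    volume (W i) ≤ ENNReal.ofReal (δ * (1 / 2) ^ i) := by
  calc volume (W i) ≤ volume {p : P2 | (ci (kk j₀ i) p).1 ∈ J i ∧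
        |(ci (kk j₀ i) p).2| ≤ bt (kk j₀ i) + 2} := measure_mono (h.inJ i)
    _ ≤ volume (J i) * ENNReal.ofReal (2 * (bt (kk j₀ i) + 2)) := vol_box _ _ _
    _ ≤ ENNReal.ofReal (ε i) * ENNReal.ofReal (2 * (bt (kk j₀ i) + 2)) := by
        gcongr
        exact h.volJ i
    _ = ENNReal.ofReal (ε i * (2 * (bt (kk j₀ i) + 2))) :=
        (ENNReal.ofReal_mul (h.εpos i).le).symm
    _ ≤ ENNReal.ofReal (δ * (1 / 2) ^ i) := by
        apply ENNReal.ofReal_le_ofReal
        have := h.εsmall i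
        nlinarith

theorem vol_iUnion {A : Set P2} {j₀ : ℕ} {δ : ℝ} {W : ℕ → Set P2} {J : ℕ → Set ℝ} {ε η : ℕ → ℝ}
    {U : ℕ → Set P3} (h : Sqs A j₀ δ W J ε η U) (hδ : 0 < δ) :
    volume (⋃ i, W i) ≤ ENNReal.ofReal (2 * δ) := by
  have h1 : volume (⋃ i, W i) ≤ ∑' i, ENNReal.ofReal (δ * (1 / 2 : ℝ) ^ i) :=
    (measure_iUnion_le _).trans (ENNReal.tsum_le_tsum (volW h))
  refine h1.trans (le_of_eq ?_)
  rw [← ENNReal.ofReal_tsum_of_nonneg (fun n => by positivity)
    (summable_geometric_two.mul_left δ), tsum_mul_left, tsum_geometric_two, mul_comm]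

/-- the sections of the pieces are eventually bounded by a multiple of `ε i` -/
theorem sec_bound {A : Set P2} {j₀ : ℕ} {δ : ℝ} {W : ℕ → Set P2} {J : ℕ → Set ℝ} {ε η : ℕ → ℝ}
    {U : ℕ → Set P3} (h : Sqs A j₀ δ W J ε η U) (s : Bool) (z : P2) :
    ∃ C : ℝ, 0 ≤ C ∧ ∃ i0 : ℕ, ∀ i ≥ i0,
      volume {x : ℝ | pt s z x ∈ W i} ≤ ENNReal.ofReal (C * ε i) := by
  have hsame : ∀ i, par (kk j₀ i) = s →
      volume {x : ℝ | pt s z x ∈ W i} ≤ ENNReal.ofReal (ε i) := by
    intro i hp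
    have hsub : {x : ℝ | pt s z x ∈ W i} ⊆ (fun x : ℝ => x + (-(TT (kk j₀ i)))) ⁻¹' J i := by
      intro x hx
      have h1 := (h.inJ i _ hx).1
      rw [ci_pt_same hp] at h1
      simpa [sub_eq_add_neg] using h1
    calc volume {x : ℝ | pt s z x ∈ W i} ≤ _ := measure_mono hsub
      _ = volume (J i) := measure_preimage_add_right _ _ _
      _ ≤ _ := h.volJ i
  have hdiffsub : ∀ i, par (kk j₀ i) ≠ s → {x : ℝ | pt s z x ∈ W i} ⊆
      {x : ℝ | q x z - TT (kk j₀ i) ∈ J i} := by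
    intro i hp x hx
    have h1 := (h.inJ i _ hx).1
    rw [ci_pt_diff hp] at h1
    exact h1
  by_cases hz : z.1 = 0
  · -- horizontal in the other chart
    have huniq : ∀ i i', par (kk j₀ i) ≠ s → par (kk j₀ i') ≠ s → z.2 - TT (kk j₀ i) ∈ J i →
        z.2 - TT (kk j₀ i') ∈ J i' → i = i' := by
      intro i i' _ _ h1 h2
      by_contra hne
      have h3 := h.Jsub i h1
      have h4 := h.Jsub i' h2
      have hjj : kk j₀ i = kk j₀ i' := by
        by_contra hj
        have key : ∀ a b : ℕ, a < b → TT a + 2 ≤ TT b := by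
          intro a b hab
          unfold TT
          have h5 : (4:ℝ) ^ (a + 1) ≤ 4 ^ b := pow_le_pow_right₀ (by norm_num) hab
          have h6 : (1:ℝ) ≤ 4 ^ a := one_le_pow₀ (by norm_num)
          rw [pow_succ] at h5
          linarith
        rcases lt_or_gt_of_ne hj with h5 | h5
        · have := key _ _ h5
          linarith [h3.1, h3.2, h4.1, h4.2]
        · have := key _ _ h5
          linarith [h3.1, h3.2, h4.1, h4.2]
      have h5 := h.Jdisj i i' hne hjj
      rw [hjj] at h1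
      exact Set.disjoint_left.1 h5 h1 h2
    have hex : ∃ i0 : ℕ, ∀ i ≥ i0, par (kk j₀ i) ≠ s → z.2 - TT (kk j₀ i) ∉ J i := by
      by_cases hall : ∃ i1, par (kk j₀ i1) ≠ s ∧ z.2 - TT (kk j₀ i1) ∈ J i1
      · obtain ⟨i1, h1, h2⟩ := hall
        refine ⟨i1 + 1, fun i hi hp hJ => ?_⟩
        have := huniq i i1 hp h1 hJ h2
        omega
      · push Not at hall
        exact ⟨0, fun i _ hp => hall i hp⟩
    obtain ⟨i0, hi0⟩ := hex
    refine ⟨1, zero_le_one, i0, fun i hi => ?_⟩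
    rw [one_mul]
    by_cases hp : par (kk j₀ i) = s
    · exact hsame i hp
    · have h1 : {x : ℝ | pt s z x ∈ W i} = ∅ := by
        apply Set.eq_empty_of_forall_notMem
        intro x hx
        have h2 := hdiffsub i hp hx
        simp only [Set.mem_ofPred_eq, q, hz, zero_mul, zero_add] at h2
        exact hi0 i hi hp h2
      rw [h1, measure_empty]
      exact zero_le
  · refine ⟨max 1 |z.1|⁻¹, by positivity, 0, fun i _ => ?_⟩
    have hε := (h.εpos i).le
    by_cases hp : par (kk j₀ i) = s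
    · refine (hsame i hp).trans (ENNReal.ofReal_le_ofReal ?_)
      have : (1:ℝ) ≤ max 1 |z.1|⁻¹ := le_max_left _ _
      nlinarith
    · have h1 : {x : ℝ | q x z - TT (kk j₀ i) ∈ J i} =
          (fun x : ℝ => z.1 * x) ⁻¹' ((fun x : ℝ => x + (z.2 - TT (kk j₀ i))) ⁻¹' J i) := by
        ext x
        simp only [Set.mem_ofPred_eq, mem_preimage, q]
        rw [show z.1 * x + (z.2 - TT (kk j₀ i)) = z.1 * x + z.2 - TT (kk j₀ i) by ring]
      calc volume {x : ℝ | pt s z x ∈ W i} ≤ volume {x : ℝ | q x z - TT (kk j₀ i) ∈ J i} :=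
            measure_mono (hdiffsub i hp)
        _ = ENNReal.ofReal |z.1⁻¹| * volume (J i) := by
            rw [h1, Real.volume_preimage_mul_left hz, measure_preimage_add_right]
        _ ≤ ENNReal.ofReal |z.1⁻¹| * ENNReal.ofReal (ε i) := by
            gcongr
            exact h.volJ i
        _ = ENNReal.ofReal (|z.1⁻¹| * ε i) := (ENNReal.ofReal_mul (abs_nonneg _)).symm
        _ ≤ _ := by
            apply ENNReal.ofReal_le_ofReal
            rw [abs_inv]
            exact mul_le_mul_of_nonneg_right (le_max_right _ _) hε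

theorem gb : StmGlob2 := by
  intro A j₀ δ W J ε η U h hA hAfin hδ hδ1
  have hmE : MeasurableSet (Finf A W) :=
    hA.union (MeasurableSet.iUnion fun i => h.measW i)
  refine ⟨hmE, vol_iUnion h hδ, ?_⟩
  intro s z hz
  -- the chart
  obtain ⟨m, hm⟩ := exists_nat_ge |z.2|
  refine ⟨m, fun j' hjm hpj t ht hlen => ?_⟩
  obtain ⟨j, hj⟩ : ∃ j, j = j' + j₀ := ⟨_, rfl⟩
  rw [← hj] at hpj
  have hT : |z.2| ≤ TT j := by
    have h1 : j < 4 ^ j := Nat.lt_pow_self (by norm_num)
    have h2 : (j:ℝ) < 4 ^ j := by exact_mod_cast h1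
    have h3 : (m:ℝ) ≤ j := by
      have : m ≤ j := by omega
      exact_mod_cast this
    unfold TT
    have h4 : (0:ℝ) ≤ 4 ^ j := by positivity
    linarith
  obtain ⟨C, hC0, i0, hC⟩ := sec_bound h s z
  set r : ℝ := √(1 + z.1 ^ 2) with hr
  have hr1 : 1 ≤ r := by
    rw [hr]
    exact Real.one_le_sqrt.2 (by nlinarith [sq_nonneg z.1])
  have hr2 : r ≤ 2 := by
    rw [hr]
    apply Real.sqrt_le_iff.2
    constructor
    · norm_num
    · nlinarith [hz.1, hz.2]
  have hpow : ∀ᶠ n : ℕ in atTop, 4 * C * (1 / 2 : ℝ) ^ n ≤ 1 := by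
    have h1 : Tendsto (fun n : ℕ => 4 * C * (1 / 2 : ℝ) ^ n) atTop (𝓝 (4 * C * 0)) :=
      (tendsto_pow_atTop_nhds_zero_of_lt_one (by norm_num) (by norm_num)).const_mul _
    rw [mul_zero] at h1
    exact h1.eventually_le_const zero_lt_one
  filter_upwards [hpow, eventually_ge_atTop i0] with n hn hni
  intro t' ht' htt'
  obtain ⟨i, hi⟩ : ∃ i, i = Nat.pair j' n := ⟨_, rfl⟩
  rw [← hi] at htt' ⊢
  have hni' : n ≤ i := by rw [hi]; exact Nat.right_le_pair j' n
  have hjj : kk j₀ i = j := by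
    rw [kk, hi, Nat.unpair_pair, hj]
  -- the sections
  set Sf : Set ℝ := {x : ℝ | pt s z x ∈ Finf A W} with hSf
  set Si : Set ℝ := {x : ℝ | pt s z x ∈ Fi A W (i + 1)} with hSi
  have hsub1 : Si ⊆ Sf := by
    intro x hx
    simp only [hSi, hSf, Set.mem_ofPred_eq, Fi, Finf, mem_union, mem_iUnion] at hx ⊢
    rcases hx with hx | ⟨k, _, hk⟩
    · exact Or.inl hx
    · exact Or.inr ⟨k, hk⟩
  have hsub2 : Sf ⊆ Si ∪ ⋃ k : ℕ, {x : ℝ | pt s z x ∈ W (i + 1 + k)} := by
    intro x hx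
    simp only [hSi, hSf, Set.mem_ofPred_eq, Fi, Finf, mem_union, mem_iUnion] at hx ⊢
    rcases hx with hx | ⟨k, hk⟩
    · exact Or.inl (Or.inl hx)
    · rcases lt_or_ge k (i + 1) with h1 | h1
      · exact Or.inl (Or.inr ⟨k, Finset.mem_range.2 h1, hk⟩)
      · exact Or.inr ⟨k - (i + 1), by rwa [Nat.add_sub_cancel' h1]⟩
  set D : ℝ := C * (1 / 2) ^ i * η i with hD
  have hη := h.ηpos i
  have hD0 : 0 ≤ D := by rw [hD]; positivity
  have htail : volume (⋃ k : ℕ, {x : ℝ | pt s z x ∈ W (i + 1 + k)}) ≤ ENNReal.ofReal D := by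
    calc volume (⋃ k : ℕ, {x : ℝ | pt s z x ∈ W (i + 1 + k)})
        ≤ ∑' k : ℕ, volume {x : ℝ | pt s z x ∈ W (i + 1 + k)} := measure_iUnion_le _
      _ ≤ ∑' k : ℕ, ENNReal.ofReal (D / 2 / 2 ^ k) := by
          apply ENNReal.tsum_le_tsum
          intro k
          refine (hC (i + 1 + k) (by omega)).trans (ENNReal.ofReal_le_ofReal ?_)
          have h1 := h.εη i (i + 1 + k) (by omega)
          calc C * ε (i + 1 + k) ≤ C * ((1 / 2) ^ (i + 1 + k) * η i) :=
                mul_le_mul_of_nonneg_left h1 hC0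
            _ = D / 2 / 2 ^ k := by
                rw [hD, pow_add, pow_add, one_div_pow 2 k]
                field_simp
      _ = ENNReal.ofReal (∑' k : ℕ, D / 2 / 2 ^ k) :=
          (ENNReal.ofReal_tsum_of_nonneg (fun n => by positivity)
            (hasSum_geometric_two' D).summable).symm
      _ = ENNReal.ofReal D := by rw [(hasSum_geometric_two' D).tsum_eq]
  have hup : volume Sf ≤ volume Si + ENNReal.ofReal D :=
    (measure_mono hsub2).trans ((measure_union_le _ _).trans (by gcongr))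
  have hlen' : ENNReal.ofReal r * volume Sf = ENNReal.ofReal t := hlen
  have hfin : volume Sf ≠ ⊤ := by
    intro htop
    rw [htop, ENNReal.mul_top (by simpa using by linarith)] at hlen'
    exact ENNReal.ofReal_ne_top hlen'.symm
  have hfin' : volume Si ≠ ⊤ := ne_top_of_le_ne_top hfin (measure_mono hsub1)
  have hR : r * (volume Sf).toReal = t := by
    have h1 := congrArg ENNReal.toReal hlen'
    rwa [ENNReal.toReal_mul, ENNReal.toReal_ofReal (by linarith),
      ENNReal.toReal_ofReal ht.le] at h1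
  have hle1 : (volume Si).toReal ≤ (volume Sf).toReal :=
    ENNReal.toReal_mono hfin (measure_mono hsub1)
  have hle2 : (volume Sf).toReal ≤ (volume Si).toReal + D := by
    have h1 := ENNReal.toReal_mono (ENNReal.add_ne_top.2 ⟨hfin', ENNReal.ofReal_ne_top⟩) hup
    rwa [ENNReal.toReal_add hfin' ENNReal.ofReal_ne_top, ENNReal.toReal_ofReal hD0] at h1
  have hcov := h.cover i (z.1, z.2 + z.1 * TT j)
  rw [hjj] at hcov
  rw [← hj]
  apply hcov ?_ t' ⟨ht'.1, ht'.2.trans_le ?_⟩ ?_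
  · have hTj := TT_pos j
    have h1 : |z.1| ≤ 1 := abs_le.2 ⟨hz.1, hz.2⟩
    have h2 : |z.2 + z.1 * TT j| ≤ bt j := by
      calc |z.2 + z.1 * TT j| ≤ |z.2| + |z.1 * TT j| := abs_add_le _ _
        _ = |z.2| + |z.1| * TT j := by rw [abs_mul, abs_of_pos hTj]
        _ ≤ TT j + 1 * TT j := by gcongr
        _ = bt j := by unfold bt; ring
    exact ⟨hz, abs_le.1 h2⟩
  · have : (n:ℝ) ≤ i := by exact_mod_cast hni'
    linarith
  · rw [Fr_eq hpj]
    change |r * (volume Si).toReal - t'| ≤ η i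
    have h3 : D * 4 ≤ η i := by
      have h4 : (1 / 2 : ℝ) ^ i ≤ (1 / 2) ^ n :=
        pow_le_pow_of_le_one (by norm_num) (by norm_num) hni'
      have h5 : 4 * C * (1 / 2 : ℝ) ^ i ≤ 1 :=
        le_trans (mul_le_mul_of_nonneg_left h4 (by positivity)) hn
      rw [hD]
      nlinarith
    obtain ⟨h6, h7⟩ := abs_le.1 htt'
    have h8 : r * (volume Si).toReal ≤ t := by nlinarith
    have h9 : t ≤ r * (volume Si).toReal + 2 * D := by nlinarith
    rw [abs_le]
    constructor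
    · linarith
    · linarith

end Pool.Agent.KS6_47.CR.GB2
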