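import Pool.Agent.KS6_47.CR.Stm

set_option autoImplicit false
open MeasureTheory Set Filter Topology
open scoped ENNReal NNReal Real

namespace Pool.Agent.KS6_47.CR.H

theorem dist_toPl (p p' : P2) :
    dist (toPl p) (toPl p') = √((p.1 - p'.1) ^ 2 + (p.2 - p'.2) ^ 2) := by
  rw [EuclideanSpace.dist_eq]
  simp [toPl, Fin.sum_univ_two, Real.dist_eq, sq_abs]

theorem dist_pt (s : Bool) (z : P2) (x y : ℝ) :
    dist (toPl (pt s z x)) (toPl (pt s z y)) = √(1 + z.1 ^ 2) * dist x y := by
  rw [dist_toPl]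
  have h1 : ((pt s z x).1 - (pt s z y).1) ^ 2 + ((pt s z x).2 - (pt s z y).2) ^ 2 =
      (1 + z.1 ^ 2) * (x - y) ^ 2 := by
    cases s <;> simp [pt, q] <;> ring
  rw [h1, Real.sqrt_mul (by positivity), Real.sqrt_sq_eq_abs, Real.dist_eq]

theorem h1 : StmHaus := by
  intro s z A
  set X : Set ℝ := {x : ℝ | pt s z x ∈ A} with hX
  set g : ℝ → Plane := fun x => toPl (pt s z x) with hg
  have himg : toPl '' (ln s z ∩ A) = g '' X := by
    ext w
    constructor
    · rintro ⟨p, ⟨⟨x, rfl⟩, hp⟩, rfl⟩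
      exact ⟨x, hp, rfl⟩
    · rintro ⟨x, hx, rfl⟩
      exact ⟨pt s z x, ⟨⟨x, rfl⟩, hx⟩, rfl⟩
  have hc0 : 0 < √(1 + z.1 ^ 2) := Real.sqrt_pos.2 (by positivity)
  set c : ℝ≥0 := Real.toNNReal (√(1 + z.1 ^ 2)) with hc
  have hcc : (c : ℝ) = √(1 + z.1 ^ 2) := Real.coe_toNNReal _ hc0.le
  have hcne : c ≠ 0 := by
    intro h0
    rw [h0] at hcc
    simp only [NNReal.coe_zero] at hcc
    linarith
  have hL : LipschitzWith c g := LipschitzWith.of_dist_le_mul fun x y => by
    rw [hg, dist_pt, hcc]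
  have hA : AntilipschitzWith c⁻¹ g := AntilipschitzWith.of_le_mul_dist fun x y => by
    rw [hg, dist_pt, NNReal.coe_inv, hcc, ← mul_assoc, inv_mul_cancel₀ hc0.ne', one_mul]
  have hup := hL.hausdorffMeasure_image_le (d := 1) zero_le_one X
  have hlo := hA.le_hausdorffMeasure_image (d := 1) zero_le_one X
  rw [ENNReal.rpow_one, hausdorffMeasure_real] at hup hlo
  have hlen : len s z A = (c : ℝ≥0∞) * volume X := rfl
  rw [himg, hlen]
  apply le_antisymm hup
  have hcE : (c : ℝ≥0∞) ≠ 0 := by exact_mod_cast hcne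
  calc (c : ℝ≥0∞) * volume X ≤ (c : ℝ≥0∞) * (((c⁻¹ : ℝ≥0) : ℝ≥0∞) * μH[1] (g '' X)) := by
        gcongr
    _ = μH[1] (g '' X) := by
        rw [← mul_assoc, ENNReal.coe_inv hcne, ENNReal.mul_inv_cancel hcE ENNReal.coe_ne_top,
          one_mul]

theorem h2 : StmLine := by
  intro θ p hθ
  have hn : θ 0 ^ 2 + θ 1 ^ 2 = 1 := by
    have h1 := EuclideanSpace.norm_sq_eq θ
    rw [hθ, Fin.sum_univ_two] at h1
    simp only [Real.norm_eq_abs, sq_abs] at h1
    linarith
  have hin : ∀ x : Plane, inner ℝ x θ = x 0 * θ 0 + x 1 * θ 1 := by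
    intro x
    simp [PiLp.inner_apply, Fin.sum_univ_two, mul_comm]
  by_cases hc : |θ 0| ≤ |θ 1|
  · have h0 : θ 1 ≠ 0 := by
      intro h0
      rw [h0, abs_zero] at hc
      have h2 : θ 0 = 0 := abs_eq_zero.1 (le_antisymm hc (abs_nonneg _))
      rw [h0, h2] at hn
      norm_num at hn
    refine ⟨false, (-(θ 0) / θ 1, p / θ 1), ?_, ?_⟩
    · have h2 : |-(θ 0) / θ 1| ≤ 1 := by
        rw [abs_div, abs_neg]
        exact div_le_one_of_le₀ hc (abs_nonneg _)
      exact abs_le.1 h2
    · ext w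
      simp only [Set.mem_ofPred_eq, hin, mem_image, ln, mem_range, exists_exists_eq_and]
      constructor
      · intro hw
        refine ⟨w 0, ?_⟩
        have h3 : q (w 0) (-(θ 0) / θ 1, p / θ 1) = w 1 := by
          simp only [q]
          field_simp
          linarith
        ext i
        fin_cases i
        · simp [toPl, pt]
        · simp [toPl, pt, h3]
      · rintro ⟨x, rfl⟩
        simp only [toPl, pt, q]
        simp
        field_simp
        ring
  · have hc' : |θ 1| ≤ |θ 0| := (not_le.1 hc).le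
    have h0 : θ 0 ≠ 0 := by
      intro h0
      rw [h0, abs_zero] at hc'
      have h2 : θ 1 = 0 := abs_eq_zero.1 (le_antisymm hc' (abs_nonneg _))
      rw [h0, h2] at hn
      norm_num at hn
    refine ⟨true, (-(θ 1) / θ 0, p / θ 0), ?_, ?_⟩
    · have h2 : |-(θ 1) / θ 0| ≤ 1 := by
        rw [abs_div, abs_neg]
        exact div_le_one_of_le₀ hc' (abs_nonneg _)
      exact abs_le.1 h2
    · ext w
      simp only [Set.mem_ofPred_eq, hin, mem_image, ln, mem_range, exists_exists_eq_and]
      constructor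
      · intro hw
        refine ⟨w 1, ?_⟩
        have h3 : q (w 1) (-(θ 1) / θ 0, p / θ 0) = w 0 := by
          simp only [q]
          field_simp
          linarith
        ext i
        fin_cases i
        · simp [toPl, pt, h3]
        · simp [toPl, pt]
      · rintro ⟨x, rfl⟩
        simp only [toPl, pt, q]
        simp
        field_simp
        ring

/-- `toPl` as a measurable equivalence -/
noncomputable def eqv : P2 ≃ᵐ Plane :=
  (MeasurableEquiv.finTwoArrow (α := ℝ)).symm.trans (MeasurableEquiv.toLp 2 (Fin 2 → ℝ))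

theorem eqv_apply (p : P2) : eqv p = toPl p := rfl

theorem eqv_mp : MeasurePreserving eqv :=
  (volume_preserving_finTwoArrow ℝ).symm.trans
    (EuclideanSpace.volume_preserving_symm_measurableEquiv_toLp (Fin 2)).symm

theorem h3 : StmPl := by
  have he : (eqv : P2 → Plane) = toPl := funext eqv_apply
  refine ⟨he ▸ eqv.bijective, fun A => ?_, fun A hA => ?_⟩
  · rw [← he, MeasurableEquiv.image_eq_preimage_symm]
    exact (eqv_mp.symm eqv).measure_preimage_equiv A
  · rw [← he]
    exact eqv.measurableSet_image.2 hA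

end Pool.Agent.KS6_47.CR.H
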