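import Pool.Agent.KS6_47.CR.Stm

set_option autoImplicit false
open MeasureTheory Set Filter Topology
open scoped ENNReal NNReal Real

namespace Pool.Agent.KS6_47.CR.K

section

variable {Ω : Type} [MeasurableSpace Ω] {μ : Measure Ω} [IsFiniteMeasure μ]

lemma bint {f : Ω → ℝ} (hf : Measurable f) {C : ℝ} (hC : ∀ ω, |f ω| ≤ C) (s : Set Ω) :
    IntegrableOn f s μ := by
  refine Integrable.of_bound hf.aestronglyMeasurable C (ae_of_all _ fun ω => ?_)
  rw [Real.norm_eq_abs]; exact hC ω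

lemma bd {G M₀ : ℝ} (_hG : 0 < G) {Y ξ : ℕ → Ω → ℝ} {c : ℕ → ℝ}
    (hxu : ∀ n ω, |ξ n ω| ≤ 2 * G) (hc : ∀ n, |c n| ≤ 1)
    (hY : ∀ n ω, Y (n + 1) ω = Y n ω + c n * ξ n ω) (h0 : ∀ ω, |Y 0 ω| ≤ M₀) (n : ℕ) (ω : Ω) :
    |Y n ω| ≤ M₀ + 2 * G * n := by
  induction n with
  | zero => simpa using h0 ω
  | succ n ih =>
    rw [hY]
    have h1 : |c n * ξ n ω| ≤ 2 * G := by
      rw [abs_mul]
      calc |c n| * |ξ n ω| ≤ 1 * (2 * G) :=
            mul_le_mul (hc n) (hxu n ω) (abs_nonneg _) zero_le_one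
        _ = 2 * G := one_mul _
    calc |Y n ω + c n * ξ n ω| ≤ |Y n ω| + |c n * ξ n ω| := abs_add_le _ _
      _ ≤ (M₀ + 2 * G * n) + 2 * G := add_le_add ih h1
      _ = M₀ + 2 * G * ((n + 1 : ℕ) : ℝ) := by push_cast; ring

lemma measAL (G : ℝ) {Y₁ Y₂ : ℕ → Ω → ℝ} (h1 : ∀ n, Measurable (Y₁ n))
    (h2 : ∀ n, Measurable (Y₂ n)) (n : ℕ) : MeasurableSet (AL G Y₁ Y₂ n) := by
  have : AL G Y₁ Y₂ n = ⋂ j, ⋂ (_ : j ≤ n), ({ω | 3 * G < Y₁ j ω} ∩ {ω | 3 * G < Y₂ j ω}) := by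
    ext ω; simp [AL]
  rw [this]
  refine MeasurableSet.iInter fun j => MeasurableSet.iInter fun _ => ?_
  exact (measurableSet_lt measurable_const (h1 j)).inter (measurableSet_lt measurable_const (h2 j))

lemma AL_anti (G : ℝ) (Y₁ Y₂ : ℕ → Ω → ℝ) {a b : ℕ} (hab : a ≤ b) :
    AL G Y₁ Y₂ b ⊆ AL G Y₁ Y₂ a := fun _ h j hj => h j (hj.trans hab)

end

theorem k1 : StmKill := by
  intro Ω _ μ _ G M₀ M e κ σ m p r Y₁ Y₂ ξ c₁ c₂ hG hM0 he hκ hσ hM hm1 hm2 hmx hxl hxu hc1 hc2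
    hY1 hY2 h01 h02 hw1 hw2 hpr hr hblock hsm
  have hb1 := bd hG hxu hc1 hY1 h01
  have hb2 := bd hG hxu hc2 hY2 h02
  have hmA := measAL G hm1 hm2
  have hA : ∀ {a b : ℕ}, a ≤ b → AL G Y₁ Y₂ b ⊆ AL G Y₁ Y₂ a := fun h => AL_anti G Y₁ Y₂ h
  have hMp : 0 ≤ M := by rw [hM]; positivity
  have hcx : ∀ (c : ℕ → ℝ), (∀ n, |c n| ≤ 1) → ∀ n ω, |c n * ξ n ω| ≤ 2 * G := by
    intro c hc n ω
    rw [abs_mul]
    calc |c n| * |ξ n ω| ≤ 1 * (2 * G) :=
          mul_le_mul (hc n) (hxu n ω) (abs_nonneg _) zero_le_one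
      _ = 2 * G := one_mul _
  -- values on the alive set
  have hp1 : ∀ n, ∀ ω ∈ AL G Y₁ Y₂ n, 0 < Y₁ (n + 1) ω := by
    intro n ω hω
    have h1 := (hω n le_rfl).1
    have h2 := (abs_le.mp (hcx c₁ hc1 n ω)).1
    rw [hY1]; linarith
  have hp2 : ∀ n, ∀ ω ∈ AL G Y₁ Y₂ n, 0 < Y₂ (n + 1) ω := by
    intro n ω hω
    have h1 := (hω n le_rfl).2
    have h2 := (abs_le.mp (hcx c₂ hc2 n ω)).1
    rw [hY2]; linarith
  -- integrability
  have hI1 : ∀ n s, IntegrableOn (Y₁ n) s μ := fun n s => bint (hm1 n) (hb1 n) s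
  have hI2 : ∀ n s, IntegrableOn (Y₂ n) s μ := fun n s => bint (hm2 n) (hb2 n) s
  have hI12 : ∀ n s, IntegrableOn (fun ω => Y₁ n ω * Y₂ n ω) s μ := by
    intro n s
    refine bint ((hm1 n).mul (hm2 n)) (C := (M₀ + 2 * G * n) * (M₀ + 2 * G * n)) (fun ω => ?_) s
    rw [Pi.mul_apply, abs_mul]
    exact mul_le_mul (hb1 n ω) (hb2 n ω) (abs_nonneg _) (by positivity)
  have hIx : ∀ n s, IntegrableOn (ξ n) s μ := fun n s => bint (hmx n) (hxu n) s
  have hIxy : ∀ n s, IntegrableOn (fun ω => ξ n ω * (c₂ n * Y₁ n ω + c₁ n * Y₂ n ω)) s μ := by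
    intro n s
    refine bint ((hmx n).mul (((hm1 n).const_mul _).add ((hm2 n).const_mul _)))
      (C := (2 * G) * (2 * (M₀ + 2 * G * n))) (fun ω => ?_) s
    rw [Pi.mul_apply, abs_mul]
    refine mul_le_mul (hxu n ω) ?_ (abs_nonneg _) (by positivity)
    rw [Pi.add_apply]
    have h1 : |c₂ n * Y₁ n ω| ≤ M₀ + 2 * G * n := by
      rw [abs_mul]
      calc |c₂ n| * |Y₁ n ω| ≤ 1 * (M₀ + 2 * G * n) :=
            mul_le_mul (hc2 n) (hb1 n ω) (abs_nonneg _) zero_le_one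
        _ = _ := one_mul _
    have h2 : |c₁ n * Y₂ n ω| ≤ M₀ + 2 * G * n := by
      rw [abs_mul]
      calc |c₁ n| * |Y₂ n ω| ≤ 1 * (M₀ + 2 * G * n) :=
            mul_le_mul (hc1 n) (hb2 n ω) (abs_nonneg _) zero_le_one
        _ = _ := one_mul _
    calc |c₂ n * Y₁ n ω + c₁ n * Y₂ n ω| ≤ |c₂ n * Y₁ n ω| + |c₁ n * Y₂ n ω| := abs_add_le _ _
      _ ≤ _ := by linarith
  -- the product functional
  set Pi : ℕ → ℝ := fun n => ∫ ω in AL G Y₁ Y₂ n, Y₁ n ω * Y₂ n ω ∂μ with hPi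
  have hPi0 : ∀ n, 0 ≤ Pi n := by
    intro n
    refine setIntegral_nonneg (hmA n) fun ω hω => ?_
    have h1 := hω n le_rfl
    exact mul_nonneg (by linarith [h1.1]) (by linarith [h1.2])
  have hstep : ∀ n, p ≤ n → n < p + r →
      Pi (n + 1) ≤ Pi n + e - κ * (G ^ 2 / 4) * μ.real (AL G Y₁ Y₂ n) := by
    intro n hn1 hn2
    have h1 : Pi (n + 1) ≤ ∫ ω in AL G Y₁ Y₂ n, Y₁ (n + 1) ω * Y₂ (n + 1) ω ∂μ := by
      refine setIntegral_mono_set (hI12 (n + 1) _) ?_ (hA (Nat.le_succ n)).eventuallyLE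
      filter_upwards [ae_restrict_mem (hmA n)] with ω hω
      exact mul_nonneg (hp1 n ω hω).le (hp2 n ω hω).le
    have h2 : ∫ ω in AL G Y₁ Y₂ n, Y₁ (n + 1) ω * Y₂ (n + 1) ω ∂μ ≤
        ∫ ω in AL G Y₁ Y₂ n, ((Y₁ n ω * Y₂ n ω + ξ n ω * (c₂ n * Y₁ n ω + c₁ n * Y₂ n ω)) +
          (-(κ * (G ^ 2 / 4)))) ∂μ := by
      refine setIntegral_mono_on (hI12 (n + 1) _)
        (((hI12 n _).add (hIxy n _)).add (integrableOn_const (measure_ne_top _ _))) (hmA n)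
        fun ω _ => ?_
      have h3 : (G / 2) ^ 2 ≤ (ξ n ω) ^ 2 := by
        rw [← sq_abs (ξ n ω)]
        exact pow_le_pow_left₀ (by positivity) (hxl n ω) 2
      have h4 := (hblock n hn1 hn2).1
      have h5 : c₁ n * c₂ n * (ξ n ω) ^ 2 ≤ -(κ * (G ^ 2 / 4)) := by
        have h6 : c₁ n * c₂ n * (ξ n ω) ^ 2 ≤ -κ * (ξ n ω) ^ 2 :=
          mul_le_mul_of_nonneg_right h4 (sq_nonneg _)
        have h7 : κ * (G / 2) ^ 2 ≤ κ * (ξ n ω) ^ 2 := mul_le_mul_of_nonneg_left h3 hκ.le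
        nlinarith
      rw [hY1, hY2]
      nlinarith
    have h3 : ∫ ω in AL G Y₁ Y₂ n, ((Y₁ n ω * Y₂ n ω + ξ n ω * (c₂ n * Y₁ n ω + c₁ n * Y₂ n ω)) +
          (-(κ * (G ^ 2 / 4)))) ∂μ = Pi n +
          (∫ ω in AL G Y₁ Y₂ n, ξ n ω * (c₂ n * Y₁ n ω + c₁ n * Y₂ n ω) ∂μ) -
          κ * (G ^ 2 / 4) * μ.real (AL G Y₁ Y₂ n) := by
      have hI3 : IntegrableOn (fun ω => Y₁ n ω * Y₂ n ω +
          ξ n ω * (c₂ n * Y₁ n ω + c₁ n * Y₂ n ω)) (AL G Y₁ Y₂ n) μ := (hI12 n _).add (hIxy n _)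
      rw [integral_add hI3 (integrableOn_const (measure_ne_top _ _)),
        integral_add (hI12 n _) (hIxy n _)]
      simp only [integral_const, smul_eq_mul, hPi]
      rw [measureReal_restrict_apply_univ]
      ring
    have h4 := (abs_le.mp (hw2 n (by omega))).2
    linarith
  -- summation over the block
  set A := AL G Y₁ Y₂ (p + r) with hAdef
  have hsum : ∀ i, i ≤ r → Pi (p + i) ≤ Pi p + i * e - κ * (G ^ 2 / 4) * i * μ.real A := by
    intro i hi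
    induction i with
    | zero => simp
    | succ i ih =>
      have h1 := ih (by omega)
      have h2 := hstep (p + i) (by omega) (by omega)
      have h3 : μ.real A ≤ μ.real (AL G Y₁ Y₂ (p + i)) :=
        measureReal_mono (hA (by omega)) (measure_ne_top _ _)
      have h4 : κ * (G ^ 2 / 4) * μ.real A ≤ κ * (G ^ 2 / 4) * μ.real (AL G Y₁ Y₂ (p + i)) :=
        mul_le_mul_of_nonneg_left h3 (by positivity)
      have e1 : p + (i + 1) = p + i + 1 := by ring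
      rw [e1]
      push_cast
      nlinarith
  have hPip : Pi p ≤ M ^ 2 * μ.real univ := by
    have h1 : Pi p ≤ ∫ ω in AL G Y₁ Y₂ p, M ^ 2 ∂μ := by
      refine setIntegral_mono_on (hI12 p _) (integrableOn_const (measure_ne_top _ _)) (hmA p)
        fun ω hω => ?_
      have h2 := hω p le_rfl
      have h3 := (abs_le.mp (hb1 p ω)).2
      have h4 := (abs_le.mp (hb2 p ω)).2
      rw [← hM] at h3 h4
      calc Y₁ p ω * Y₂ p ω ≤ M * M := mul_le_mul h3 h4 (by linarith [h2.2]) hMp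
        _ = M ^ 2 := by ring
    refine h1.trans ?_
    simp only [integral_const, smul_eq_mul]
    rw [measureReal_restrict_apply_univ, mul_comm]
    exact mul_le_mul_of_nonneg_left (measureReal_mono (subset_univ _) (measure_ne_top _ _))
      (sq_nonneg _)
  have hrpos : (0 : ℝ) < r := by exact_mod_cast hr
  have hmu : μ.real A ≤ 4 * (M ^ 2 * μ.real univ + r * e) / (κ * G ^ 2 * r) := by
    rw [le_div_iff₀ (by positivity)]
    have h1 := hsum r le_rfl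
    have h2 := hPi0 (p + r)
    nlinarith
  -- the sum at the end of the block
  have hs : ∀ i, i ≤ r → ∀ ω, Y₁ (p + i) ω + Y₂ (p + i) ω ≤ 2 * M + 2 * G * σ * i := by
    intro i hi ω
    induction i with
    | zero =>
      have h3 := (abs_le.mp (hb1 p ω)).2
      have h4 := (abs_le.mp (hb2 p ω)).2
      rw [← hM] at h3 h4
      simp only [Nat.cast_zero, mul_zero, add_zero]
      linarith
    | succ i ih =>
      have h1 := ih (by omega)
      have h2 := (hblock (p + i) (by omega) (by omega)).2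
      have e1 : p + (i + 1) = p + i + 1 := by ring
      rw [e1, hY1, hY2]
      have h3 : (c₁ (p + i) + c₂ (p + i)) * ξ (p + i) ω ≤ σ * (2 * G) := by
        refine (le_abs_self _).trans ?_
        rw [abs_mul]
        exact mul_le_mul h2 (hxu _ ω) (abs_nonneg _) hσ
      push_cast
      nlinarith
  have hL1 : ∫ ω in A, (Y₁ (p + r) ω + Y₂ (p + r) ω) ∂μ ≤ (2 * M + 1) * μ.real A := by
    have h1 : ∫ ω in A, (Y₁ (p + r) ω + Y₂ (p + r) ω) ∂μ ≤ ∫ _ in A, (2 * M + 1) ∂μ := by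
      refine setIntegral_mono_on ((hI1 _ _).add (hI2 _ _))
        (integrableOn_const (measure_ne_top _ _)) (hmA _) fun ω _ => ?_
      have h2 := hs r le_rfl ω
      linarith
    refine h1.trans (le_of_eq ?_)
    simp only [integral_const, smul_eq_mul]
    rw [measureReal_restrict_apply_univ, mul_comm]
  -- after the block
  have hL2 : ∀ i, p + r + i ≤ m →
      ∫ ω in AL G Y₁ Y₂ (p + r + i), (Y₁ (p + r + i) ω + Y₂ (p + r + i) ω) ∂μ ≤
        (∫ ω in A, (Y₁ (p + r) ω + Y₂ (p + r) ω) ∂μ) + 2 * i * e := by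
    intro i hi
    induction i with
    | zero => simp [hAdef]
    | succ i ih =>
      have h1 := ih (by omega)
      set n := p + r + i with hn
      have e1 : p + r + (i + 1) = n + 1 := by omega
      rw [e1]
      have h2 : ∫ ω in AL G Y₁ Y₂ (n + 1), (Y₁ (n + 1) ω + Y₂ (n + 1) ω) ∂μ ≤
          ∫ ω in AL G Y₁ Y₂ n, (Y₁ (n + 1) ω + Y₂ (n + 1) ω) ∂μ := by
        refine setIntegral_mono_set ((hI1 _ _).add (hI2 _ _)) ?_ (hA (Nat.le_succ n)).eventuallyLE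
        filter_upwards [ae_restrict_mem (hmA n)] with ω hω
        exact add_nonneg (hp1 n ω hω).le (hp2 n ω hω).le
      have h3 : ∫ ω in AL G Y₁ Y₂ n, (Y₁ (n + 1) ω + Y₂ (n + 1) ω) ∂μ =
          (∫ ω in AL G Y₁ Y₂ n, (Y₁ n ω + Y₂ n ω) ∂μ) +
            (c₁ n + c₂ n) * ∫ ω in AL G Y₁ Y₂ n, ξ n ω ∂μ := by
        have hI3 : IntegrableOn (fun ω => Y₁ n ω + Y₂ n ω) (AL G Y₁ Y₂ n) μ :=
          (hI1 n _).add (hI2 n _)
        rw [← integral_const_mul, ← integral_add hI3 ((hIx n _).const_mul _)]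
        refine integral_congr_ae (ae_of_all _ fun ω => ?_)
        simp only [hY1, hY2]
        ring
      have h4 : (c₁ n + c₂ n) * ∫ ω in AL G Y₁ Y₂ n, ξ n ω ∂μ ≤ 2 * e := by
        refine (le_abs_self _).trans ?_
        rw [abs_mul]
        refine mul_le_mul ?_ (hw1 n (by omega)) (abs_nonneg _) (by norm_num)
        calc |c₁ n + c₂ n| ≤ |c₁ n| + |c₂ n| := abs_add_le _ _
          _ ≤ 1 + 1 := add_le_add (hc1 n) (hc2 n)
          _ = 2 := by norm_num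
      push_cast
      nlinarith
  obtain ⟨i, rfl⟩ := Nat.exists_eq_add_of_le hpr
  have h5 := hL2 i le_rfl
  have h6 : (2 * M + 1) * μ.real A ≤
      (2 * M + 1) * (4 * (M ^ 2 * μ.real univ + r * e) / (κ * G ^ 2 * r)) :=
    mul_le_mul_of_nonneg_left hmu (by linarith)
  have h7 : 2 * (i : ℝ) * e ≤ 2 * ((p + r + i : ℕ) : ℝ) * e := by
    refine mul_le_mul_of_nonneg_right ?_ he
    push_cast
    have : (0 : ℝ) ≤ p := Nat.cast_nonneg _
    linarith
  linarith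

end Pool.Agent.KS6_47.CR.K
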