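import Pool.Agent.KS6_47.CR.Stm

set_option autoImplicit false
open MeasureTheory Set Filter Topology
open scoped ENNReal NNReal Real

namespace Pool.Agent.KS6_47.CR.N

open Pool.Agent.KS6_47.CR

/-- a convex subset of the window of measure at least a quarter contains a grid interval -/
theorem grid (S : Set ℝ) (hS : S.OrdConnected) (hSI : S ⊆ Icc 0 1) (hv : 1 / 4 ≤ volume S) :
    ∃ k : ℕ, k < 10 ∧ (k : ℝ) / 10 ∈ S ∧ ((k : ℝ) + 1) / 10 ∈ S := by
  have hne : S.Nonempty := by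
    by_contra h
    rw [Set.not_nonempty_iff_eq_empty] at h
    rw [h, measure_empty] at hv
    have : (0 : ℝ≥0∞) < 1 / 4 := by
      rw [ENNReal.div_pos_iff]; exact ⟨one_ne_zero, by norm_num⟩
    exact absurd hv (not_le.2 this)
  have hbb : BddBelow S := ⟨0, fun x hx => (hSI hx).1⟩
  have hba : BddAbove S := ⟨1, fun x hx => (hSI hx).2⟩
  obtain ⟨a, ha⟩ : ∃ a, a = sInf S := ⟨_, rfl⟩
  obtain ⟨b, hb⟩ : ∃ b, b = sSup S := ⟨_, rfl⟩
  have hSab : S ⊆ Icc a b := fun x hx => ⟨by rw [ha]; exact csInf_le hbb hx, by rw [hb]; exact le_csSup hba hx⟩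
  have hab : 1 / 4 ≤ b - a := by
    have h1 := hv.trans (measure_mono hSab)
    rw [Real.volume_Icc] at h1
    by_contra hcon
    push Not at hcon
    have h2 : ENNReal.ofReal (b - a) < ENNReal.ofReal (1 / 4) :=
      (ENNReal.ofReal_lt_ofReal_iff (by norm_num)).2 hcon
    have h3 : ENNReal.ofReal (1 / 4) = 1 / 4 := by
      rw [ENNReal.ofReal_div_of_pos (by norm_num)]
      simp
    rw [h3] at h2
    exact absurd h1 (not_le.2 h2)
  have ha0 : 0 ≤ a := by rw [ha]; exact le_csInf hne (fun x hx => (hSI hx).1)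
  have hb1 : b ≤ 1 := by rw [hb]; exact csSup_le hne (fun x hx => (hSI hx).2)
  have hIoo : ∀ x, a < x → x < b → x ∈ S := by
    intro x h1 h2
    obtain ⟨y, hy, hyx⟩ := exists_lt_of_csInf_lt hne (by rw [← ha]; exact h1)
    obtain ⟨w, hw, hxw⟩ := exists_lt_of_lt_csSup hne (by rw [← hb]; exact h2)
    exact hS.out hy hw ⟨hyx.le, hxw.le⟩
  obtain ⟨k, hk⟩ : ∃ k, k = ⌊10 * a⌋₊ + 1 := ⟨_, rfl⟩
  have h1 : 10 * a < k := by
    rw [hk]; push_cast; exact Nat.lt_floor_add_one _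
  have h2 : (k : ℝ) ≤ 10 * a + 1 := by
    rw [hk]; push_cast
    have := Nat.floor_le (show 0 ≤ 10 * a by positivity)
    linarith
  have h3 : (k : ℝ) / 10 ∈ S := hIoo _ (by linarith) (by linarith)
  have h4 : ((k : ℝ) + 1) / 10 ∈ S := hIoo _ (by linarith) (by linarith)
  refine ⟨k, ?_, h3, h4⟩
  have h5 : (k : ℝ) < 10 := by linarith
  exact_mod_cast h5

theorem n1 : StmNever := by
  intro G m P R hG hstep hv
  obtain ⟨Xp, hXp⟩ : ∃ Xp : Set ℝ, Xp = {x : ℝ | x ∈ Icc (0:ℝ) 1 ∧ ∀ n ≤ m, 3 * G < 1 * (P n - x * R n)} :=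
    ⟨_, rfl⟩
  obtain ⟨Xm, hXm⟩ : ∃ Xm : Set ℝ, Xm = {x : ℝ | x ∈ Icc (0:ℝ) 1 ∧ ∀ n ≤ m, 3 * G < (-1) * (P n - x * R n)} :=
    ⟨_, rfl⟩
  have hcover : {x : ℝ | x ∈ Icc (0:ℝ) 1 ∧ ∀ n ≤ m, 3 * G < |P n - x * R n|} ⊆ Xp ∪ Xm := by
    rintro x ⟨hx, h⟩
    rcases le_or_gt 0 (P 0 - x * R 0) with h0 | h0
    · left
      rw [hXp]
      refine ⟨hx, ?_⟩
      intro n
      induction n with
      | zero =>
        intro hn
        have := h 0 hn
        rw [abs_of_nonneg h0] at this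
        linarith
      | succ n ih =>
        intro hn
        have h1 := ih (by omega)
        have h2 := (abs_le.1 (hstep n (by omega) x hx)).1
        have h3 := h (n + 1) hn
        rw [abs_of_nonneg (by linarith)] at h3
        linarith
    · right
      rw [hXm]
      refine ⟨hx, ?_⟩
      intro n
      induction n with
      | zero =>
        intro hn
        have := h 0 hn
        rw [abs_of_neg h0] at this
        linarith
      | succ n ih =>
        intro hn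
        have h1 := ih (by omega)
        have h2 := (abs_le.1 (hstep n (by omega) x hx)).2
        have h3 := h (n + 1) hn
        rw [abs_of_neg (by linarith)] at h3
        linarith
  have hsum := hv.trans ((measure_mono hcover).trans (measure_union_le _ _))
  have hor : 1 / 4 ≤ volume Xp ∨ 1 / 4 ≤ volume Xm := by
    by_contra hcon
    push Not at hcon
    have h1 : volume Xp + volume Xm < 1 / 4 + 1 / 4 := ENNReal.add_lt_add hcon.1 hcon.2
    have h2 : (1 / 4 : ℝ≥0∞) + 1 / 4 = 1 / 2 := by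
      rw [ENNReal.div_add_div_same, ENNReal.div_eq_div_iff (by norm_num) (by norm_num) (by norm_num)
        (by norm_num)]
      norm_num
    rw [h2] at h1
    exact absurd hsum (not_le.2 h1)
  have hoc : ∀ sg : ℝ, ({x : ℝ | x ∈ Icc (0:ℝ) 1 ∧ ∀ n ≤ m, 3 * G < sg * (P n - x * R n)}).OrdConnected := by
    intro sg
    refine ⟨?_⟩
    rintro x ⟨hx, hx'⟩ y ⟨hy, hy'⟩ w ⟨hw1, hw2⟩
    refine ⟨⟨hx.1.trans hw1, hw2.trans hy.2⟩, fun n hn => ?_⟩
    have h1 := hx' n hn
    have h2 := hy' n hn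
    rcases le_or_gt 0 (sg * R n) with h0 | h0
    · nlinarith
    · nlinarith
  rcases hor with h | h
  · rw [hXp] at h
    obtain ⟨k, hk, h1, h2⟩ := grid _ (hoc 1) (fun x hx => hx.1) h
    exact ⟨k, hk, 1, Or.inl rfl, fun n hn => ⟨h1.2 n hn, h2.2 n hn⟩⟩
  · rw [hXm] at h
    obtain ⟨k, hk, h1, h2⟩ := grid _ (hoc (-1)) (fun x hx => hx.1) h
    exact ⟨k, hk, -1, Or.inr rfl, fun n hn => ⟨h1.2 n hn, h2.2 n hn⟩⟩

end Pool.Agent.KS6_47.CR.N
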