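import Pool.Agent.KS6_47.CR.Stm

set_option autoImplicit false
open MeasureTheory Set Filter Topology
open scoped ENNReal NNReal Real

namespace Pool.Agent.KS6_47.CR.S3

lemma graph_null (g : ℝ → ℝ) (hg : Measurable g) : volume {z : P2 | z.2 = g z.1} = 0 := by
  have hm : MeasurableSet {z : P2 | z.2 = g z.1} :=
    measurableSet_eq_fun measurable_snd (hg.comp measurable_fst)
  rw [Measure.volume_eq_prod, Measure.measure_prod_null hm]
  refine ae_of_all _ fun x => ?_
  have : Prod.mk x ⁻¹' {z : P2 | z.2 = g z.1} = {g x} := by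
    ext y; simp
  show volume (Prod.mk x ⁻¹' {z : P2 | z.2 = g z.1}) = 0
  rw [this]
  simp

lemma vert_null (c : ℝ) : volume {z : P2 | z.1 = c} = 0 := by
  have h : {z : P2 | z.1 = c} = ({c} : Set ℝ) ×ˢ (univ : Set ℝ) := by
    ext z; simp
  rw [h, Measure.volume_eq_prod, Measure.prod_prod]
  simp

/-- the generic computation of the derivative -/
lemma deriv_calc {u G l t d : ℝ} {z : P2} (hG : 0 < G) (hG2 : G ≤ 1 / 16) (hl : 0 < l)
    (ht : t = 1 ∨ t = -1) (hz : z.1 ∈ Icc (-1:ℝ) 1)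
    (hev : hh u G l =ᶠ[𝓝 z] fun w =>
      (√(1 + w.1 ^ 2) * (G / (1 - t * w.1 * G))) * (t * (u * w.1 + w.2) + d))
    (h0 : 0 ≤ t * (u * z.1 + z.2) + d) (h1 : t * (u * z.1 + z.2) + d ≤ (1 - t * z.1 * G) * l / 2)
    (hxi : xi u G l z = t * (√(1 + z.1 ^ 2) * (G / (1 - t * z.1 * G)))) :
    DifferentiableAt ℝ (hh u G l) z ∧
      ∀ v : P2, |fderiv ℝ (hh u G l) z v - xi u G l z * (u * v.1 + v.2)| ≤ G * l * |v.1| := by
  set a := z.1 with ha
  have hta : |t * a * G| ≤ 1 / 16 := by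
    rw [abs_mul, abs_mul]
    have h2 : |t| = 1 := by rcases ht with rfl | rfl <;> simp
    rw [h2, one_mul, abs_of_pos hG]
    calc |a| * G ≤ 1 * (1 / 16) := mul_le_mul (abs_le.mpr hz) hG2 hG.le zero_le_one
      _ = 1 / 16 := one_mul _
  have hpos : 15 / 16 ≤ 1 - t * a * G := by
    have := (abs_le.mp hta).2
    linarith
  have hpos' : 0 < 1 - t * a * G := by linarith
  have hsq : 0 < 1 + a ^ 2 := by positivity
  have hD1 : HasDerivAt (fun x : ℝ => √(1 + x ^ 2)) ((2 * a) / (2 * √(1 + a ^ 2))) a := by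
    have h2 : HasDerivAt (fun x : ℝ => 1 + x ^ 2) (2 * a) a := by
      have := (hasDerivAt_pow 2 a).const_add 1
      simpa using this
    exact h2.sqrt hsq.ne'
  have hD2 : HasDerivAt (fun x : ℝ => G / (1 - t * x * G))
      (-(G * (-(t * G))) / (1 - t * a * G) ^ 2) a := by
    have h2 : HasDerivAt (fun x : ℝ => 1 - t * x * G) (-(t * G)) a := by
      have h3 := (((hasDerivAt_id a).const_mul t).mul_const G).const_sub 1
      simpa using h3
    have h3 := (hasDerivAt_const a G).fun_div h2 hpos'.ne'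
    refine h3.congr_deriv ?_
    congr 1
    ring
  have hD := hD1.fun_mul hD2
  set D := (2 * a) / (2 * √(1 + a ^ 2)) * (G / (1 - t * a * G)) +
    √(1 + a ^ 2) * (-(G * (-(t * G))) / (1 - t * a * G) ^ 2) with hDdef
  have hF1 : HasFDerivAt (fun w : P2 => √(1 + w.1 ^ 2) * (G / (1 - t * w.1 * G)))
      (D • ContinuousLinearMap.fst ℝ ℝ ℝ) z := by
    have := HasDerivAt.comp_hasFDerivAt z (f := fun w : P2 => w.1) hD
      (hasFDerivAt_fst (𝕜 := ℝ) (p := z))
    exact this
  have hF2 : HasFDerivAt (fun w : P2 => t * (u * w.1 + w.2) + d)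
      (t • (u • ContinuousLinearMap.fst ℝ ℝ ℝ + ContinuousLinearMap.snd ℝ ℝ ℝ)) z := by
    have h3 : HasFDerivAt (fun w : P2 => u * w.1 + w.2)
        (u • ContinuousLinearMap.fst ℝ ℝ ℝ + ContinuousLinearMap.snd ℝ ℝ ℝ) z :=
      ((hasFDerivAt_fst (𝕜 := ℝ) (p := z)).const_mul u).add (hasFDerivAt_snd (𝕜 := ℝ) (p := z))
    exact (h3.const_mul t).add_const d
  have hF := (hF1.fun_mul hF2).congr_of_eventuallyEq hev
  refine ⟨hF.differentiableAt, fun v => ?_⟩
  rw [hF.fderiv, hxi]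
  simp only [ContinuousLinearMap.add_apply, ContinuousLinearMap.smul_apply,
    ContinuousLinearMap.coe_fst', ContinuousLinearMap.coe_snd', smul_eq_mul]
  set S := √(1 + a ^ 2) with hS
  set ψ := t * (u * a + z.2) + d with hψ
  have e1 : S * (G / (1 - t * a * G)) * (t * (u * v.1 + v.2)) + ψ * (D * v.1) -
      t * (S * (G / (1 - t * a * G))) * (u * v.1 + v.2) = (ψ * D) * v.1 := by ring
  rw [e1, abs_mul]
  refine mul_le_mul_of_nonneg_right ?_ (abs_nonneg _)
  -- bound of the error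
  have hS1 : 1 ≤ S := by
    rw [hS]
    exact Real.one_le_sqrt.mpr (by nlinarith [sq_nonneg a])
  have hS2 : S ≤ 3 / 2 := by
    rw [hS]
    refine Real.sqrt_le_iff.mpr ⟨by norm_num, ?_⟩
    have : a ^ 2 ≤ 1 := by
      have := abs_le.mpr hz
      exact (sq_le_one_iff_abs_le_one a).mpr this
    linarith
  have hψD : |ψ * D| ≤ (1 - t * a * G) * l / 2 * |D| := by
    rw [abs_mul, abs_of_nonneg h0]
    exact mul_le_mul_of_nonneg_right h1 (abs_nonneg _)
  refine hψD.trans ?_
  have hD' : (1 - t * a * G) * |D| ≤ 2 * G := by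
    have h2 : (1 - t * a * G) * D = (a / S) * G + S * (t * G ^ 2 / (1 - t * a * G)) := by
      rw [hDdef]
      have : S ≠ 0 := by positivity
      field_simp
    rw [← abs_of_pos hpos', ← abs_mul, h2]
    have h3 : |a / S * G| ≤ G := by
      rw [abs_mul, abs_of_pos hG, abs_div, abs_of_pos (by linarith : 0 < S)]
      have : |a| / S ≤ 1 := by
        rw [div_le_one (by linarith)]
        exact (abs_le.mpr hz).trans hS1
      calc |a| / S * G ≤ 1 * G := mul_le_mul_of_nonneg_right this hG.le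
        _ = G := one_mul _
    have h4 : |S * (t * G ^ 2 / (1 - t * a * G))| ≤ G := by
      rw [abs_mul, abs_div, abs_mul, abs_of_pos (by linarith : 0 < S), abs_of_pos hpos',
        abs_of_pos (by positivity : 0 < G ^ 2)]
      have h5 : |t| = 1 := by rcases ht with rfl | rfl <;> simp
      rw [h5, one_mul]
      have h6 : G ^ 2 / (1 - t * a * G) ≤ G * (1 / 15) := by
        rw [div_le_iff₀ hpos']
        nlinarith
      calc S * (G ^ 2 / (1 - t * a * G)) ≤ 3 / 2 * (G * (1 / 15)) :=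
            mul_le_mul hS2 h6 (by positivity) (by norm_num)
        _ ≤ G := by linarith
    calc |a / S * G + S * (t * G ^ 2 / (1 - t * a * G))|
        ≤ |a / S * G| + |S * (t * G ^ 2 / (1 - t * a * G))| := abs_add_le _ _
      _ ≤ 2 * G := by linarith
  calc (1 - t * a * G) * l / 2 * |D| = ((1 - t * a * G) * |D|) * (l / 2) := by ring
    _ ≤ (2 * G) * (l / 2) := mul_le_mul_of_nonneg_right hD' (by positivity)
    _ = G * l := by ring

lemma cl_eq {a : ℝ} (h1 : -1 ≤ a) (h2 : a ≤ 1) : cl a = a := by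
  unfold cl
  rw [min_eq_right h2, max_eq_right h1]

theorem s3 : StmGrad := by
  intro u G l hu0 hu1 hG hG2 hl hl1
  have hn1 : ∀ᵐ z : P2, z.1 ≠ 1 := by
    rw [ae_iff]; simpa using vert_null 1
  have hn2 : ∀ᵐ z : P2, z.1 ≠ -1 := by
    rw [ae_iff]; simpa using vert_null (-1)
  have hn3 : ∀ᵐ z : P2, ∀ k : ℤ, z.2 ≠ k * l - u * z.1 := by
    rw [ae_all_iff]
    intro k
    rw [ae_iff]
    simpa using graph_null (fun a => k * l - u * a) (by fun_prop)
  have hn4 : ∀ᵐ z : P2, ∀ k : ℤ, z.2 ≠ (1 - z.1 * G) * l / 2 + k * l - u * z.1 := by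
    rw [ae_all_iff]
    intro k
    rw [ae_iff]
    simpa using graph_null (fun a => (1 - a * G) * l / 2 + k * l - u * a) (by fun_prop)
  filter_upwards [hn1, hn2, hn3, hn4] with z h1 h2 h3 h4 hz
  have hz1 : -1 < z.1 := lt_of_le_of_ne hz.1 (Ne.symm h2)
  have hz2 : z.1 < 1 := lt_of_le_of_ne hz.2 h1
  set k0 : ℤ := ⌊(u * z.1 + z.2) / l⌋ with hk0
  have hk1 : (k0 : ℝ) * l < u * z.1 + z.2 := by
    have h5 : (k0 : ℝ) ≤ (u * z.1 + z.2) / l := Int.floor_le _
    rw [le_div_iff₀ hl] at h5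
    refine lt_of_le_of_ne h5 fun h6 => h3 k0 ?_
    linarith
  have hk2 : u * z.1 + z.2 < ((k0 : ℝ) + 1) * l := by
    have h5 : (u * z.1 + z.2) / l < (k0 : ℝ) + 1 := Int.lt_floor_add_one _
    rwa [div_lt_iff₀ hl] at h5
  have hc : Continuous fun w : P2 => u * w.1 + w.2 := by fun_prop
  have hev1 : ∀ᶠ w : P2 in 𝓝 z, -1 < w.1 := continuous_fst.continuousAt.eventually_const_lt hz1
  have hev2 : ∀ᶠ w : P2 in 𝓝 z, w.1 < 1 := continuous_fst.continuousAt.eventually_lt_const hz2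
  have hev3 : ∀ᶠ w : P2 in 𝓝 z, (k0 : ℝ) * l < u * w.1 + w.2 :=
    hc.continuousAt.eventually_const_lt hk1
  have hev4 : ∀ᶠ w : P2 in 𝓝 z, u * w.1 + w.2 < ((k0 : ℝ) + 1) * l :=
    hc.continuousAt.eventually_lt_const hk2
  -- the remainder near `z`
  have hrm : ∀ w : P2, -1 < w.1 → w.1 < 1 → (k0 : ℝ) * l < u * w.1 + w.2 →
      u * w.1 + w.2 < ((k0 : ℝ) + 1) * l → cl w.1 = w.1 ∧ rm u l w = u * w.1 + w.2 - l * k0 := by
    intro w hw1 hw2 hw3 hw4
    have hcl := cl_eq hw1.le hw2.le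
    refine ⟨hcl, ?_⟩
    unfold rm
    rw [hcl]
    have : ⌊(u * w.1 + w.2) / l⌋ = k0 := by
      rw [Int.floor_eq_iff]
      refine ⟨?_, ?_⟩
      · rw [le_div_iff₀ hl]; exact hw3.le
      · rw [div_lt_iff₀ hl]; exact hw4
    rw [this]
  obtain ⟨hclz, hrmz⟩ := hrm z hz1 hz2 hk1 hk2
  have hden : ∀ w : P2, -1 < w.1 → w.1 < 1 → 0 < 1 - w.1 * G ∧ 0 < 1 + w.1 * G := by
    intro w hw1 hw2
    constructor <;> nlinarith
  by_cases hcase : 2 * rm u l z < (1 - cl z.1 * G) * l
  · -- rising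
    refine deriv_calc (t := 1) (d := -(l * k0)) hG hG2 hl (Or.inl rfl) hz ?_ ?_ ?_ ?_
    · have hev5 : ∀ᶠ w : P2 in 𝓝 z, 2 * (u * w.1 + w.2 - l * k0) < (1 - w.1 * G) * l := by
        rw [hclz, hrmz] at hcase
        have hc1 : Continuous fun w : P2 => 2 * (u * w.1 + w.2 - l * k0) := by fun_prop
        have hc2 : Continuous fun w : P2 => (1 - w.1 * G) * l := by fun_prop
        exact hc1.continuousAt.eventually_lt hc2.continuousAt hcase
      filter_upwards [hev1, hev2, hev3, hev4, hev5] with w hw1 hw2 hw3 hw4 hw5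
      obtain ⟨e1, e2⟩ := hrm w hw1 hw2 hw3 hw4
      obtain ⟨d1, d2⟩ := hden w hw1 hw2
      unfold hh lam
      rw [e1, e2]
      have : G * (u * w.1 + w.2 - l * k0) / (1 - w.1 * G) ≤
          G * (l - (u * w.1 + w.2 - l * k0)) / (1 + w.1 * G) := by
        rw [div_le_div_iff₀ d1 d2]
        have h6 : (u * w.1 + w.2 - l * k0) * (1 + w.1 * G) ≤
            (l - (u * w.1 + w.2 - l * k0)) * (1 - w.1 * G) := by nlinarith
        calc G * (u * w.1 + w.2 - l * k0) * (1 + w.1 * G)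
            = G * ((u * w.1 + w.2 - l * k0) * (1 + w.1 * G)) := by ring
          _ ≤ G * ((l - (u * w.1 + w.2 - l * k0)) * (1 - w.1 * G)) :=
              mul_le_mul_of_nonneg_left h6 hG.le
          _ = _ := by ring
      rw [min_eq_left this]
      have : (1 : ℝ) - 1 * w.1 * G = 1 - w.1 * G := by ring
      rw [this]
      ring
    · linarith
    · rw [hclz, hrmz] at hcase
      linarith
    · unfold xi
      rw [if_pos hcase, hclz]
      have : (1 : ℝ) - 1 * z.1 * G = 1 - z.1 * G := by ring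
      rw [this]
      ring
  · -- falling
    have hcase' : (1 - cl z.1 * G) * l < 2 * rm u l z := by
      refine lt_of_le_of_ne (not_lt.mp hcase) fun h6 => h4 k0 ?_
      rw [hclz, hrmz] at h6
      linarith
    refine deriv_calc (t := -1) (d := l * (k0 + 1)) hG hG2 hl (Or.inr rfl) hz ?_ ?_ ?_ ?_
    · have hev5 : ∀ᶠ w : P2 in 𝓝 z, (1 - w.1 * G) * l < 2 * (u * w.1 + w.2 - l * k0) := by
        rw [hclz, hrmz] at hcase'
        have hc1 : Continuous fun w : P2 => 2 * (u * w.1 + w.2 - l * k0) := by fun_prop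
        have hc2 : Continuous fun w : P2 => (1 - w.1 * G) * l := by fun_prop
        exact hc2.continuousAt.eventually_lt hc1.continuousAt hcase'
      filter_upwards [hev1, hev2, hev3, hev4, hev5] with w hw1 hw2 hw3 hw4 hw5
      obtain ⟨e1, e2⟩ := hrm w hw1 hw2 hw3 hw4
      obtain ⟨d1, d2⟩ := hden w hw1 hw2
      unfold hh lam
      rw [e1, e2]
      have : G * (l - (u * w.1 + w.2 - l * k0)) / (1 + w.1 * G) ≤
          G * (u * w.1 + w.2 - l * k0) / (1 - w.1 * G) := by
        rw [div_le_div_iff₀ d2 d1]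
        have h6 : (l - (u * w.1 + w.2 - l * k0)) * (1 - w.1 * G) ≤
            (u * w.1 + w.2 - l * k0) * (1 + w.1 * G) := by nlinarith
        calc G * (l - (u * w.1 + w.2 - l * k0)) * (1 - w.1 * G)
            = G * ((l - (u * w.1 + w.2 - l * k0)) * (1 - w.1 * G)) := by ring
          _ ≤ G * ((u * w.1 + w.2 - l * k0) * (1 + w.1 * G)) :=
              mul_le_mul_of_nonneg_left h6 hG.le
          _ = _ := by ring
      rw [min_eq_right this]
      have : (1 : ℝ) - -1 * w.1 * G = 1 + w.1 * G := by ring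
      rw [this]
      ring
    · nlinarith
    · rw [hclz, hrmz] at hcase'
      nlinarith
    · unfold xi
      rw [if_neg hcase, hclz]
      have : (1 : ℝ) - -1 * z.1 * G = 1 + z.1 * G := by ring
      rw [this]
      ring

end Pool.Agent.KS6_47.CR.S3
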