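import Pool.Agent.KS6_47.CR.Stm

set_option autoImplicit false
open MeasureTheory Set Filter Topology
open scoped ENNReal NNReal Real

namespace Pool.Agent.KS6_47.CR.S4

/-- the vertical shift -/
def ee (s : ℝ) : P2 := (0, s)

lemma cl_mem (a : ℝ) : -1 ≤ cl a ∧ cl a ≤ 1 := by
  unfold cl
  exact ⟨le_max_left _ _, max_le (by norm_num) (min_le_left _ _)⟩

/-- the one dimensional profile -/
noncomputable def prof (S G l c : ℝ) (v : ℝ) : ℝ :=
  if 2 * (v - l * ⌊v / l⌋) < (1 - c * G) * l then G * S / (1 - c * G) else -(G * S / (1 + c * G))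

lemma xi_eq (u G l : ℝ) (z : P2) :
    xi u G l z = prof (√(1 + (cl z.1) ^ 2)) G l (cl z.1) (u * cl z.1 + z.2) := rfl

lemma prof_periodic (S G l c : ℝ) (hl : 0 < l) : Function.Periodic (prof S G l c) l := by
  intro v
  unfold prof
  have h1 : (v + l) / l = v / l + 1 := by field_simp
  rw [h1, Int.floor_add_one]
  have h2 : v + l - l * (((⌊v / l⌋ + 1 : ℤ)) : ℝ) = v - l * ⌊v / l⌋ := by push_cast; ring
  rw [h2]

lemma prof_int (S G l c : ℝ) (hG : 0 < G) (hG2 : G ≤ 1 / 16) (hl : 0 < l) (hc1 : -1 ≤ c)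
    (hc2 : c ≤ 1) (v : ℝ) : ∫ s in (0:ℝ)..l, prof S G l c (v + s) = 0 := by
  have e1 : ∫ s in (0:ℝ)..l, prof S G l c (v + s) = ∫ s in v..(v + l), prof S G l c s := by
    rw [intervalIntegral.integral_comp_add_left (fun x => prof S G l c x) v, add_zero]
  rw [e1, (prof_periodic S G l c hl).intervalIntegral_add_eq v 0, zero_add]
  have hcG : |c * G| ≤ 1 / 16 := by
    rw [abs_mul, abs_of_pos hG]
    calc |c| * G ≤ 1 * (1 / 16) := mul_le_mul (abs_le.mpr ⟨hc1, hc2⟩) hG2 hG.le zero_le_one
      _ = 1 / 16 := one_mul _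
  have h1 := abs_le.mp hcG
  have hp : 0 < 1 - c * G := by linarith [h1.2]
  have hq : 0 < 1 + c * G := by linarith [h1.1]
  set d := (1 - c * G) * l / 2 with hd
  have hd0 : 0 < d := by positivity
  have hdl : d < l := by
    have : l - d = (1 + c * G) * l / 2 := by rw [hd]; ring
    have h3 : 0 < (1 + c * G) * l / 2 := by positivity
    linarith
  have hfl : ∀ v : ℝ, 0 < v → v < l → ⌊v / l⌋ = 0 := by
    intro v h1 h2
    rw [Int.floor_eq_zero_iff]
    exact ⟨by positivity, by rw [div_lt_one hl]; exact h2⟩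
  have hA : ∫ s in (0:ℝ)..d, prof S G l c s = d * (G * S / (1 - c * G)) := by
    rw [intervalIntegral.integral_congr_Ioo_of_le hd0.le
      (g := fun _ => G * S / (1 - c * G)) (fun s hs => ?_)]
    · rw [intervalIntegral.integral_const, smul_eq_mul, sub_zero]
    · unfold prof
      rw [hfl s hs.1 (hs.2.trans hdl)]
      have h3 : 2 * (s - l * ((0 : ℤ) : ℝ)) < (1 - c * G) * l := by
        have := hs.2
        push_cast
        linarith
      rw [if_pos h3]
  have hB : ∫ s in d..l, prof S G l c s = (l - d) * (-(G * S / (1 + c * G))) := by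
    rw [intervalIntegral.integral_congr_Ioo_of_le hdl.le
      (g := fun _ => -(G * S / (1 + c * G))) (fun s hs => ?_)]
    · rw [intervalIntegral.integral_const, smul_eq_mul]
    · unfold prof
      rw [hfl s (hd0.trans hs.1) hs.2]
      have h3 : ¬ 2 * (s - l * ((0 : ℤ) : ℝ)) < (1 - c * G) * l := by
        have := hs.1
        push_cast
        linarith
      rw [if_neg h3]
  have hiA : IntervalIntegrable (prof S G l c) volume 0 d := by
    refine (intervalIntegrable_const (c := G * S / (1 - c * G))).congr_ae ?_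
    rw [uIoc_of_le hd0.le, ← restrict_Ioo_eq_restrict_Ioc]
    filter_upwards [ae_restrict_mem measurableSet_Ioo] with s hs
    unfold prof
    rw [hfl s hs.1 (hs.2.trans hdl)]
    have h3 : 2 * (s - l * ((0 : ℤ) : ℝ)) < (1 - c * G) * l := by
      have := hs.2
      push_cast
      linarith
    rw [if_pos h3]
  have hiB : IntervalIntegrable (prof S G l c) volume d l := by
    refine (intervalIntegrable_const (c := -(G * S / (1 + c * G)))).congr_ae ?_
    rw [uIoc_of_le hdl.le, ← restrict_Ioo_eq_restrict_Ioc]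
    filter_upwards [ae_restrict_mem measurableSet_Ioo] with s hs
    unfold prof
    rw [hfl s (hd0.trans hs.1) hs.2]
    have h3 : ¬ 2 * (s - l * ((0 : ℤ) : ℝ)) < (1 - c * G) * l := by
      have := hs.1
      push_cast
      linarith
    rw [if_neg h3]
  rw [← intervalIntegral.integral_add_adjacent_intervals hiA hiB, hA, hB]
  have h4 : l - d = (1 + c * G) * l / 2 := by rw [hd]; ring
  rw [h4, hd]
  field_simp
  ring

/-- the mean of `xi` over a period vanishes -/
lemma xi_int {u G l : ℝ} (hG : 0 < G) (hG2 : G ≤ 1 / 16) (hl : 0 < l) (z : P2) :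
    ∫ s in (0:ℝ)..l, xi u G l (z + ee s) = 0 := by
  have h := prof_int (√(1 + (cl z.1) ^ 2)) G l (cl z.1) hG hG2 hl (cl_mem _).1 (cl_mem _).2
    (u * cl z.1 + z.2)
  refine Eq.trans (intervalIntegral.integral_congr fun s _ => ?_) h
  simp only [xi_eq, ee, Prod.fst_add, Prod.snd_add, add_zero]
  congr 1
  ring

/-- the main estimate -/
lemma main_est {u G l : ℝ} (hx : Measurable (xi u G l) ∧ ∀ z, G / 2 ≤ |xi u G l z| ∧
    |xi u G l z| ≤ 2 * G) (hG : 0 < G) (hG2 : G ≤ 1 / 16) (hl : 0 < l) {ψ : P2 → ℝ}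
    (hc : Continuous ψ) (hi : Integrable ψ) {B : Set P2} (hB : MeasurableSet B)
    (hBf : volume B ≠ ⊤) {ω : ℝ}
    (hω : ∀ s, 0 ≤ s → s ≤ l → ∀ z, |ψ (z + ee s) - ψ z| ≤ B.indicator (fun _ => ω) z) :
    |∫ z, xi u G l z * ψ z| ≤ 2 * G * (ω * volume.real B) := by
  set X := xi u G l with hX
  have hXb : ∀ z, ‖X z‖ ≤ 2 * G := fun z => (hx.2 z).2
  set I := ∫ z, X z * ψ z with hI
  have hshift : ∀ s : ℝ, ∫ z, X (z + ee s) * ψ (z + ee s) = I := fun s =>
    integral_add_right_eq_self (fun z => X z * ψ z) (ee s)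
  have hmee : Measurable fun p : ℝ × P2 => p.2 + ee p.1 := by
    unfold ee
    fun_prop
  have hmees : ∀ s : ℝ, Measurable fun z : P2 => z + ee s := fun s => by fun_prop
  have hint1 : ∀ s : ℝ, Integrable (fun z => X (z + ee s) * ψ (z + ee s)) := by
    intro s
    refine Integrable.bdd_mul (c := 2 * G) (hi.comp_add_right (ee s)) ?_ (ae_of_all _ fun z => hXb _)
    exact (hx.1.comp (hmees s)).aestronglyMeasurable
  have hint2 : ∀ s : ℝ, Integrable (fun z => X (z + ee s) * ψ z) := by
    intro s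
    refine Integrable.bdd_mul (c := 2 * G) hi ?_ (ae_of_all _ fun z => hXb _)
    exact (hx.1.comp (hmees s)).aestronglyMeasurable
  have hfub : Integrable (Function.uncurry fun (s : ℝ) (z : P2) => X (z + ee s) * ψ z)
      ((volume.restrict (Set.uIoc 0 l)).prod volume) := by
    have h1 : Integrable (fun p : ℝ × P2 => ψ p.2)
        ((volume.restrict (Set.uIoc 0 l)).prod volume) := by
      rw [uIoc_of_le hl.le]
      exact Integrable.comp_snd hi (volume.restrict (Set.Ioc 0 l))
    refine Integrable.bdd_mul (c := 2 * G) h1 ?_ (ae_of_all _ fun z => hXb _)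
    exact (hx.1.comp hmee).aestronglyMeasurable
  have hzero : ∫ s in (0:ℝ)..l, ∫ z, X (z + ee s) * ψ z = 0 := by
    rw [intervalIntegral_integral_swap hfub]
    have : ∀ z, ∫ s in (0:ℝ)..l, X (z + ee s) * ψ z = 0 := by
      intro z
      rw [intervalIntegral.integral_mul_const, xi_int hG hG2 hl z, zero_mul]
    simp [this]
  have hdiff : ∀ s, (∫ z, X (z + ee s) * ψ z) =
      I - ∫ z, X (z + ee s) * (ψ (z + ee s) - ψ z) := by
    intro s
    rw [← hshift s, ← integral_sub (hint1 s)]
    · refine integral_congr_ae (ae_of_all _ fun z => ?_)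
      simp only
      ring
    · have : (fun z => X (z + ee s) * (ψ (z + ee s) - ψ z)) =
          fun z => X (z + ee s) * ψ (z + ee s) - X (z + ee s) * ψ z := by
        funext z; ring
      rw [this]
      exact (hint1 s).sub (hint2 s)
  have hbound : ∀ s ∈ Set.uIoc 0 l, ‖I - ∫ z, X (z + ee s) * ψ z‖ ≤ 2 * G * (ω * volume.real B) := by
    intro s hs
    rw [uIoc_of_le hl.le] at hs
    rw [hdiff s]
    have e1 : I - (I - ∫ z, X (z + ee s) * (ψ (z + ee s) - ψ z)) =
      ∫ z, X (z + ee s) * (ψ (z + ee s) - ψ z) := by ring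
    rw [e1]
    have h1 : ‖∫ z, X (z + ee s) * (ψ (z + ee s) - ψ z)‖ ≤
        ∫ z, 2 * G * B.indicator (fun _ => ω) z := by
      refine norm_integral_le_of_norm_le ?_ (ae_of_all _ fun z => ?_)
      · exact ((integrable_indicator_iff hB).mpr (integrableOn_const hBf)).const_mul _
      · rw [norm_mul]
        exact mul_le_mul (hXb _) (hω s hs.1.le hs.2 z) (norm_nonneg _) (by positivity)
    refine h1.trans (le_of_eq ?_)
    rw [integral_const_mul, integral_indicator_const _ hB, smul_eq_mul]
    ring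
  have hfin := intervalIntegral.norm_integral_le_of_norm_le_const hbound
  have hI2 : ∫ s in (0:ℝ)..l, (I - ∫ z, X (z + ee s) * ψ z) = l * I := by
    rw [intervalIntegral.integral_sub]
    · rw [hzero]; simp
    · simp
    · rw [intervalIntegrable_iff]
      exact hfub.integral_prod_left
  rw [hI2, sub_zero, norm_mul, Real.norm_eq_abs l, abs_of_pos hl] at hfin
  have h3 : l * ‖I‖ ≤ l * (2 * G * (ω * volume.real B)) := by linarith
  exact le_of_mul_le_mul_left h3 hl

theorem s4 (hx : StmXi) : StmWeak := by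
  intro u G φ hu0 hu1 hG hG2 hφ
  rw [Metric.tendsto_atTop]
  intro ε hε
  obtain ⟨ψ, hψs, hψd, hψc, hψi⟩ := hφ.exists_hasCompactSupport_integral_sub_le
    (ε := ε / (4 * G * 2)) (by positivity)
  -- radius of the support
  obtain ⟨R, hR⟩ := (hψs.isCompact.isBounded).subset_closedBall (0 : P2)
  set B := Metric.closedBall (0 : P2) (R + 1) with hBdef
  have hBf : volume B ≠ ⊤ := (isCompact_closedBall _ _).measure_lt_top.ne
  set V := volume.real B with hV
  have hV0 : 0 ≤ V := measureReal_nonneg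
  have huc := hψs.uniformContinuous_of_continuous hψc
  rw [Metric.uniformContinuous_iff] at huc
  set ω := ε / (4 * G * (2 * (V + 1))) with hω
  have hω0 : 0 < ω := by positivity
  obtain ⟨δ, hδ, hδ2⟩ := huc ω hω0
  have hlim : Tendsto (fun N : ℕ => 1 / ((N : ℝ) + 1)) atTop (𝓝 0) :=
    tendsto_one_div_add_atTop_nhds_zero_nat
  obtain ⟨N0, hN0⟩ := (Metric.tendsto_atTop.mp hlim) (min δ 1) (lt_min hδ one_pos)
  refine ⟨N0, fun N hN => ?_⟩
  set l := 1 / ((N : ℝ) + 1) with hl
  have hl0 : 0 < l := by positivity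
  have hlδ : l < min δ 1 := by
    have := hN0 N hN
    rwa [Real.dist_eq, sub_zero, abs_of_pos hl0] at this
  have hxl := hx u G l hG hG2 hl0
  have hest := main_est hxl hG hG2 hl0 hψc hψi (B := B) measurableSet_closedBall hBf (ω := ω) (by
    intro s hs0 hsl z
    by_cases hz : z ∈ B
    · rw [indicator_of_mem hz]
      have h1 : dist (z + ee s) z < δ := by
        rw [dist_self_add_left]
        have : ‖ee s‖ = s := by
          unfold ee
          rw [Prod.norm_def]
          simp [abs_of_nonneg hs0, hs0]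
        rw [this]
        exact lt_of_le_of_lt hsl (hlδ.trans_le (min_le_left _ _))
      have := (hδ2 h1).le
      rwa [Real.dist_eq] at this
    · rw [indicator_of_notMem hz]
      have hzn : R + 1 < ‖z‖ := by
        rw [hBdef, mem_closedBall_zero_iff] at hz
        exact not_le.mp hz
      have h1 : ψ z = 0 := by
        by_contra h2
        have h3 := hR (subset_tsupport _ (Function.mem_support.mpr h2))
        rw [mem_closedBall_zero_iff] at h3
        linarith
      have h2 : ψ (z + ee s) = 0 := by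
        by_contra h2
        have h3 := hR (subset_tsupport _ (Function.mem_support.mpr h2))
        rw [mem_closedBall_zero_iff] at h3
        have h4 : ‖ee s‖ ≤ 1 := by
          unfold ee
          rw [Prod.norm_def]
          simp only [norm_zero, Real.norm_eq_abs, abs_of_nonneg hs0]
          exact max_le zero_le_one (hsl.trans (hlδ.trans_le (min_le_right _ _)).le)
        have h5 : ‖z‖ ≤ ‖z + ee s‖ + ‖ee s‖ := by
          calc ‖z‖ = ‖(z + ee s) - ee s‖ := by congr 1; abel
            _ ≤ _ := norm_sub_le _ _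
        linarith
      rw [h1, h2]
      simp)
  have hXb : ∀ z, ‖xi u G l z‖ ≤ 2 * G := fun z => (hxl.2 z).2
  have hi1 : Integrable (fun z => xi u G l z * ψ z) :=
    Integrable.bdd_mul (c := 2 * G) hψi hxl.1.aestronglyMeasurable (ae_of_all _ hXb)
  have hi2 : Integrable (fun z => xi u G l z * (φ z - ψ z)) :=
    Integrable.bdd_mul (c := 2 * G) (hφ.sub hψi) hxl.1.aestronglyMeasurable (ae_of_all _ hXb)
  have hsplit : ∫ z, xi u G l z * φ z =
      (∫ z, xi u G l z * ψ z) + ∫ z, xi u G l z * (φ z - ψ z) := by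
    rw [← integral_add hi1 hi2]
    refine integral_congr_ae (ae_of_all _ fun z => ?_)
    simp only
    ring
  have h2 : |∫ z, xi u G l z * (φ z - ψ z)| ≤ 2 * G * (ε / (4 * G * 2)) := by
    have h3 : ‖∫ z, xi u G l z * (φ z - ψ z)‖ ≤ ∫ z, 2 * G * ‖φ z - ψ z‖ := by
      refine norm_integral_le_of_norm_le ((hφ.sub hψi).norm.const_mul _) (ae_of_all _ fun z => ?_)
      rw [norm_mul]
      exact mul_le_mul_of_nonneg_right (hXb z) (norm_nonneg _)
    rw [integral_const_mul] at h3
    exact h3.trans (mul_le_mul_of_nonneg_left hψd (by positivity))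
  rw [Real.dist_eq, sub_zero, hsplit]
  have h4 : 2 * G * (ε / (4 * G * 2)) = ε / 4 := by field_simp
  have h5 : 2 * G * (ω * V) ≤ ε / 4 := by
    rw [hω]
    have h6 : 2 * G * (ε / (4 * G * (2 * (V + 1))) * V) = ε / 4 * (V / (V + 1)) := by
      field_simp
    rw [h6]
    have h7 : V / (V + 1) ≤ 1 := by rw [div_le_one (by linarith)]; linarith
    calc ε / 4 * (V / (V + 1)) ≤ ε / 4 * 1 := mul_le_mul_of_nonneg_left h7 (by positivity)
      _ = ε / 4 := mul_one _
  calc |(∫ z, xi u G l z * ψ z) + ∫ z, xi u G l z * (φ z - ψ z)|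
      ≤ |∫ z, xi u G l z * ψ z| + |∫ z, xi u G l z * (φ z - ψ z)| := abs_add_le _ _
    _ ≤ ε / 4 + ε / 4 := add_le_add (hest.trans h5) (h2.trans h4.le)
    _ < ε := by linarith

end Pool.Agent.KS6_47.CR.S4
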