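import Pool.Agent.KS6_47.CR.D2

set_option autoImplicit false
open MeasureTheory Set Filter Topology
open scoped ENNReal NNReal Real Cardinal

namespace Pool.Agent.KS6_47.CR.SE2

lemma mem_ln_false {z p : P2} : p ∈ ln false z ↔ p.2 = z.1 * p.1 + z.2 := by
  constructor
  · rintro ⟨x, rfl⟩
    simp [pt, q]
  · intro h
    refine ⟨p.1, ?_⟩
    ext <;> simp [pt, q, h]

lemma mem_ln_true {z p : P2} : p ∈ ln true z ↔ p.1 = z.1 * p.2 + z.2 := by
  constructor
  · rintro ⟨x, rfl⟩
    simp [pt, q]
  · intro h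
    refine ⟨p.2, ?_⟩
    ext <;> simp [pt, q, h]

lemma pt_inj (s : Bool) (z : P2) : Function.Injective (pt s z) := by
  intro x y h
  cases s
  · have := congrArg Prod.fst h
    simpa [pt] using this
  · have := congrArg Prod.snd h
    simpa [pt] using this

lemma ft {z z' : P2} {p p' : P2} (hne : p ≠ p') (h1 : p ∈ ln false z)
    (h2 : p' ∈ ln false z) (h3 : p ∈ ln true z') (h4 : p' ∈ ln true z') :
    ln false z = ln true z' := by
  rw [mem_ln_false] at h1 h2
  rw [mem_ln_true] at h3 h4
  have hx : p.1 ≠ p'.1 := by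
    intro h
    apply hne
    ext
    · exact h
    · rw [h1, h2, h]
  have haa : z.1 * z'.1 = 1 := by
    have : (p.1 - p'.1) * (1 - z.1 * z'.1) = 0 := by
      have e1 : p.2 - p'.2 = z.1 * (p.1 - p'.1) := by rw [h1, h2]; ring
      have e2 : p.1 - p'.1 = z'.1 * (p.2 - p'.2) := by
        have : p.1 - p'.1 = (z'.1 * p.2 + z'.2) - (z'.1 * p'.2 + z'.2) := by rw [← h3, ← h4]
        rw [this]; ring
      rw [e1] at e2
      linear_combination e2
    rcases mul_eq_zero.1 this with h | h
    · exact absurd (sub_eq_zero.1 h) hx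
    · linarith
  have hb : z'.2 = - z'.1 * z.2 := by
    have : z'.2 = p.1 - z'.1 * p.2 := by linarith
    rw [this, h1]
    linear_combination - p.1 * haa
  ext w
  rw [mem_ln_false, mem_ln_true, hb]
  constructor
  · intro h
    rw [h]
    linear_combination - w.1 * haa
  · intro h
    rw [h]
    linear_combination (z.2 - w.2) * haa

lemma two_pts {s s' : Bool} {z z' : P2} {p p' : P2} (hne : p ≠ p') (h1 : p ∈ ln s z)
    (h2 : p' ∈ ln s z) (h3 : p ∈ ln s' z') (h4 : p' ∈ ln s' z') : ln s z = ln s' z' := by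
  have key : ∀ {a b a' b' x1 x2 : ℝ}, x1 ≠ x2 → a * x1 + b = a' * x1 + b' →
      a * x2 + b = a' * x2 + b' → a = a' ∧ b = b' := by
    intro a b a' b' x1 x2 hx e1 e2
    have h : (a - a') * (x1 - x2) = 0 := by linear_combination e1 - e2
    rcases mul_eq_zero.1 h with h | h
    · have ha : a = a' := sub_eq_zero.1 h
      refine ⟨ha, ?_⟩
      rw [ha] at e1
      linarith
    · exact absurd (sub_eq_zero.1 h) hx
  cases s <;> cases s'
  · rw [mem_ln_false] at h1 h2 h3 h4
    have hx : p.1 ≠ p'.1 := by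
      intro h
      apply hne
      ext
      · exact h
      · rw [h1, h2, h]
    obtain ⟨ha, hb⟩ := key hx (h1.symm.trans h3) (h2.symm.trans h4)
    have : z = z' := Prod.ext ha hb
    rw [this]
  · exact ft hne h1 h2 h3 h4
  · exact (ft hne h3 h4 h1 h2).symm
  · rw [mem_ln_true] at h1 h2 h3 h4
    have hx : p.2 ≠ p'.2 := by
      intro h
      apply hne
      ext
      · rw [h1, h2, h]
      · exact h
    obtain ⟨ha, hb⟩ := key hx (h1.symm.trans h3) (h2.symm.trans h4)
    have : z = z' := Prod.ext ha hb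
    rw [this]

/-- measurable sets of reals -/
lemma card_meas : #{C : Set ℝ // MeasurableSet C} ≤ 𝔠 := by
  have h := MeasurableSpace.cardinal_measurableSet_le_continuum
    (s := MeasurableSpace.countableGeneratingSet ℝ)
    ((Cardinal.le_aleph0_iff_set_countable.2
      MeasurableSpace.countable_countableGeneratingSet).trans Cardinal.aleph0_le_continuum)
  rw [MeasurableSpace.generateFrom_countableGeneratingSet] at h
  exact h

lemma card_pos {C : Set ℝ} (hC : MeasurableSet C) (hv : 0 < volume C) : #C = 𝔠 := by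
  have hnc : ¬ Countable C := by
    intro h
    have : C.Countable := Set.countable_coe_iff.1 h
    rw [this.measure_zero] at hv
    exact lt_irrefl _ hv
  have hR : ¬ Countable ℝ := by
    intro h
    exact Cardinal.not_countable_real (Set.countable_univ_iff.2 h)
  have : StandardBorelSpace C := hC.standardBorel
  have e := PolishSpace.measurableEquivOfNotCountable (α := C) (β := ℝ) hnc hR
  rw [Cardinal.mk_congr e.toEquiv, Cardinal.mk_real]

/-- the index set -/
abbrev A (N : Set P2) (B : Set (Set P2)) : Type :=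
  {p : Bool × P2 × {C : Set ℝ // MeasurableSet C} //
    ln p.1 p.2.1 ∈ B ∧ (p.2.2 : Set ℝ) ⊆ {x | pt p.1 p.2.1 x ∈ N} ∧ 0 < volume (p.2.2 : Set ℝ)}

lemma card_A (N : Set P2) (B : Set (Set P2)) : #(A N B) ≤ 𝔠 := by
  refine (Cardinal.mk_subtype_le _).trans ?_
  rw [Cardinal.mk_prod, Cardinal.mk_prod]
  simp only [Cardinal.lift_id]
  have h1 : #Bool ≤ 𝔠 := (Cardinal.lt_aleph0_of_finite Bool).le.trans Cardinal.aleph0_le_continuum
  have h2 : #P2 ≤ 𝔠 := by
    have : #P2 = #ℝ * #ℝ := by
      rw [Cardinal.mk_prod]; simp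
    rw [this, Cardinal.mk_real, Cardinal.continuum_mul_self]
  calc #Bool * (#P2 * #{C : Set ℝ // MeasurableSet C}) ≤ 𝔠 * (𝔠 * 𝔠) :=
        mul_le_mul' h1 (mul_le_mul' h2 card_meas)
    _ = 𝔠 := by simp

/-- the requirement for the choice of a point -/
def Good {ι : Type} (r : ι → ι → Prop) (L : ι → Set P2) (C : ι → Set P2) (i : ι)
    (g : (j : ι) → r j i → P2) (p : P2) : Prop :=
  p ∈ C i ∧ ∀ (s : Bool) (z : P2), ln s z ≠ L i → ∀ (j k : ι) (hj : r j i) (hk : r k i),
    g j hj ≠ g k hk → g j hj ∈ ln s z → g k hk ∈ ln s z → p ∉ ln s z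

lemma exists_good (N : Set P2) (B : Set (Set P2)) (r : A N B → A N B → Prop)
    (hr : ∀ i, #{j // r j i} < 𝔠) (i : A N B) (g : (j : A N B) → r j i → P2) :
    ∃ p, Good r (fun i => ln i.1.1 i.1.2.1) (fun i => pt i.1.1 i.1.2.1 '' (i.1.2.2 : Set ℝ)) i g p := by
  classical
  set s := i.1.1 with hs
  set z := i.1.2.1 with hz
  set C : Set ℝ := (i.1.2.2 : Set ℝ) with hC
  have hCm : MeasurableSet C := i.1.2.2.2
  have hCv : 0 < volume C := i.2.2.2
  have hcard : #C = 𝔠 := card_pos hCm hCv
  -- bad sets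
  let Bad : {j // r j i} × {j // r j i} → Set ℝ := fun jk =>
    {x | ∃ (s' : Bool) (z' : P2), ln s' z' ≠ ln s z ∧ g jk.1.1 jk.1.2 ≠ g jk.2.1 jk.2.2 ∧
      g jk.1.1 jk.1.2 ∈ ln s' z' ∧ g jk.2.1 jk.2.2 ∈ ln s' z' ∧ pt s z x ∈ ln s' z'}
  have hsub : ∀ jk, (Bad jk).Subsingleton := by
    rintro jk x ⟨s1, z1, h1, hne, h2, h3, h4⟩ y ⟨s2, z2, k1, -, k2, k3, k4⟩
    by_contra hxy
    have e : ln s1 z1 = ln s2 z2 := two_pts hne h2 h3 k2 k3
    have hne2 : pt s z x ≠ pt s z y := fun h => hxy (pt_inj s z h)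
    exact h1 (two_pts hne2 h4 (e ▸ k4) ⟨x, rfl⟩ ⟨y, rfl⟩)
  have hU : #(⋃ jk, Bad jk : Set ℝ) < 𝔠 := by
    have hle : #(⋃ jk, Bad jk : Set ℝ) ≤ #({j // r j i} × {j // r j i}) := by
      -- injection
      have : ∀ x : (⋃ jk, Bad jk : Set ℝ), ∃ jk, (x : ℝ) ∈ Bad jk := fun x =>
        Set.mem_iUnion.1 x.2
      choose F hF using this
      refine Cardinal.mk_le_of_injective (f := F) ?_
      intro x y hxy
      have h1 := hF x
      have h2 := hF y
      rw [hxy] at h1
      exact Subtype.ext (hsub _ h1 h2)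
    refine hle.trans_lt ?_
    rw [Cardinal.mk_prod]
    simp only [Cardinal.lift_id]
    exact Cardinal.mul_lt_of_lt Cardinal.aleph0_le_continuum (hr i) (hr i)
  have : ¬ C ⊆ ⋃ jk, Bad jk := by
    intro h
    have := Cardinal.mk_le_mk_of_subset h
    rw [hcard] at this
    exact absurd (this.trans_lt hU) (lt_irrefl _)
  obtain ⟨x, hx, hxb⟩ := Set.not_subset.1 this
  refine ⟨pt s z x, ⟨x, hx, rfl⟩, ?_⟩
  intro s' z' hne j k hj hk h1 h2 h3 h4
  apply hxb
  exact Set.mem_iUnion.2 ⟨(⟨j, hj⟩, ⟨k, hk⟩), s', z', hne, h1, h2, h3, h4⟩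

lemma meas_pt (s : Bool) (z : P2) : Measurable (pt s z) := by
  cases s
  · have : pt false z = fun x => (x, q x z) := by funext x; simp [pt]
    rw [this]; unfold q; fun_prop
  · have : pt true z = fun x => (q x z, x) := by funext x; simp [pt]
    rw [this]; unfold q; fun_prop

theorem se : StmSel2 := by
  classical
  intro N B hN hB
  obtain ⟨r, wo, hr⟩ := Cardinal.exists_ord_eq (A N B)
  have hcard : ∀ i, #{j // r j i} < 𝔠 := by
    intro i
    have := Cardinal.card_typein_lt i hr
    rw [Ordinal.card_typein] at this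
    exact this.trans_le (card_A N B)
  have hex := exists_good N B r hcard
  choose F hF using hex
  let P : A N B → P2 := wo.wf.fix F
  have hP : ∀ i, Good r (fun i => ln i.1.1 i.1.2.1)
      (fun i => pt i.1.1 i.1.2.1 '' (i.1.2.2 : Set ℝ)) i (fun j _ => P j) (P i) := by
    intro i
    have h : P i = F i (fun j _ => P j) := wo.wf.fix_eq F i
    rw [h]
    exact hF i _
  refine ⟨Set.range P, ?_, ?_, ?_⟩
  · rintro p ⟨i, rfl⟩
    obtain ⟨x, hx, h⟩ := (hP i).1
    have := i.2.2.1 hx
    rw [← h]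
    exact this
  · intro s z hz hB'
    by_contra hlt
    replace hlt : volume {x | pt s z x ∈ Set.range P} < ⊤ := lt_top_iff_ne_top.2 hlt
    set S : Set ℝ := {x | pt s z x ∈ Set.range P} with hS
    set H := toMeasurable volume S with hH
    have hHv : volume H < ⊤ := by rw [hH, measure_toMeasurable]; exact hlt
    have hSH : S ⊆ H := subset_toMeasurable _ _
    have hNm : MeasurableSet {x | pt s z x ∈ N} := meas_pt s z hN
    have hCm : MeasurableSet ({x | pt s z x ∈ N} \ H) := hNm.diff (measurableSet_toMeasurable _ _)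
    have hCv : 0 < volume ({x | pt s z x ∈ N} \ H) := by
      have h1 : volume {x | pt s z x ∈ N} - volume H ≤ volume ({x | pt s z x ∈ N} \ H) :=
        le_measure_sdiff
      have h2 : 0 < volume {x | pt s z x ∈ N} - volume H :=
        tsub_pos_of_lt (hHv.trans_le (hB s z hz hB').ge)
      exact h2.trans_le h1
    let α : A N B := ⟨(s, z, ⟨_, hCm⟩), hB', fun x hx => hx.1, hCv⟩
    obtain ⟨x, hx, hxP⟩ := (hP α).1
    have hxS : x ∈ S := by
      show pt s z x ∈ Set.range P
      exact ⟨α, hxP.symm⟩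
    exact hx.2 (hSH hxS)
  · intro s z hz hB'
    set S : Set ℝ := {x | pt s z x ∈ Set.range P} with hS
    have hfin : S.Finite := by
      by_contra hinf
      obtain ⟨t, htS, ht3⟩ := Set.Infinite.exists_subset_card_eq (s := S) hinf 3
      obtain ⟨x, y, w, hxy, hxw, hyw, rfl⟩ := Finset.card_eq_three.1 ht3
      have hx : x ∈ S := htS (by simp)
      have hy : y ∈ S := htS (by simp)
      have hw : w ∈ S := htS (by simp)
      obtain ⟨i, hi⟩ := hx
      obtain ⟨j, hj⟩ := hy
      obtain ⟨k, hk⟩ := hw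
      have hinj := pt_inj s z
      have main : ∀ (a b c : A N B) (x y w : ℝ), P a = pt s z x → P b = pt s z y →
          P c = pt s z w → x ≠ y → r a c → r b c → False := by
        intro a b c x y w ha hb hc hxy hac hbc
        have h := (hP c).2 s z (fun h => hB' (h ▸ c.2.1)) a b hac hbc
          (fun h => hxy (hinj (by rw [← ha, ← hb]; exact h)))
          (by show P a ∈ ln s z; rw [ha]; exact ⟨x, rfl⟩)
          (by show P b ∈ ln s z; rw [hb]; exact ⟨y, rfl⟩)
        exact h (by rw [hc]; exact ⟨w, rfl⟩)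
      have hij : i ≠ j := fun h => hxy (hinj (by rw [← hi, ← hj, h]))
      have hik : i ≠ k := fun h => hxw (hinj (by rw [← hi, ← hk, h]))
      have hjk : j ≠ k := fun h => hyw (hinj (by rw [← hj, ← hk, h]))
      rcases trichotomous_of r i j with h1 | h1 | h1
      · rcases trichotomous_of r j k with h2 | h2 | h2
        · exact main i j k x y w hi hj hk hxy (trans_of r h1 h2) h2
        · exact hjk h2
        · exact main i k j x w y hi hk hj hxw h1 h2
      · exact hij h1
      · rcases trichotomous_of r i k with h2 | h2 | h2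
        · exact main i j k x y w hi hj hk hxy h2 (trans_of r h1 h2)
        · exact hik h2
        · exact main j k i y w x hj hk hi hyw h1 h2
    exact hfin.measure_zero _

end Pool.Agent.KS6_47.CR.SE2
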