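import Pool.Agent.KS6_47.CR.Defs

set_option autoImplicit false
open MeasureTheory Set Filter Topology
open scoped ENNReal NNReal Real

namespace Pool.Agent.KS6_47.CR

/-! ### the strips -/

/-- S1. the section of a full strip -/
def StmSec : Prop :=
  ∀ (u G l : ℝ) (z : P2), 0 ≤ u → u ≤ 1 → 0 < G → G ≤ 1 / 16 → 0 < l → z.1 ∈ Icc (-1:ℝ) 1 →
    {x : ℝ | (x, q x z) ∈ FS u G l} = Icc u (u + lam u G l z)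

/-- S1b. size of `lam` -/
def StmLam : Prop :=
  ∀ (u G l : ℝ) (z : P2), 0 < G → G ≤ 1 / 16 → 0 < l →
    0 ≤ lam u G l z ∧ lam u G l z ≤ G * l / 2 ∧ 0 ≤ hh u G l z ∧ hh u G l z ≤ G * l

/-- S2. `hh` is Lipschitz, uniformly in the scale `l` -/
def StmLip : Prop :=
  ∀ (u G l : ℝ), 0 ≤ u → u ≤ 1 → 0 < G → G ≤ 1 / 16 → 0 < l → l ≤ 1 →
    LipschitzWith 1 (hh u G l)

/-- S2b. `xi` is measurable and bounded above and below -/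
def StmXi : Prop :=
  ∀ (u G l : ℝ), 0 < G → G ≤ 1 / 16 → 0 < l →
    Measurable (xi u G l) ∧ ∀ z, G / 2 ≤ |xi u G l z| ∧ |xi u G l z| ≤ 2 * G

/-- S3. the gradient of `hh` -/
def StmGrad : Prop :=
  ∀ (u G l : ℝ), 0 ≤ u → u ≤ 1 → 0 < G → G ≤ 1 / 16 → 0 < l → l ≤ 1 →
    ∀ᵐ z : P2, z.1 ∈ Icc (-1:ℝ) 1 → DifferentiableAt ℝ (hh u G l) z ∧
      ∀ v : P2, |fderiv ℝ (hh u G l) z v - xi u G l z * (u * v.1 + v.2)| ≤ G * l * |v.1|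

/-- S4. `xi` tends weakly to zero as the scale tends to zero -/
def StmWeak : Prop :=
  ∀ (u G : ℝ) (φ : P2 → ℝ), 0 ≤ u → u ≤ 1 → 0 < G → G ≤ 1 / 16 → Integrable φ →
    Tendsto (fun N : ℕ => ∫ z, xi u G (1 / ((N : ℝ) + 1)) z * φ z) atTop (𝓝 0)

/-- S5. the cut strip is in the class `Poly` -/
def StmStPoly : Prop :=
  ∀ (u G l Y : ℝ), 0 < G → 0 < l → 0 < Y → Poly (St u G l Y)

/-! ### images -/

/-- A1. area estimate -/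
def StmArea : Prop :=
  ∀ (f : P2 → ℝ) (L : ℝ≥0) (β : ℝ) (A : Set P3), LipschitzWith L f → MeasurableSet A →
    A ⊆ Icc (0:ℝ) 1 ×ˢ (Icc (-1:ℝ) 1 ×ˢ Icc (-β) β) →
    volume (Phi f '' A) ≤ ∫⁻ p in A, ENNReal.ofReal |fderiv ℝ f p.2 (1, -p.1)|

/-- A2. upper semicontinuity of the measure of the image -/
def StmUsc : Prop :=
  ∀ (f : P2 → ℝ) (L L' : ℝ≥0) (β : ℝ) (A : Set P3) (e : ℝ), LipschitzWith L f → MeasurableSet A →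
    A ⊆ Icc (0:ℝ) 1 ×ˢ (Icc (-1:ℝ) 1 ×ˢ Icc (-β) β) → 0 < e →
    ∃ δ > 0, ∀ f' : P2 → ℝ, LipschitzWith L' f' → (∀ z, |f' z - f z| ≤ δ) →
      volume (Phi f' '' A) ≤ volume (Phi f '' A) + ENNReal.ofReal e

/-- A3. compactness -/
def StmDini : Prop :=
  ∀ (f : P2 → ℝ) (K : Set P2) (U : Set P3), Continuous f → IsCompact K → IsOpen U →
    (∀ z ∈ K, 1 / 2 < volume {x : ℝ | x ∈ Icc (0:ℝ) 1 ∧ (f z, x, q x z) ∈ U}) →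
    ∃ η > 0, ∀ z ∈ K, ∀ t : ℝ, |f z - t| ≤ η →
      1 / 2 ≤ volume {x : ℝ | x ∈ Icc (0:ℝ) 1 ∧ (t, x, q x z) ∈ U}

/-! ### the process -/

/-- N. if less than half of the window is hit, then a grid interval survives -/
def StmNever : Prop :=
  ∀ (G : ℝ) (m : ℕ) (P R : ℕ → ℝ), 0 < G →
    (∀ n < m, ∀ x ∈ Icc (0:ℝ) 1,
      |(P (n + 1) - x * R (n + 1)) - (P n - x * R n)| ≤ 2 * G) →
    1 / 2 ≤ volume {x : ℝ | x ∈ Icc (0:ℝ) 1 ∧ ∀ n ≤ m, 3 * G < |P n - x * R n|} →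
    ∃ k < 10, ∃ sg : ℝ, (sg = 1 ∨ sg = -1) ∧ ∀ n ≤ m,
      3 * G < sg * (P n - ((k : ℕ) : ℝ) / 10 * R n) ∧
      3 * G < sg * (P n - (((k : ℕ) : ℝ) + 1) / 10 * R n)

/-- the alive set of the abstract killing lemma -/
def AL {Ω : Type} (G : ℝ) (Y₁ Y₂ : ℕ → Ω → ℝ) (n : ℕ) : Set Ω :=
  {ω | ∀ j ≤ n, 3 * G < Y₁ j ω ∧ 3 * G < Y₂ j ω}

/-- K. killing lemma -/
def StmKill : Prop :=
  ∀ (Ω : Type) [MeasurableSpace Ω] (μ : Measure Ω) [IsFiniteMeasure μ]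
    (G M₀ M e κ σ : ℝ) (m p r : ℕ) (Y₁ Y₂ ξ : ℕ → Ω → ℝ) (c₁ c₂ : ℕ → ℝ),
    0 < G → 0 ≤ M₀ → 0 ≤ e → 0 < κ → 0 ≤ σ → M = M₀ + 2 * G * p →
    (∀ n, Measurable (Y₁ n)) → (∀ n, Measurable (Y₂ n)) → (∀ n, Measurable (ξ n)) →
    (∀ n ω, G / 2 ≤ |ξ n ω|) → (∀ n ω, |ξ n ω| ≤ 2 * G) →
    (∀ n, |c₁ n| ≤ 1) → (∀ n, |c₂ n| ≤ 1) →
    (∀ n ω, Y₁ (n + 1) ω = Y₁ n ω + c₁ n * ξ n ω) →
    (∀ n ω, Y₂ (n + 1) ω = Y₂ n ω + c₂ n * ξ n ω) →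
    (∀ ω, |Y₁ 0 ω| ≤ M₀) → (∀ ω, |Y₂ 0 ω| ≤ M₀) →
    (∀ n < m, |∫ ω in AL G Y₁ Y₂ n, ξ n ω ∂μ| ≤ e) →
    (∀ n < m, |∫ ω in AL G Y₁ Y₂ n, ξ n ω * (c₂ n * Y₁ n ω + c₁ n * Y₂ n ω) ∂μ| ≤ e) →
    p + r ≤ m → 0 < r →
    (∀ n, p ≤ n → n < p + r → c₁ n * c₂ n ≤ -κ ∧ |c₁ n + c₂ n| ≤ σ) →
    2 * G * σ * r ≤ 1 →
    ∫ ω in AL G Y₁ Y₂ m, (Y₁ m ω + Y₂ m ω) ∂μ ≤
      (2 * M + 1) * (4 * (M ^ 2 * μ.real univ + r * e) / (κ * G ^ 2 * r)) + 2 * m * e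

/-- R. the recursion: the scales can be chosen one after the other -/
def StmRec : Prop :=
  ∀ (f : P2 → ℝ) (L : ℝ≥0) (β G e : ℝ) (K : Set P2) (u : ℕ → ℝ),
    LipschitzWith L f → IsCompact K → K ⊆ Icc (-1:ℝ) 1 ×ˢ Icc (-β) β →
    0 < G → G ≤ 1 / 16 → 0 < e → (∀ n, u n ∈ Icc (0:ℝ) 1) →
    ∃ s : ℕ → ℕ, ∀ n, StepOK f u G K e s n

/-- C. cost of the cover, in terms of what is alive at the end -/
def StmCost : Prop :=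
  ∀ (f : P2 → ℝ) (L : ℝ≥0) (β G e : ℝ) (K : Set P2) (u : ℕ → ℝ) (s : ℕ → ℕ) (m : ℕ),
    LipschitzWith L f → IsCompact K → K ⊆ Icc (-1:ℝ) 1 ×ˢ Icc (-β) β → 0 ≤ β →
    0 < G → G ≤ 1 / 16 → 0 < e → e ≤ 1 → (∀ n, u n ∈ Icc (0:ℝ) 1) →
    (∀ n < m, StepOK f u G K e s n) →
    ∃ U : Set P3, IsOpen U ∧
      volume U ≤ ENNReal.ofReal (12 * G * β + (m + 1) ^ 2 * e + 8 * (m + 1) * β * e + e +
        ∑ k ∈ Finset.range 10,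
          (22 * ∫ z in Alv f u G s K k 1 m,
            (Yn f u G s m ((k : ℝ) / 10) z + Yn f u G s m (((k : ℝ) + 1) / 10) z)) -
        ∑ k ∈ Finset.range 10,
          (22 * ∫ z in Alv f u G s K k (-1) m,
            (Yn f u G s m ((k : ℝ) / 10) z + Yn f u G s m (((k : ℝ) + 1) / 10) z))) ∧
      ∀ z ∈ K, 1 / 2 < volume {x : ℝ | x ∈ Icc (0:ℝ) 1 ∧ (fn f u G s m z, x, q x z) ∈ U}

/-- AS. abstract stage lemma -/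
def StmAS : Prop :=
  ∀ (f : P2 → ℝ) (L : ℝ≥0) (β ε ζ : ℝ) (K : Set P2), LipschitzWith L f → IsCompact K →
    0 < β → K ⊆ Icc (-1:ℝ) 1 ×ˢ Icc (-β) β → 0 < ε → 0 < ζ →
    ∃ (G : ℝ) (m : ℕ) (u : ℕ → ℝ), 0 < G ∧ G ≤ 1 / 16 ∧ (∀ n, u n ∈ Icc (0:ℝ) 1) ∧
      (∀ n < m, u n ∈ col ζ) ∧ (∀ n < m, ∀ n' < m, n ≠ n' → u n ≠ u n') ∧
      ∀ ρ > 0, ∃ s : ℕ → ℕ, (∀ n < m, 1 / ((s n : ℝ) + 1) < ρ) ∧
        ∃ U : Set P3, IsOpen U ∧ volume U ≤ ENNReal.ofReal ε ∧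
          ∀ z ∈ K, 1 / 2 < volume {x : ℝ | x ∈ Icc (0:ℝ) 1 ∧ (fn f u G s m z, x, q x z) ∈ U}

/-! ### polygons -/

/-- P1. sections of polygons depend on the line in a Lipschitz way, away from finitely many lines -/
def StmPolyLip : Prop :=
  ∀ (E : Set P2), Poly E → ∀ R > 0, ∃ F : Finset P2, ∀ ρ > 0, ∃ C : ℝ, 0 ≤ C ∧
    ∀ z z' : P2, (∀ p ∈ F, ρ ≤ dist z p) → (∀ p ∈ F, ρ ≤ dist z' p) →
      volume (symmDiff {x : ℝ | x ∈ Icc (-R) R ∧ (x, q x z) ∈ E}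
        {x : ℝ | x ∈ Icc (-R) R ∧ (x, q x z') ∈ E}) ≤ ENNReal.ofReal (C * dist z z')

/-- P2. closure properties of `Poly` -/
def StmPolyOps : Prop :=
  (∀ E, Poly E → MeasurableSet E) ∧ (∀ E F, Poly E → Poly F → Poly (E ∪ F)) ∧ Poly ∅ ∧
    Poly E0 ∧ (∀ j E, Poly E → Poly (cm j ⁻¹' E)) ∧ (∀ j E, Poly E → Poly (ci j ⁻¹' E))

/-- SP. the stage proposition -/
def StmStage : Prop :=
  ∀ (E : Set P2) (β ζ ε : ℝ), Poly E → Bornology.IsBounded E → 0 < β → 0 < ζ → ζ ≤ 1 / 40 →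
    0 < ε → (∀ p ∈ E, p.1 ∈ col ζ → β + 2 < |p.2|) →
    ∃ (W : Set P2) (J : Set ℝ) (U : Set P3) (ζ' η : ℝ), Poly W ∧
      (∀ p ∈ W, p.1 ∈ J ∧ |p.2| ≤ β + 2) ∧ MeasurableSet J ∧ J ⊆ col ζ ∧
      0 < ζ' ∧ ζ' < ζ ∧ Disjoint J (col ζ') ∧ volume J ≤ ENNReal.ofReal ε ∧ 0 < η ∧
      IsOpen U ∧ volume U ≤ ENNReal.ofReal ε ∧
      ∀ z ∈ Icc (-1:ℝ) 1 ×ˢ Icc (-β) β, ∀ t ∈ Ioo (0:ℝ) 1, |Fr (E ∪ W) z - t| ≤ η →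
        1 / 2 ≤ volume {x : ℝ | x ∈ Icc (0:ℝ) 1 ∧ (t, x, q x z) ∈ U}

/-! ### the iteration -/

/-- GA. the iteration of the stage proposition -/
def StmIter : Prop := ∃ W J ε η U, Seqs W J ε η U

/-- GB. what the limit set satisfies -/
def StmGlob : Prop :=
  ∀ W J ε η U, Seqs W J ε η U →
    MeasurableSet (Einf W) ∧ 0 < volume (Einf W) ∧ volume (Einf W) < ⊤ ∧
    ∀ (s : Bool) (z : P2), z.1 ∈ Icc (-1:ℝ) 1 → ∃ j : ℕ, par j = s ∧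
      ∀ t ∈ Ioo (0:ℝ) 1, len s z (Einf W) = ENNReal.ofReal t →
        ∀ᶠ n in atTop, 1 / 2 ≤ volume {x : ℝ | x ∈ Icc (0:ℝ) 1 ∧
          (t, x, q x (z.1, z.2 + z.1 * TT j)) ∈ U (Nat.pair j n)}

/-- L. Borel-Cantelli and Fatou -/
def StmLimsup : Prop :=
  ∀ U : ℕ → Set P3, (∀ n, MeasurableSet (U n)) → (∑' n, volume (U n)) ≠ ⊤ →
    ∀ᵐ t : ℝ, ∃ N : Set P2, MeasurableSet N ∧ volume N = 0 ∧
      ∀ z : P2, (∃ᶠ n in atTop, 1 / 2 ≤ volume {x : ℝ | x ∈ Icc (0:ℝ) 1 ∧ (t, x, q x z) ∈ U n}) →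
        1 / 2 ≤ volume {x : ℝ | x ∈ Icc (0:ℝ) 1 ∧ (x, q x z) ∈ N}

/-- CO. the geometric core -/
def StmCore : Prop :=
  ∃ E : Set P2, MeasurableSet E ∧ 0 < volume E ∧ volume E < ⊤ ∧
    ∀ᵐ t : ℝ, t ∈ Ioo (0:ℝ) 1 → ∃ N : Set P2, MeasurableSet N ∧ volume N = 0 ∧
      ∀ (s : Bool) (z : P2), z.1 ∈ Icc (-1:ℝ) 1 → len s z E = ENNReal.ofReal t →
        1 / 2 ≤ volume {x : ℝ | pt s z x ∈ N}

/-! ### selection and translation to the Euclidean plane -/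

/-- SE. selection of a subset of a null set -/
def StmSel : Prop :=
  ∀ (N : Set P2) (B : Set (Set P2)), MeasurableSet N →
    (∀ (s : Bool) (z : P2), z.1 ∈ Icc (-1:ℝ) 1 → ln s z ∈ B →
      1 / 2 ≤ volume {x : ℝ | pt s z x ∈ N}) →
    ∃ N' : Set P2, N' ⊆ N ∧
      (∀ (s : Bool) (z : P2), z.1 ∈ Icc (-1:ℝ) 1 → ln s z ∈ B →
        1 / 2 ≤ volume {x : ℝ | pt s z x ∈ N'}) ∧
      (∀ (s : Bool) (z : P2), z.1 ∈ Icc (-1:ℝ) 1 → ln s z ∉ B →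
        volume {x : ℝ | pt s z x ∈ N'} = 0)

/-- H1. linear measure on a line -/
def StmHaus : Prop :=
  ∀ (s : Bool) (z : P2) (A : Set P2), μH[1] (toPl '' (ln s z ∩ A)) = len s z A

/-- H2. every line is of the form `ln s z` with slope at most one -/
def StmLine : Prop :=
  ∀ (θ : Plane) (p : ℝ), ‖θ‖ = 1 → ∃ (s : Bool) (z : P2), z.1 ∈ Icc (-1:ℝ) 1 ∧
    {x : Plane | inner ℝ x θ = p} = toPl '' ln s z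

/-- H3. measure -/
def StmPl : Prop :=
  Function.Bijective toPl ∧ (∀ A : Set P2, volume (toPl '' A) = volume A) ∧
    (∀ A : Set P2, MeasurableSet A → MeasurableSet (toPl '' A))

/-- the final statement -/
def StmFinal : Prop :=
  ∃ E : Set Plane, NullMeasurableSet E ∧ 0 < volume E ∧ volume E < ⊤ ∧
    ∀ δ > (0:ℝ), ∃ t : ℝ, 0 < t ∧ t < δ ∧ ∀ (θ : Plane) (p : ℝ), ‖θ‖ = 1 →
      μH[1] ({x : Plane | inner ℝ x θ = p} ∩ E) ≠ ENNReal.ofReal t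

end Pool.Agent.KS6_47.CR
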